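import Mathlib

/-!
# Rational numbers that are not squares in the `p`-adic numbers
-/

set_option autoImplicit false

namespace Pool.Agent.Q317.ST

theorem not_sq_of_norm {p : ℕ} [hp : Fact p.Prime] {a : ℚ_[p]} (h : ‖a‖ = (p : ℝ) ^ (-1 : ℤ)) :
    ∀ x : ℚ_[p], x ^ 2 ≠ a := by
  intro x hx
  have hp1 : (1 : ℝ) < p := by exact_mod_cast hp.out.one_lt
  have h0 : x ≠ 0 := by
    rintro rfl
    rw [zero_pow two_ne_zero] at hx
    rw [← hx, norm_zero] at h
    have : (0 : ℝ) < (p : ℝ) ^ (-1 : ℤ) := by positivity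
    exact this.ne h
  have h1 : ‖x‖ ^ 2 = (p : ℝ) ^ (-1 : ℤ) := by rw [← norm_pow, hx, h]
  rw [Padic.norm_eq_zpow_neg_valuation h0, ← zpow_natCast, ← zpow_mul] at h1
  have h2 := zpow_right_injective₀ (by linarith) hp1.ne' h1
  push_cast at h2
  omega

theorem exists_nonsq (p : ℕ) [hp : Fact p.Prime] : ∃ a b : ℚ,
    (∀ x : ℚ_[p], x ^ 2 ≠ (a : ℚ_[p])) ∧ (∀ x : ℚ_[p], x ^ 2 ≠ (b : ℚ_[p])) ∧
      ∀ x : ℚ_[p], x ^ 2 ≠ ((a * b : ℚ) : ℚ_[p]) := by
  -- a unit that is not a square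
  have key : ∃ b : ℤ, ‖(b : ℚ_[p])‖ = 1 ∧ ∀ x : ℚ_[p], x ^ 2 ≠ (b : ℚ_[p]) := by
    have hlift : ∀ (b : ℤ), ‖(b : ℚ_[p])‖ = 1 → ∀ x : ℚ_[p], x ^ 2 = (b : ℚ_[p]) →
        ∃ y : ℤ_[p], y ^ 2 = (b : ℤ_[p]) := by
      intro b hb x hx
      have h1 : ‖x‖ = 1 := by
        have h2 : ‖x‖ ^ 2 = 1 := by rw [← norm_pow, hx, hb]
        exact (pow_eq_one_iff_of_nonneg (norm_nonneg x) two_ne_zero).1 h2
      refine ⟨⟨x, h1.le⟩, Subtype.ext ?_⟩
      rw [PadicInt.coe_intCast]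
      exact hx
    rcases hp.out.eq_two_or_odd' with h2 | hodd
    · subst h2
      refine ⟨-1, by simp, ?_⟩
      intro x hx
      obtain ⟨y, hy⟩ := hlift (-1) (by simp) x hx
      have h3 := congrArg (PadicInt.toZModPow (p := 2) 2) hy
      rw [map_pow, map_intCast] at h3
      generalize PadicInt.toZModPow (p := 2) 2 y = z at h3
      revert z
      decide
    · have hne : ringChar (ZMod p) ≠ 2 := by
        rw [ZMod.ringChar_zmod_n]
        intro h
        rw [h] at hodd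
        exact absurd hodd (by decide)
      obtain ⟨z, hz⟩ := FiniteField.exists_nonsquare (F := ZMod p) hne
      have hz0 : z ≠ 0 := by
        rintro rfl
        exact hz ⟨0, by simp⟩
      have hb : ((z.val : ℤ) : ZMod p) = z := by
        rw [Int.cast_natCast, ZMod.natCast_zmod_val]
      have hn : ‖((z.val : ℤ) : ℚ_[p])‖ = 1 := by
        apply le_antisymm (Padic.norm_int_le_one _)
        by_contra h
        rw [not_le, Padic.norm_intCast_lt_one_iff] at h
        apply hz0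
        rw [← hb]
        exact (ZMod.intCast_zmod_eq_zero_iff_dvd _ _).2 h
      refine ⟨z.val, hn, ?_⟩
      intro x hx
      obtain ⟨y, hy⟩ := hlift _ hn x hx
      have h3 := congrArg (PadicInt.toZMod (p := p)) hy
      rw [map_pow, map_intCast, hb] at h3
      exact hz ⟨PadicInt.toZMod y, by rw [← h3, sq]⟩
  obtain ⟨b, hb, hb2⟩ := key
  refine ⟨p, b, ?_, ?_, ?_⟩
  · apply not_sq_of_norm
    rw [Rat.cast_natCast, Padic.norm_p, zpow_neg_one]
  · intro x
    rw [Rat.cast_intCast]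
    exact hb2 x
  · apply not_sq_of_norm
    rw [Rat.cast_mul, norm_mul, Rat.cast_natCast, Rat.cast_intCast, hb, Padic.norm_p, zpow_neg_one,
      mul_one]

end Pool.Agent.Q317.ST
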