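import Pool.Agent.Q317.ST.Id

/-!
# Artin's induction theorem with explicit coefficients
-/

set_option autoImplicit false

namespace Pool.Agent.Q317.ST

open scoped Classical

variable {Γ : Type} [Group Γ]

/-- products of characters -/
theorem IsCharOf.mul {G U : Subgroup Γ} {χ₁ χ₂ : G → ℂ} (h1 : IsCharOf χ₁ U)
    (h2 : IsCharOf χ₂ U) : IsCharOf (fun g => χ₁ g * χ₂ g) U := by
  obtain ⟨n, ρ, a1, a2⟩ := h1
  obtain ⟨m, σ, b1, b2⟩ := h2
  refine IsCharOf.of_index (ι := Fin n × Fin m)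
    { toFun := fun g => Matrix.kroneckerMap (fun x y => x * y) (ρ g) (σ g)
      map_one' := by simp
      map_mul' := fun g h => by rw [map_mul, map_mul, Matrix.mul_kronecker_mul] } ?_ ?_
  · intro g hg
    simp [a1 g hg, b1 g hg]
  · intro g
    simp only [MonoidHom.coe_mk, OneHom.coe_mk]
    rw [a2 g, b2 g, Matrix.trace_kronecker]

theorem IsCharOf.const {G U : Subgroup Γ} (n : ℕ) : IsCharOf (fun _ : G => (n : ℂ)) U :=
  ⟨n, 1, fun _ _ => rfl, fun g => by simp⟩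

/-- virtual characters -/
def IsVirt {G : Subgroup Γ} (χ : G → ℂ) (U : Subgroup Γ) : Prop :=
  ∃ χ₁ χ₂ : G → ℂ, IsCharOf χ₁ U ∧ IsCharOf χ₂ U ∧ χ = χ₁ - χ₂

theorem IsCharOf.virt {G U : Subgroup Γ} {χ : G → ℂ} (h : IsCharOf χ U) : IsVirt χ U :=
  ⟨χ, 0, h, IsCharOf.zero, (sub_zero _).symm⟩

theorem IsVirt.zero {G U : Subgroup Γ} : IsVirt (0 : G → ℂ) U := IsCharOf.zero.virt

theorem IsVirt.neg {G U : Subgroup Γ} {χ : G → ℂ} (h : IsVirt χ U) : IsVirt (-χ) U := by
  obtain ⟨a, b, h1, h2, rfl⟩ := h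
  exact ⟨b, a, h2, h1, by rw [neg_sub]⟩

theorem IsVirt.add {G U : Subgroup Γ} {χ χ' : G → ℂ} (h : IsVirt χ U) (h' : IsVirt χ' U) :
    IsVirt (χ + χ') U := by
  obtain ⟨a, b, h1, h2, rfl⟩ := h
  obtain ⟨a', b', h1', h2', rfl⟩ := h'
  exact ⟨a + a', b + b', h1.add h1', h2.add h2', by abel⟩

theorem IsVirt.sub {G U : Subgroup Γ} {χ χ' : G → ℂ} (h : IsVirt χ U) (h' : IsVirt χ' U) :
    IsVirt (χ - χ') U := by
  rw [sub_eq_add_neg]
  exact h.add h'.neg

theorem IsVirt.sum {G U : Subgroup Γ} {ι : Type} (s : Finset ι) (χ : ι → G → ℂ)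
    (h : ∀ i ∈ s, IsVirt (χ i) U) : IsVirt (∑ i ∈ s, χ i) U := by
  induction s using Finset.induction_on with
  | empty => simpa using IsVirt.zero
  | insert a s ha ih =>
    rw [Finset.sum_insert ha]
    exact (h a (Finset.mem_insert_self _ _)).add
      (ih fun i hi => h i (Finset.mem_insert_of_mem hi))

theorem IsVirt.mul {G U : Subgroup Γ} {χ χ' : G → ℂ} (h : IsVirt χ U) (h' : IsVirt χ' U) :
    IsVirt (fun g => χ g * χ' g) U := by
  obtain ⟨a, b, h1, h2, rfl⟩ := h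
  obtain ⟨a', b', h1', h2', rfl⟩ := h'
  refine ⟨_, _, (h1.mul h1').add (h2.mul h2'), (h1.mul h2').add (h2.mul h1'), ?_⟩
  funext g
  simp only [Pi.sub_apply, Pi.add_apply]
  ring

theorem IsVirt.isCl {G U : Subgroup Γ} {χ : G → ℂ} (h : IsVirt χ U) : IsCl G χ := by
  obtain ⟨a, b, h1, h2, rfl⟩ := h
  intro g k
  simp only [Pi.sub_apply]
  rw [h1.isCl, h2.isCl]

theorem ind_sub {G H : Subgroup Γ} [Finite (G ⧸ H.subgroupOf G)] (χ₁ χ₂ : H → ℂ) :
    ind G H (χ₁ - χ₂) = ind G H χ₁ - ind G H χ₂ := by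
  have := Fintype.ofFinite (G ⧸ H.subgroupOf G)
  funext g
  simp only [Pi.sub_apply]
  unfold ind
  rw [finsum_eq_sum_of_fintype, finsum_eq_sum_of_fintype, finsum_eq_sum_of_fintype,
    ← Finset.sum_sub_distrib]
  refine Finset.sum_congr rfl fun x _ => ?_
  split_ifs
  · rfl
  · rw [sub_zero]

theorem ind_zero {G H : Subgroup Γ} : ind G H (0 : H → ℂ) = 0 := by
  funext g
  unfold ind
  simp

theorem IsVirt.induced {G H U : Subgroup Γ} (hHG : H ≤ G) [Finite (G ⧸ H.subgroupOf G)]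
    (hU : U.Normal) (hUH : U ≤ H) {χ : H → ℂ} (h : IsVirt χ U) : IsVirt (ind G H χ) U := by
  obtain ⟨a, b, h1, h2, rfl⟩ := h
  exact ⟨_, _, h1.induced hHG hU hUH, h2.induced hHG hU hUH, ind_sub _ _⟩

/-- the subgroup generated by `g` and `U` -/
def cyc (U : Subgroup Γ) (g : Γ) : Subgroup Γ := Subgroup.zpowers g ⊔ U

theorem mem_cyc (U : Subgroup Γ) (g : Γ) : g ∈ cyc U g :=
  (le_sup_left : Subgroup.zpowers g ≤ cyc U g) (Subgroup.mem_zpowers g)

theorem le_cyc (U : Subgroup Γ) (g : Γ) : U ≤ cyc U g := le_sup_right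

theorem cyc_le {U G : Subgroup Γ} (hU : U ≤ G) {g : Γ} (hg : g ∈ G) : cyc U g ≤ G :=
  sup_le ((Subgroup.zpowers_le).2 hg) hU

theorem cyc_mul {U : Subgroup Γ} (g : Γ) {u : Γ} (hu : u ∈ U) : cyc U (g * u) = cyc U g := by
  apply le_antisymm
  · exact cyc_le (le_cyc _ _) ((cyc U g).mul_mem (mem_cyc _ _) (le_cyc _ _ hu))
  · apply cyc_le (le_cyc _ _)
    have h1 := (cyc U (g * u)).mul_mem (mem_cyc U (g * u)) (le_cyc U (g * u) (U.inv_mem hu))
    rwa [mul_inv_cancel_right] at h1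

theorem mem_cyc_iff {U : Subgroup Γ} [U.Normal] {g x : Γ} :
    x ∈ cyc U g ↔ ∃ k : ℤ, ∃ u ∈ U, g ^ k * u = x := by
  unfold cyc
  rw [Subgroup.mem_sup_of_normal_right]
  constructor
  · rintro ⟨y, ⟨k, hk⟩, z, hz, h⟩
    exact ⟨k, z, hz, by rw [← h, ← hk]⟩
  · rintro ⟨k, z, hz, h⟩
    exact ⟨g ^ k, ⟨k, rfl⟩, z, hz, h⟩

theorem cyc_conj_aux {U H : Subgroup Γ} [hU : U.Normal] {h x : Γ} (hh : h ∈ H)
    (e : cyc U x = H) : cyc U (h * x * h⁻¹) = H := by
  have hUH : U ≤ H := by rw [← e]; exact le_cyc _ _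
  have hx : x ∈ H := by rw [← e]; exact mem_cyc _ _
  apply le_antisymm
  · exact cyc_le hUH (H.mul_mem (H.mul_mem hh hx) (H.inv_mem hh))
  · intro y hy
    have h1 : h⁻¹ * y * h ∈ cyc U x := by
      rw [e]
      exact H.mul_mem (H.mul_mem (H.inv_mem hh) hy) hh
    obtain ⟨k, u, hu, h2⟩ := mem_cyc_iff.1 h1
    refine mem_cyc_iff.2 ⟨k, h * u * h⁻¹, hU.conj_mem u hu h, ?_⟩
    rw [conj_zpow]
    have h3 : y = h * (x ^ k * u) * h⁻¹ := by
      rw [h2]; group
    rw [h3]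
    group

theorem cyc_conj {U H : Subgroup Γ} [U.Normal] {h x : Γ} (hh : h ∈ H) :
    cyc U (h * x * h⁻¹) = H ↔ cyc U x = H := by
  constructor
  · intro e
    have := cyc_conj_aux (H.inv_mem hh) e
    have h1 : h⁻¹ * (h * x * h⁻¹) * h⁻¹⁻¹ = x := by group
    rwa [h1] at this
  · exact cyc_conj_aux hh

/-- the function `[H : U]` on the generators of `H / U` -/
noncomputable def thet (U H : Subgroup Γ) : H → ℂ :=
  fun x => if cyc U (x : Γ) = H then (U.relIndex H : ℂ) else 0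

theorem thet_cl {U H : Subgroup Γ} [U.Normal] : IsCl H (thet U H) := by
  intro g h
  unfold thet
  have h1 : ((h * g * h⁻¹ : H) : Γ) = (h : Γ) * g * (h : Γ)⁻¹ := rfl
  rw [h1]
  simp only [cyc_conj h.2]

theorem ext0_thet {U H : Subgroup Γ} (y : Γ) :
    ext0 H (thet U H) y = (U.relIndex H : ℂ) * if cyc U y = H then 1 else 0 := by
  unfold ext0 thet
  split_ifs with h1 h2 h2
  · rw [mul_one]
  · rw [mul_zero]
  · exact absurd (by rw [← h2]; exact mem_cyc _ _) h1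
  · rw [mul_zero]

theorem relIndex_mul_ind {G H U : Subgroup Γ} (hHG : H ≤ G) (hUH : U ≤ H)
    [Fintype (G ⧸ U.subgroupOf G)] {ψ : H → ℂ} (hψ : IsCl H ψ) (g : G) :
    (U.relIndex H : ℂ) * ind G H ψ g =
      ∑ x : G ⧸ U.subgroupOf G, ext0 H ψ (((x.out : G) : Γ)⁻¹ * g * ((x.out : G) : Γ)) := by
  have hle : U.subgroupOf G ≤ H.subgroupOf G := fun x hx => hUH hx
  let e := Subgroup.quotientEquivProdOfLE hle
  have he : ∀ x : G ⧸ U.subgroupOf G, (e x).1 = ((x.out : G) : G ⧸ H.subgroupOf G) := by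
    intro x
    have h1 : x = ((x.out : G) : G ⧸ U.subgroupOf G) := (QuotientGroup.out_eq' x).symm
    conv_lhs => rw [h1]
    rfl
  have f1 : Finite (G ⧸ H.subgroupOf G) := Finite.of_surjective (fun x => (e x).1)
    (Prod.fst_surjective.comp e.surjective)
  have f2 : Finite ((H.subgroupOf G) ⧸ (U.subgroupOf G).subgroupOf (H.subgroupOf G)) :=
    Finite.of_surjective (fun x => (e x).2) (Prod.snd_surjective.comp e.surjective)
  have := Fintype.ofFinite (G ⧸ H.subgroupOf G)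
  have := Fintype.ofFinite ((H.subgroupOf G) ⧸ (U.subgroupOf G).subgroupOf (H.subgroupOf G))
  rw [ind_eq, finsum_eq_sum_of_fintype]
  have h2 : ∀ x : G ⧸ U.subgroupOf G, ext0 H ψ (((x.out : G) : Γ)⁻¹ * g * ((x.out : G) : Γ)) =
      ext0 H ψ ((((e x).1.out : G) : Γ)⁻¹ * g * (((e x).1.out : G) : Γ)) := by
    intro x
    rw [he x, ext0_out hψ]
  rw [Finset.sum_congr rfl fun x _ => h2 x,
    Equiv.sum_comp e (fun p => ext0 H ψ (((p.1.out : G) : Γ)⁻¹ * g * ((p.1.out : G) : Γ))),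
    Fintype.sum_prod_type]
  simp only [Finset.sum_const, Finset.card_univ, nsmul_eq_mul]
  rw [← Finset.mul_sum]
  congr 2
  rw [← Subgroup.relIndex_subgroupOf hHG, Subgroup.relIndex, Subgroup.index,
    Nat.card_eq_fintype_card]

/-- the subgroups `H ≥ U` of `G` with `H / U` cyclic -/
noncomputable def cycs (G U : Subgroup Γ) [Fintype (G ⧸ U.subgroupOf G)] :
    Finset (Subgroup Γ) :=
  Finset.univ.image fun x : G ⧸ U.subgroupOf G => cyc U ((x.out : G) : Γ)

theorem mem_cycs {G U H : Subgroup Γ} [Fintype (G ⧸ U.subgroupOf G)] :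
    H ∈ cycs G U ↔ ∃ g ∈ G, cyc U g = H := by
  unfold cycs
  rw [Finset.mem_image]
  constructor
  · rintro ⟨x, -, rfl⟩
    exact ⟨_, (x.out).2, rfl⟩
  · rintro ⟨g, hg, rfl⟩
    obtain ⟨h, hh⟩ := QuotientGroup.mk_out_eq_mul (U.subgroupOf G) (⟨g, hg⟩ : G)
    refine ⟨_, Finset.mem_univ (((⟨g, hg⟩ : G) : G ⧸ U.subgroupOf G)), ?_⟩
    rw [hh]
    exact cyc_mul g h.2

theorem relIndex_ne {G U : Subgroup Γ} [Finite (G ⧸ U.subgroupOf G)] : U.relIndex G ≠ 0 := by
  rw [Subgroup.relIndex, Subgroup.index]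
  exact Nat.card_pos.ne'

theorem finite_of_le {G H U : Subgroup Γ} [h : Finite (G ⧸ U.subgroupOf G)] (hUH : U ≤ H)
    (hHG : H ≤ G) : Finite (G ⧸ H.subgroupOf G) ∧ Finite (H ⧸ U.subgroupOf H) := by
  have h1 := relIndex_ne (G := G) (U := U)
  rw [← Subgroup.relIndex_mul_relIndex U H G hUH hHG] at h1
  constructor
  · exact (Nat.finite_of_card_ne_zero (right_ne_zero_of_mul h1))
  · exact (Nat.finite_of_card_ne_zero (left_ne_zero_of_mul h1))

theorem ind_thet {G H U : Subgroup Γ} [U.Normal] (hHG : H ≤ G) (hUH : U ≤ H)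
    [Fintype (G ⧸ U.subgroupOf G)] (g : G) : ind G H (thet U H) g =
      ∑ x : G ⧸ U.subgroupOf G,
        if cyc U (((x.out : G) : Γ)⁻¹ * g * ((x.out : G) : Γ)) = H then (1 : ℂ) else 0 := by
  have h1 := relIndex_mul_ind hHG hUH (thet_cl (U := U) (H := H)) g
  simp only [ext0_thet, ← Finset.mul_sum] at h1
  have h2 := (finite_of_le (G := G) hUH hHG).2
  exact mul_left_cancel₀ (Nat.cast_ne_zero.2 relIndex_ne) h1

/-- **Artin's formula.** -/
theorem artin {G U : Subgroup Γ} [U.Normal] (hUG : U ≤ G) [Fintype (G ⧸ U.subgroupOf G)]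
    {f : G → ℂ} (hf : IsCl G f) :
    ∑ H ∈ cycs G U, ind G H (fun h => ext0 G f h * thet U H h) =
      fun g => (U.relIndex G : ℂ) * f g := by
  funext g
  rw [Finset.sum_apply]
  have h1 : ∀ H ∈ cycs G U, ind G H (fun h => ext0 G f h * thet U H h) g =
      f g * ∑ x : G ⧸ U.subgroupOf G,
        if cyc U (((x.out : G) : Γ)⁻¹ * g * ((x.out : G) : Γ)) = H then (1 : ℂ) else 0 := by
    intro H hH
    obtain ⟨y, hy, hyH⟩ := mem_cycs.1 hH
    have hHG : H ≤ G := by rw [← hyH]; exact cyc_le hUG hy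
    have hUH : U ≤ H := by rw [← hyH]; exact le_cyc _ _
    have := (finite_of_le (G := G) hUH hHG).1
    rw [← ind_thet hHG hUH, ← ind_res_mul hHG hf]
    congr 1
    funext h
    unfold ext0
    rw [dif_pos (hHG h.2)]
  rw [Finset.sum_congr rfl h1, ← Finset.mul_sum, Finset.sum_comm, mul_comm]
  congr 1
  have h2 : ∀ x : G ⧸ U.subgroupOf G, ∑ H ∈ cycs G U,
      (if cyc U (((x.out : G) : Γ)⁻¹ * g * ((x.out : G) : Γ)) = H then (1 : ℂ) else 0) = 1 := by
    intro x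
    rw [Finset.sum_ite_eq, if_pos]
    exact mem_cycs.2 ⟨_, G.mul_mem (G.mul_mem (G.inv_mem x.out.2) g.2) x.out.2, rfl⟩
  rw [Finset.sum_congr rfl fun x _ => h2 x, Finset.sum_const, nsmul_eq_mul, mul_one,
    Finset.card_univ, Subgroup.relIndex, Subgroup.index, Nat.card_eq_fintype_card]

theorem ind_self {G : Subgroup Γ} {ψ : G → ℂ} (hψ : IsCl G ψ) : ind G G ψ = ψ := by
  funext g
  have hs : Subsingleton (G ⧸ G.subgroupOf G) := by
    refine ⟨fun a b => ?_⟩
    induction a using QuotientGroup.induction_on with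
    | H x =>
      induction b using QuotientGroup.induction_on with
      | H y => exact QuotientGroup.eq.2 (Subgroup.mem_subgroupOf.2 (x⁻¹ * y).2)
  have : Fintype (G ⧸ G.subgroupOf G) := Fintype.ofSubsingleton ((1 : G) : G ⧸ G.subgroupOf G)
  rw [ind_eq, finsum_eq_sum_of_fintype, Fintype.sum_subsingleton _ ((1 : G) : G ⧸ G.subgroupOf G),
    ext0_out hψ]
  unfold ext0
  rw [dif_pos (by simp)]
  congr 1
  apply Subtype.ext
  simp

theorem thet_virt {U : Subgroup Γ} [hU : U.Normal] : ∀ (n : ℕ) (H : Subgroup Γ), U ≤ H →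
    Finite (H ⧸ U.subgroupOf H) → U.relIndex H = n → IsVirt (thet U H) U := by
  intro n
  induction n using Nat.strong_induction_on with
  | _ n ih =>
    intro H hUH hfin hn
    have := Fintype.ofFinite (H ⧸ U.subgroupOf H)
    by_cases hH : H ∈ cycs H U
    · have h1 := artin hUH (f := fun _ : H => (1 : ℂ)) (fun _ _ => rfl)
      have h2 : ∀ H' ∈ cycs H U, (fun h : H' => ext0 H (fun _ : H => (1 : ℂ)) h * thet U H' h) =
          thet U H' := by
        intro H' hH'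
        obtain ⟨y, hy, hyH⟩ := mem_cycs.1 hH'
        have hle : H' ≤ H := by rw [← hyH]; exact cyc_le hUH hy
        funext h
        unfold ext0
        rw [dif_pos (hle h.2), one_mul]
      rw [Finset.sum_congr rfl fun H' hH' => congrArg (ind H H') (h2 H' hH'),
        ← Finset.add_sum_erase _ _ hH, ind_self thet_cl] at h1
      rw [eq_sub_of_add_eq h1]
      refine IsVirt.sub ?_ (IsVirt.sum _ _ ?_)
      · simp only [mul_one]
        exact (IsCharOf.const _).virt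
      · intro H' hH'
        obtain ⟨hne, hmem⟩ := Finset.mem_erase.1 hH'
        obtain ⟨y, hy, hyH⟩ := mem_cycs.1 hmem
        have hle : H' ≤ H := by rw [← hyH]; exact cyc_le hUH hy
        have hUH' : U ≤ H' := by rw [← hyH]; exact le_cyc _ _
        obtain ⟨f1, f2⟩ := finite_of_le (G := H) hUH' hle
        refine IsVirt.induced hle hU hUH' (ih _ ?_ H' hUH' f2 rfl)
        rw [← hn, ← Subgroup.relIndex_mul_relIndex U H' H hUH' hle]
        have h3 : U.relIndex H' ≠ 0 := relIndex_ne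
        have h4 : H'.relIndex H ≠ 0 := relIndex_ne
        have h5 : H'.relIndex H ≠ 1 := by
          intro h
          rw [Subgroup.relIndex_eq_one] at h
          exact hne (le_antisymm hle h)
        have h6 : 2 ≤ H'.relIndex H := by omega
        nlinarith [Nat.pos_of_ne_zero h3]
    · have h1 : thet U H = 0 := by
        funext x
        unfold thet
        rw [if_neg]
        · rfl
        · intro h
          exact hH (mem_cycs.2 ⟨x, x.2, h⟩)
      rw [h1]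
      exact IsVirt.zero

theorem artin_virt {G U : Subgroup Γ} [hU : U.Normal] (hUG : U ≤ G)
    [Fintype (G ⧸ U.subgroupOf G)] {f : G → ℂ} (hf : IsVirt f U) {H : Subgroup Γ}
    (hH : H ∈ cycs G U) : IsVirt (fun h : H => ext0 G f h * thet U H h) U := by
  obtain ⟨y, hy, hyH⟩ := mem_cycs.1 hH
  have hle : H ≤ G := by rw [← hyH]; exact cyc_le hUG hy
  have hUH : U ≤ H := by rw [← hyH]; exact le_cyc _ _
  obtain ⟨f1, f2⟩ := finite_of_le (G := G) hUH hle
  refine IsVirt.mul ?_ (thet_virt _ H hUH f2 rfl)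
  obtain ⟨a, b, h1, h2, rfl⟩ := hf
  refine ⟨_, _, h1.res hle, h2.res hle, ?_⟩
  funext h
  unfold ext0
  rw [dif_pos (hle h.2)]
  rfl

end Pool.Agent.Q317.ST
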