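import Pool.Agent.Q317.ST.Sys
import Pool.Agent.Q317.ST.Artin

/-!
# Elements of finite quotients of the Galois group that generate a complex conjugation
-/

set_option autoImplicit false

namespace Pool.Agent.Q317.ST

open scoped Classical
open IntermediateField Polynomial

attribute [-instance] DivisionRing.toRatAlgebra

variable {Ω : Type} [Field Ω] [Algebra ℚ Ω] [hΩ : IsAlgClosure ℚ Ω]

include hΩ in
theorem normalΩ : Normal ℚ Ω := IsAlgClosure.normal ℚ Ω

theorem ringHom_comp (φ : Ω →+* ℂ) (ι : Ω →+* ℂ) :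
    φ.comp (algebraMap ℚ Ω) = ι.comp (algebraMap ℚ Ω) := Subsingleton.elim _ _

include hΩ in
/-- two embeddings in the complex numbers differ by an automorphism -/
theorem exists_aut (ι φ : Ω →+* ℂ) : ∃ s : Ω ≃ₐ[ℚ] Ω, ∀ x, ι (s x) = φ x := by
  let i1 : Algebra ℚ ℂ := (ι.comp (algebraMap ℚ Ω)).toAlgebra
  let i2 : Algebra Ω ℂ := ι.toAlgebra
  have i3 : IsScalarTower ℚ Ω ℂ := IsScalarTower.of_algebraMap_eq fun _ => rfl
  have i4 := normalΩ (Ω := Ω)
  let φ' : Ω →ₐ[ℚ] ℂ := { φ with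
    commutes' := fun q => congrArg (fun f : ℚ →+* ℂ => f q) (ringHom_comp φ ι) }
  refine ⟨AlgHom.restrictNormal' φ' Ω, fun x => ?_⟩
  exact AlgHom.restrictNormal_commutes φ' Ω x

include hΩ in
/-- the complex conjugation attached to an embedding -/
theorem exists_conj (ι : Ω →+* ℂ) : ∃ c : Ω ≃ₐ[ℚ] Ω, ∀ x, ι (c x) = starRingEnd ℂ (ι x) :=
  exists_aut ι ((starRingEnd ℂ).comp ι)

include hΩ in
theorem exists_emb : Nonempty (Ω →+* ℂ) := by
  let i1 : Algebra ℚ ℂ := DivisionRing.toRatAlgebra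
  have := hΩ.isAlgebraic
  exact ⟨(IsAlgClosed.lift : Ω →ₐ[ℚ] ℂ).toRingHom⟩

set_option synthInstance.maxHeartbeats 400000 in
include hΩ in
/-- extension of a real embedding of a subfield -/
theorem exists_ext (ι : Ω →+* ℂ) (F : IntermediateField ℚ Ω) (τ : F →+* ℝ) :
    ∃ s : Ω ≃ₐ[ℚ] Ω, ∀ x (hx : x ∈ F), ι (s x) = τ ⟨x, hx⟩ := by
  let i1 : Algebra F ℂ := (Complex.ofRealHom.comp τ).toAlgebra
  have i2 := isAlg F
  let φ : Ω →ₐ[F] ℂ := IsAlgClosed.lift
  obtain ⟨s, hs⟩ := exists_aut ι φ.toRingHom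
  refine ⟨s, fun x hx => ?_⟩
  rw [hs x]
  exact φ.commutes ⟨x, hx⟩

section real

variable {ι : Ω →+* ℂ} {c : Ω ≃ₐ[ℚ] Ω} (hc : ∀ x, ι (c x) = starRingEnd ℂ (ι x))

include hc

theorem real_iff (x : Ω) : c x = x ↔ ∃ r : ℝ, ι x = r := by
  rw [← Complex.conj_eq_iff_real, ← hc]
  exact ι.injective.eq_iff.symm

theorem c_sq (x : Ω) : c (c x) = x := by
  apply ι.injective
  rw [hc, hc, Complex.conj_conj]

theorem real_sqrt_pos {r : ℝ} (hr : 0 < r) {y : Ω} (hy : ι y ^ 2 = r) : c y = y := by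
  rw [real_iff hc]
  have h1 : (ι y - (Real.sqrt r : ℂ)) * (ι y + (Real.sqrt r : ℂ)) = 0 := by
    have h2 : (Real.sqrt r : ℂ) ^ 2 = r := by
      rw [← Complex.ofReal_pow, Real.sq_sqrt hr.le]
    linear_combination hy - h2
  rcases mul_eq_zero.1 h1 with h | h
  · exact ⟨Real.sqrt r, sub_eq_zero.1 h⟩
  · refine ⟨-Real.sqrt r, ?_⟩
    rw [Complex.ofReal_neg]
    exact eq_neg_of_add_eq_zero_left h

include hΩ in
theorem exists_sqrt {x : Ω} (hx : c x = x) (h0 : x ≠ 0) :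
    ∃ y : Ω, c y = y ∧ y ≠ 0 ∧ (y ^ 2 = x ∨ y ^ 2 = -x) := by
  have hcl : IsAlgClosed Ω := hΩ.isAlgClosed
  obtain ⟨r, hr⟩ := (real_iff hc x).1 hx
  have hr0 : r ≠ 0 := by
    rintro rfl
    rw [Complex.ofReal_zero] at hr
    exact h0 (ι.injective (hr.trans (map_zero ι).symm))
  rcases lt_or_gt_of_ne hr0 with h | h
  · obtain ⟨y, hy⟩ := IsAlgClosed.exists_pow_nat_eq (-x) (n := 2) (by norm_num)
    refine ⟨y, ?_, ?_, Or.inr hy⟩
    · refine real_sqrt_pos hc (neg_pos.2 h) ?_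
      rw [← map_pow, hy, map_neg, hr, Complex.ofReal_neg]
    · rintro rfl
      rw [zero_pow two_ne_zero] at hy
      exact h0 (neg_eq_zero.1 hy.symm)
  · obtain ⟨y, hy⟩ := IsAlgClosed.exists_pow_nat_eq x (n := 2) (by norm_num)
    refine ⟨y, ?_, ?_, Or.inl hy⟩
    · refine real_sqrt_pos hc h ?_
      rw [← map_pow, hy, hr]
    · rintro rfl
      rw [zero_pow two_ne_zero] at hy
      exact h0 hy.symm

theorem sum_sq {m : ℕ} (y : ℕ → Ω) (hy : ∀ j, c (y j) = y j)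
    (h : ∑ j ∈ Finset.range m, y j ^ 2 = 0) : ∀ j < m, y j = 0 := by
  choose r hr using fun j => (real_iff hc (y j)).1 (hy j)
  have h1 : ∑ j ∈ Finset.range m, r j ^ 2 = 0 := by
    have h2 := congrArg ι h
    rw [map_sum, map_zero] at h2
    simp only [map_pow, hr] at h2
    exact_mod_cast h2
  intro j hj
  have h3 := (Finset.sum_eq_zero_iff_of_nonneg (fun j _ => sq_nonneg (r j))).1 h1 j
    (Finset.mem_range.2 hj)
  have h4 : r j = 0 := pow_eq_zero_iff two_ne_zero |>.1 h3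
  apply ι.injective
  rw [hr j, h4, Complex.ofReal_zero, map_zero]

end real

omit hΩ in
theorem map_mem {L : IntermediateField ℚ Ω} (hn : (GG L).Normal) [IsGalois ℚ Ω]
    (g : Ω ≃ₐ[ℚ] Ω) {x : Ω} (hx : x ∈ L) : g x ∈ L := by
  rw [← InfiniteGalois.fixedField_fixingSubgroup L, IntermediateField.mem_fixedField_iff]
  intro u hu
  have h1 : g⁻¹ * u * g ∈ GG L := by
    have := hn.conj_mem u hu g⁻¹
    rwa [inv_inv] at this
  have h2 : (g⁻¹ * u * g) x = x := (IntermediateField.mem_fixingSubgroup_iff _ _).1 h1 x hx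
  have h3 : g ((g⁻¹ * u * g) x) = u (g x) := by
    rw [← AlgEquiv.mul_apply, ← mul_assoc, ← mul_assoc, mul_inv_cancel, one_mul]
    rfl
  rw [h2] at h3
  exact h3.symm

/-- **Artin–Schreier at finite level.** -/
theorem pattern {ι : Ω →+* ℂ} {c : Ω ≃ₐ[ℚ] Ω} (hc : ∀ x, ι (c x) = starRingEnd ℂ (ι x))
    (L : IntermediateField ℚ Ω) [FiniteDimensional ℚ L] [Normal ℚ L] :
    ∃ M : IntermediateField ℚ Ω, FiniteDimensional ℚ M ∧ L ≤ M ∧
      ∀ L' : IntermediateField ℚ Ω, FiniteDimensional ℚ L' → Normal ℚ L' → M ≤ L' →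
        ∀ (g : Ω ≃ₐ[ℚ] Ω) (k : ℤ) (u : Ω ≃ₐ[ℚ] Ω), u ∈ GG L' → g ^ k * u = c →
          ∀ x ∈ L, g x = c x := by
  have hnΩ := normalΩ (Ω := Ω)
  have hG : IsGalois ℚ Ω := ⟨⟩
  have hGL : IsGalois ℚ L := ⟨⟩
  have hAlg := hΩ.isAlgebraic
  have hfi : (GG L).FiniteIndex := ⟨by
    rw [← IntermediateField.finrank_eq_fixingSubgroup_index]
    exact Module.finrank_pos.ne'⟩
  have hfin : Finite ((Ω ≃ₐ[ℚ] Ω) ⧸ GG L) := inferInstance
  -- the square roots
  have hex : ∀ q : (Ω ≃ₐ[ℚ] Ω) ⧸ GG L, ∃ y : Ω,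
      (∃ θ ∈ L, c θ = θ ∧ c (q.out θ) = q.out θ ∧ q.out θ ≠ θ) →
      ∃ θ ∈ L, c y = y ∧ y ≠ 0 ∧ (y ^ 2 = q.out θ - θ ∨ y ^ 2 = -(q.out θ - θ)) := by
    intro q
    by_cases h : ∃ θ ∈ L, c θ = θ ∧ c (q.out θ) = q.out θ ∧ q.out θ ≠ θ
    · obtain ⟨θ, h1, h2, h3, h4⟩ := h
      obtain ⟨y, hy1, hy2, hy3⟩ := exists_sqrt hc (x := q.out θ - θ)
        (by rw [map_sub, h3, h2]) (sub_ne_zero.2 h4)
      exact ⟨y, fun _ => ⟨θ, h1, hy1, hy2, hy3⟩⟩
    · exact ⟨0, fun h' => absurd h' h⟩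
  choose y hy using hex
  have hfd : FiniteDimensional ℚ (adjoin ℚ (Set.range y)) :=
    finiteDimensional_adjoin fun x _ => (hAlg.isAlgebraic x).isIntegral
  refine ⟨L ⊔ adjoin ℚ (Set.range y), inferInstance, le_sup_left, ?_⟩
  intro L' hf' hn' hM g k u hu hgk
  have hGL' : IsGalois ℚ L' := ⟨⟩
  have hN' : (GG L').Normal := IsGalois.fixingSubgroup_normal_of_isGalois L'
  have hN : (GG L).Normal := IsGalois.fixingSubgroup_normal_of_isGalois L
  have hLL' : L ≤ L' := le_sup_left.trans hM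
  have hyL' : ∀ q, y q ∈ L' := fun q => hM ((le_sup_right : adjoin ℚ (Set.range y) ≤ _)
    (subset_adjoin ℚ _ ⟨q, rfl⟩))
  have e1 : ∀ x ∈ L', c x = (g ^ k) x := by
    intro x hx
    rw [← hgk, AlgEquiv.mul_apply, (IntermediateField.mem_fixingSubgroup_iff _ _).1 hu x hx]
  have e2 : ∀ x ∈ L', c (g x) = g (c x) := by
    intro x hx
    rw [e1 _ (map_mem hN' g hx), e1 x hx, ← AlgEquiv.mul_apply, ← AlgEquiv.mul_apply]
    congr 1
    exact ((Commute.refl g).zpow_left k)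
  -- the real elements of `L` are fixed
  have e3 : ∀ θ ∈ L, c θ = θ → g θ = θ := by
    intro θ hθ hcθ
    by_contra hne
    set q : (Ω ≃ₐ[ℚ] Ω) ⧸ GG L := QuotientGroup.mk g with hq
    obtain ⟨v, hv⟩ := QuotientGroup.mk_out_eq_mul (GG L) g
    rw [← hq] at hv
    have hout : ∀ z ∈ L, q.out z = g z := by
      intro z hz
      rw [hv, AlgEquiv.mul_apply, (IntermediateField.mem_fixingSubgroup_iff _ _).1 v.2 z hz]
    obtain ⟨t, ht, hy1, hy2, hy3⟩ := hy q ⟨θ, hθ, hcθ, by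
      rw [hout θ hθ, e2 θ (hLL' hθ), hcθ], by rw [hout θ hθ]; exact hne⟩
    rw [hout t ht] at hy3
    have hidx : (GG L').index ≠ 0 := by
      rw [← IntermediateField.finrank_eq_fixingSubgroup_index]
      exact Module.finrank_pos.ne'
    obtain ⟨m, hm0, -, hm⟩ := Subgroup.exists_pow_mem_of_index_ne_zero hidx g
    have hyj : ∀ j : ℕ, (g ^ j) (y q) ∈ L' ∧ c ((g ^ j) (y q)) = (g ^ j) (y q) := by
      intro j
      induction j with
      | zero => exact ⟨hyL' q, hy1⟩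
      | succ j ih =>
        rw [pow_succ', AlgEquiv.mul_apply]
        exact ⟨map_mem hN' g ih.1, by rw [e2 _ ih.1, ih.2]⟩
    have hsum : ∑ j ∈ Finset.range m, ((g ^ j) (y q)) ^ 2 = 0 := by
      have h1 : ∑ j ∈ Finset.range m, ((g ^ (j + 1)) t - (g ^ j) t) = 0 := by
        rw [Finset.sum_range_sub fun j => (g ^ j) t,
          (IntermediateField.mem_fixingSubgroup_iff _ _).1 hm t (hLL' ht), pow_zero]
        exact sub_self t
      rcases hy3 with h | h
      · rw [← h1]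
        refine Finset.sum_congr rfl fun j _ => ?_
        rw [← map_pow, h, map_sub, pow_succ, AlgEquiv.mul_apply]
      · rw [← neg_eq_zero, ← h1, ← Finset.sum_neg_distrib]
        refine Finset.sum_congr rfl fun j _ => ?_
        rw [← map_pow, h, map_neg, neg_neg, map_sub, pow_succ, AlgEquiv.mul_apply]
    have := sum_sq hc (fun j => (g ^ j) (y q)) (fun j => (hyj j).2) hsum 0 hm0
    exact hy2 this
  -- conclusion
  have e4 : ∀ x ∈ L, g x = x ∨ g x = c x := by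
    intro x hx
    have hcx : c x ∈ L := map_mem hN c hx
    have h1 : g (x + c x) = x + c x := e3 _ (L.add_mem hx hcx) (by
      rw [map_add, c_sq hc, add_comm])
    have h2 : g (x * c x) = x * c x := e3 _ (L.mul_mem hx hcx) (by
      rw [map_mul, c_sq hc, mul_comm])
    rw [map_add] at h1
    rw [map_mul] at h2
    have h3 : (g x - x) * (g x - c x) = 0 := by
      linear_combination (g x) * h1 - h2
    rcases mul_eq_zero.1 h3 with h | h
    · exact Or.inl (sub_eq_zero.1 h)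
    · exact Or.inr (sub_eq_zero.1 h)
  intro x hx
  by_contra hne
  have hx1 : g x = x := (e4 x hx).resolve_right hne
  have hid : ∀ z ∈ L, g z = z := by
    intro z hz
    by_contra hz1
    have hz2 : g z = c z := (e4 z hz).resolve_left hz1
    rcases e4 (x + z) (L.add_mem hx hz) with h | h
    · rw [map_add, hx1] at h
      exact hz1 (add_left_cancel h)
    · rw [map_add, map_add, hz2] at h
      exact hne (add_right_cancel h)
  apply hne
  have hg : g ∈ GG L := (IntermediateField.mem_fixingSubgroup_iff _ _).2 hid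
  have hgk' : g ^ k ∈ GG L := (GG L).zpow_mem hg k
  rw [hx1, e1 x (hLL' hx), (IntermediateField.mem_fixingSubgroup_iff _ _).1 hgk' x hx]

end Pool.Agent.Q317.ST
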