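import Pool.Agent.Q317.ST.TC

/-!
# A solvable version of the Artin–Schreier argument
-/

set_option autoImplicit false

namespace Pool.Agent.Q317.ST

open scoped Classical
open IntermediateField Polynomial

attribute [-instance] DivisionRing.toRatAlgebra

variable {Ω : Type} [Field Ω] [Algebra ℚ Ω] [hΩ : IsAlgClosure ℚ Ω]

/-- adjoining all conjugates of square roots of elements of a normal field -/
theorem exists_sq_ext (L : IntermediateField ℚ Ω) [FiniteDimensional ℚ L] [Normal ℚ L] {J : Type}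
    [Finite J] (w : J → Ω) (hw : ∀ j, w j ^ 2 ∈ L) : ∃ L' : IntermediateField ℚ Ω,
      FiniteDimensional ℚ L' ∧ Normal ℚ L' ∧ L ≤ L' ∧ (∀ j, w j ∈ L') ∧
      ∀ g ∈ GG L, ∀ h ∈ GG L, g * h * g⁻¹ * h⁻¹ ∈ GG L' := by
  have hnΩ := normalΩ (Ω := Ω)
  have hG : IsGalois ℚ Ω := ⟨⟩
  have hGL : IsGalois ℚ L := ⟨⟩
  have hAlg := hΩ.isAlgebraic
  have hN : (GG L).Normal := IsGalois.fixingSubgroup_normal_of_isGalois L
  have hfd : FiniteDimensional ℚ (adjoin ℚ (Set.range w)) :=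
    finiteDimensional_adjoin fun x _ => (hAlg.isAlgebraic x).isIntegral
  obtain ⟨B, hB1, hB2, hB3⟩ := StarkNumbers.exists_normal (L ⊔ adjoin ℚ (Set.range w))
  have hGB : IsGalois ℚ B := ⟨⟩
  have hNB : (GG B).Normal := IsGalois.fixingSubgroup_normal_of_isGalois B
  let T : Set Ω := {v | ∃ (s : Ω ≃ₐ[ℚ] Ω) (j : J), v = s (w j)}
  have hTB : L ⊔ adjoin ℚ T ≤ B := by
    refine sup_le (le_sup_left.trans hB1) (adjoin_le_iff.2 ?_)
    rintro v ⟨s, j, rfl⟩
    exact map_mem hNB s (hB1 ((le_sup_right : adjoin ℚ (Set.range w) ≤ _)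
      (subset_adjoin ℚ _ ⟨j, rfl⟩)))
  have hfin : FiniteDimensional ℚ ↥(L ⊔ adjoin ℚ T) := FiniteDimensional.of_injective
    (inclusion hTB).toLinearMap (inclusion_injective hTB)
  refine ⟨L ⊔ adjoin ℚ T, hfin, ?_, le_sup_left, ?_, ?_⟩
  · rw [IntermediateField.normal_iff_forall_map_le']
    intro s
    rw [IntermediateField.map_sup, IntermediateField.adjoin_map]
    refine sup_le ?_ ?_
    · rintro _ ⟨v, hv, rfl⟩
      exact (le_sup_left : L ≤ L ⊔ adjoin ℚ T) (map_mem hN s hv)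
    · rw [adjoin_le_iff]
      rintro _ ⟨_, ⟨t, j, rfl⟩, rfl⟩
      exact (le_sup_right : adjoin ℚ T ≤ L ⊔ adjoin ℚ T)
        (subset_adjoin ℚ _ ⟨s * t, j, rfl⟩)
  · intro j
    exact (le_sup_right : adjoin ℚ T ≤ L ⊔ adjoin ℚ T) (subset_adjoin ℚ _ ⟨1, j, rfl⟩)
  · intro g hg h hh
    have hsgn : ∀ g ∈ GG L, ∀ v ∈ T, g v = v ∨ g v = -v := by
      rintro g hg v ⟨s, j, rfl⟩
      have h1 : (s (w j)) ^ 2 ∈ L := by
        rw [← map_pow]
        exact map_mem hN s (hw j)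
      have h2 : (g (s (w j))) ^ 2 = (s (w j)) ^ 2 := by
        rw [← map_pow, (IntermediateField.mem_fixingSubgroup_iff _ _).1 hg _ h1]
      have h3 : (g (s (w j)) - s (w j)) * (g (s (w j)) + s (w j)) = 0 := by
        linear_combination h2
      rcases mul_eq_zero.1 h3 with h4 | h4
      · exact Or.inl (sub_eq_zero.1 h4)
      · exact Or.inr (eq_neg_of_add_eq_zero_left h4)
    have hcomm : ∀ v ∈ T, (g * h * g⁻¹ * h⁻¹) v = v := by
      intro v hv
      have hgi := hsgn g⁻¹ ((GG L).inv_mem hg) v hv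
      have hhi := hsgn h⁻¹ ((GG L).inv_mem hh) v hv
      have hg' := hsgn g hg v hv
      have hh' := hsgn h hh v hv
      have i1 : g (g⁻¹ v) = v := by rw [← AlgEquiv.mul_apply, mul_inv_cancel]; rfl
      have i2 : h (h⁻¹ v) = v := by rw [← AlgEquiv.mul_apply, mul_inv_cancel]; rfl
      simp only [AlgEquiv.mul_apply]
      rcases hg' with a1 | a1 <;> rcases hh' with a2 | a2 <;> rcases hgi with a3 | a3 <;>
        rcases hhi with a4 | a4 <;> simp_all
    have hfix : L ⊔ adjoin ℚ T ≤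
        IntermediateField.fixedField (Subgroup.zpowers (g * h * g⁻¹ * h⁻¹)) := by
      have hmem : ∀ v : Ω, (g * h * g⁻¹ * h⁻¹) v = v →
          v ∈ IntermediateField.fixedField (Subgroup.zpowers (g * h * g⁻¹ * h⁻¹)) := by
        intro v hv
        rw [IntermediateField.mem_fixedField_iff]
        rintro _ ⟨m, rfl⟩
        have h4 : (g * h * g⁻¹ * h⁻¹) ∈ MulAction.stabilizer (Ω ≃ₐ[ℚ] Ω) v := hv
        exact Subgroup.zpow_mem _ h4 m
      refine sup_le ?_ (adjoin_le_iff.2 fun v hv => hmem v (hcomm v hv))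
      intro v hv
      apply hmem
      have h5 : g * h * g⁻¹ * h⁻¹ ∈ GG L := (GG L).mul_mem ((GG L).mul_mem
        ((GG L).mul_mem hg hh) ((GG L).inv_mem hg)) ((GG L).inv_mem hh)
      exact (IntermediateField.mem_fixingSubgroup_iff _ _).1 h5 v hv
    rw [IntermediateField.le_iff_le] at hfix
    exact hfix (Subgroup.mem_zpowers _)

/-- **Artin–Schreier at finite level**, with control of the extension. -/
theorem pattern2 {ι : Ω →+* ℂ} {c : Ω ≃ₐ[ℚ] Ω} (hc : ∀ x, ι (c x) = starRingEnd ℂ (ι x))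
    (L : IntermediateField ℚ Ω) [FiniteDimensional ℚ L] [Normal ℚ L] {J : Type} [Finite J]
    (a : J → ℚ) : ∃ L' : IntermediateField ℚ Ω, FiniteDimensional ℚ L' ∧ Normal ℚ L' ∧ L ≤ L' ∧
      (∀ g ∈ GG L, ∀ h ∈ GG L, g * h * g⁻¹ * h⁻¹ ∈ GG L') ∧
      (∀ j, ∃ x ∈ L', x ^ 2 = algebraMap ℚ Ω (a j)) ∧
        ∀ (g : Ω ≃ₐ[ℚ] Ω) (k : ℤ) (u : Ω ≃ₐ[ℚ] Ω), u ∈ GG L' → g ^ k * u = c →
          ∀ x ∈ L, g x = c x := by
  have hnΩ := normalΩ (Ω := Ω)
  have hG : IsGalois ℚ Ω := ⟨⟩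
  have hcl : IsAlgClosed Ω := hΩ.isAlgClosed
  have hGL : IsGalois ℚ L := ⟨⟩
  have hAlg := hΩ.isAlgebraic
  have hN : (GG L).Normal := IsGalois.fixingSubgroup_normal_of_isGalois L
  have hfi : (GG L).FiniteIndex := ⟨by
    rw [← IntermediateField.finrank_eq_fixingSubgroup_index]
    exact Module.finrank_pos.ne'⟩
  have hfin : Finite ((Ω ≃ₐ[ℚ] Ω) ⧸ GG L) := inferInstance
  have hex : ∀ q : (Ω ≃ₐ[ℚ] Ω) ⧸ GG L, ∃ y : Ω, y ^ 2 ∈ L ∧
      ((∃ θ ∈ L, c θ = θ ∧ c (q.out θ) = q.out θ ∧ q.out θ ≠ θ) →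
      ∃ θ ∈ L, c y = y ∧ y ≠ 0 ∧ (y ^ 2 = q.out θ - θ ∨ y ^ 2 = -(q.out θ - θ))) := by
    intro q
    by_cases h : ∃ θ ∈ L, c θ = θ ∧ c (q.out θ) = q.out θ ∧ q.out θ ≠ θ
    · obtain ⟨θ, h1, h2, h3, h4⟩ := h
      obtain ⟨y, hy1, hy2, hy3⟩ := exists_sqrt hc (x := q.out θ - θ)
        (by rw [map_sub, h3, h2]) (sub_ne_zero.2 h4)
      refine ⟨y, ?_, fun _ => ⟨θ, h1, hy1, hy2, hy3⟩⟩
      have h5 : q.out θ - θ ∈ L := L.sub_mem (map_mem hN _ h1) h1
      rcases hy3 with h6 | h6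
      · rw [h6]; exact h5
      · rw [h6]; exact L.neg_mem h5
    · refine ⟨0, ?_, fun h' => absurd h' h⟩
      rw [zero_pow two_ne_zero]
      exact L.zero_mem
  choose y hyL hy using hex
  choose x hx using fun j => IsAlgClosed.exists_pow_nat_eq (algebraMap ℚ Ω (a j)) (n := 2)
    (by norm_num)
  obtain ⟨L', hf', hn', hLL', hw, hcomm⟩ := exists_sq_ext L (Sum.elim y x) (by
    rintro (q | j)
    · exact hyL q
    · change x j ^ 2 ∈ L
      rw [hx j]
      exact L.algebraMap_mem _)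
  refine ⟨L', hf', hn', hLL', hcomm, fun j => ⟨x j, hw (Sum.inr j), hx j⟩, ?_⟩
  intro g k u hu hgk
  have hGL' : IsGalois ℚ L' := ⟨⟩
  have hN' : (GG L').Normal := IsGalois.fixingSubgroup_normal_of_isGalois L'
  have hyL' : ∀ q, y q ∈ L' := fun q => hw (Sum.inl q)
  have e1 : ∀ x ∈ L', c x = (g ^ k) x := by
    intro x hx
    rw [← hgk, AlgEquiv.mul_apply, (IntermediateField.mem_fixingSubgroup_iff _ _).1 hu x hx]
  have e2 : ∀ x ∈ L', c (g x) = g (c x) := by
    intro x hx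
    rw [e1 _ (map_mem hN' g hx), e1 x hx, ← AlgEquiv.mul_apply, ← AlgEquiv.mul_apply]
    congr 1
    exact ((Commute.refl g).zpow_left k)
  have e3 : ∀ θ ∈ L, c θ = θ → g θ = θ := by
    intro θ hθ hcθ
    by_contra hne
    set q : (Ω ≃ₐ[ℚ] Ω) ⧸ GG L := QuotientGroup.mk g with hq
    obtain ⟨v, hv⟩ := QuotientGroup.mk_out_eq_mul (GG L) g
    rw [← hq] at hv
    have hout : ∀ z ∈ L, q.out z = g z := by
      intro z hz
      rw [hv, AlgEquiv.mul_apply, (IntermediateField.mem_fixingSubgroup_iff _ _).1 v.2 z hz]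
    obtain ⟨t, ht, hy1, hy2, hy3⟩ := hy q ⟨θ, hθ, hcθ, by
      rw [hout θ hθ, e2 θ (hLL' hθ), hcθ], by rw [hout θ hθ]; exact hne⟩
    rw [hout t ht] at hy3
    have hidx : (GG L').index ≠ 0 := by
      rw [← IntermediateField.finrank_eq_fixingSubgroup_index]
      exact Module.finrank_pos.ne'
    obtain ⟨m, hm0, -, hm⟩ := Subgroup.exists_pow_mem_of_index_ne_zero hidx g
    have hyj : ∀ j : ℕ, (g ^ j) (y q) ∈ L' ∧ c ((g ^ j) (y q)) = (g ^ j) (y q) := by
      intro j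
      induction j with
      | zero => exact ⟨hyL' q, hy1⟩
      | succ j ih =>
        rw [pow_succ', AlgEquiv.mul_apply]
        exact ⟨map_mem hN' g ih.1, by rw [e2 _ ih.1, ih.2]⟩
    have hsum : ∑ j ∈ Finset.range m, ((g ^ j) (y q)) ^ 2 = 0 := by
      have h1 : ∑ j ∈ Finset.range m, ((g ^ (j + 1)) t - (g ^ j) t) = 0 := by
        rw [Finset.sum_range_sub fun j => (g ^ j) t,
          (IntermediateField.mem_fixingSubgroup_iff _ _).1 hm t (hLL' ht), pow_zero]
        exact sub_self t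
      rcases hy3 with h | h
      · rw [← h1]
        refine Finset.sum_congr rfl fun j _ => ?_
        rw [← map_pow, h, map_sub, pow_succ, AlgEquiv.mul_apply]
      · rw [← neg_eq_zero, ← h1, ← Finset.sum_neg_distrib]
        refine Finset.sum_congr rfl fun j _ => ?_
        rw [← map_pow, h, map_neg, neg_neg, map_sub, pow_succ, AlgEquiv.mul_apply]
    have := sum_sq hc (fun j => (g ^ j) (y q)) (fun j => (hyj j).2) hsum 0 hm0
    exact hy2 this
  have e4 : ∀ x ∈ L, g x = x ∨ g x = c x := by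
    intro x hx
    have hcx : c x ∈ L := map_mem hN c hx
    have h1 : g (x + c x) = x + c x := e3 _ (L.add_mem hx hcx) (by
      rw [map_add, c_sq hc, add_comm])
    have h2 : g (x * c x) = x * c x := e3 _ (L.mul_mem hx hcx) (by
      rw [map_mul, c_sq hc, mul_comm])
    rw [map_add] at h1
    rw [map_mul] at h2
    have h3 : (g x - x) * (g x - c x) = 0 := by
      linear_combination (g x) * h1 - h2
    rcases mul_eq_zero.1 h3 with h | h
    · exact Or.inl (sub_eq_zero.1 h)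
    · exact Or.inr (sub_eq_zero.1 h)
  intro x hx
  by_contra hne
  have hx1 : g x = x := (e4 x hx).resolve_right hne
  have hid : ∀ z ∈ L, g z = z := by
    intro z hz
    by_contra hz1
    have hz2 : g z = c z := (e4 z hz).resolve_left hz1
    rcases e4 (x + z) (L.add_mem hx hz) with h | h
    · rw [map_add, hx1] at h
      exact hz1 (add_left_cancel h)
    · rw [map_add, map_add, hz2] at h
      exact hne (add_right_cancel h)
  apply hne
  have hg : g ∈ GG L := (IntermediateField.mem_fixingSubgroup_iff _ _).2 hid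
  have hgk' : g ^ k ∈ GG L := (GG L).zpow_mem hg k
  rw [hx1, e1 x (hLL' hx), (IntermediateField.mem_fixingSubgroup_iff _ _).1 hgk' x hx]

end Pool.Agent.Q317.ST
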