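import Mathlib

/-!
# Embeddings of cyclotomic and pure fields
-/

set_option autoImplicit false

namespace Pool.Agent.Q317.ST

open IntermediateField Polynomial

/-- the only `ℓ`-th root of unity in `F` is `1` -/
def OnlyOne (F : Type) [Field F] (ℓ : ℕ) : Prop := ∀ x : F, x ^ ℓ = 1 → x = 1

theorem onlyOne_real {ℓ : ℕ} (h : Odd ℓ) : OnlyOne ℝ ℓ := by
  intro x hx
  exact h.strictMono_pow.injective (by simpa using hx)

theorem onlyOne_padic {p ℓ : ℕ} [hp : Fact p.Prime] (hℓ : ℓ.Prime) (hlt : p < ℓ) :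
    OnlyOne ℚ_[p] ℓ := by
  intro x hx
  have h1 : ‖x‖ = 1 := by
    have h2 : ‖x‖ ^ ℓ = 1 := by rw [← norm_pow, hx, norm_one]
    exact (pow_eq_one_iff_of_nonneg (norm_nonneg x) hℓ.ne_zero).1 h2
  let y : ℤ_[p] := ⟨x, h1.le⟩
  have hy : y ^ ℓ = 1 := Subtype.ext hx
  suffices h : y = 1 from congrArg Subtype.val h
  by_contra hne
  have h3 : PadicInt.toZMod y ^ ℓ = 1 := by rw [← map_pow, hy, map_one]
  have h4 : PadicInt.toZMod y ≠ 0 := by
    intro h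
    rw [h, zero_pow hℓ.ne_zero] at h3
    exact zero_ne_one h3
  have h5 : PadicInt.toZMod y ^ (p - 1) = 1 := ZMod.pow_card_sub_one_eq_one h4
  have h6 : PadicInt.toZMod y = 1 := by
    have h7 : orderOf (PadicInt.toZMod y) ∣ Nat.gcd ℓ (p - 1) :=
      Nat.dvd_gcd (orderOf_dvd_of_pow_eq_one h3) (orderOf_dvd_of_pow_eq_one h5)
    have h8 : Nat.gcd ℓ (p - 1) = 1 := by
      apply (Nat.Prime.coprime_iff_not_dvd hℓ).2
      intro h
      have := Nat.le_of_dvd (by have := hp.out.two_le; omega) h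
      omega
    rw [h8, Nat.dvd_one, orderOf_eq_one_iff] at h7
    exact h7
  have h9 : (∑ i ∈ Finset.range ℓ, y ^ i) * (y - 1) = 0 := by
    rw [geom_sum_mul, hy, sub_self]
  have h10 : ∑ i ∈ Finset.range ℓ, y ^ i = 0 := by
    rcases mul_eq_zero.1 h9 with h | h
    · exact h
    · exact absurd (sub_eq_zero.1 h) hne
  have h11 : PadicInt.toZMod (∑ i ∈ Finset.range ℓ, y ^ i) = (ℓ : ZMod p) := by
    rw [map_sum]
    simp [h6]
  rw [h10, map_zero] at h11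
  have h12 : p ∣ ℓ := (ZMod.natCast_eq_zero_iff _ _).1 h11.symm
  have h13 := (Nat.prime_dvd_prime_iff_eq hp.out hℓ).1 h12
  omega

section

attribute [-instance] DivisionRing.toRatAlgebra

variable {Ω : Type} [Field Ω] [Algebra ℚ Ω]

theorem hom_ext {α : Ω} {F : Type} [Field F] (f g : ℚ⟮α⟯ →+* F)
    (h : f (AdjoinSimple.gen ℚ α) = g (AdjoinSimple.gen ℚ α)) : f = g := by
  have : CharZero F := charZero_of_injective_ringHom f.injective
  let i : Algebra ℚ F := DivisionRing.toRatAlgebra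
  have h1 : ∀ (f : ℚ⟮α⟯ →+* F) (q : ℚ), f (algebraMap ℚ ℚ⟮α⟯ q) = algebraMap ℚ F q := by
    intro f q
    have := Subsingleton.elim (f.comp (algebraMap ℚ ℚ⟮α⟯)) (algebraMap ℚ F)
    exact congrArg (fun k : ℚ →+* F => k q) this
  let f' : ℚ⟮α⟯ →ₐ[ℚ] F := { f with commutes' := h1 f }
  let g' : ℚ⟮α⟯ →ₐ[ℚ] F := { g with commutes' := h1 g }
  have h2 : f' = g' := by
    apply IntermediateField.algHom_ext_of_eq_adjoin ℚ rfl
    intro x hx
    rw [Set.mem_singleton_iff] at hx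
    subst hx
    exact h
  ext x
  exact congrArg (fun k : ℚ⟮α⟯ →ₐ[ℚ] F => k x) h2

theorem subsingleton_hom {α : Ω} {F : Type} [Field F] {ℓ : ℕ} (hF : OnlyOne F ℓ) {a : ℚ}
    (ha : a ≠ 0) (hα : α ^ ℓ = algebraMap ℚ Ω a) : Subsingleton (ℚ⟮α⟯ →+* F) := by
  refine ⟨fun f g => hom_ext f g ?_⟩
  have hg : AdjoinSimple.gen ℚ α ^ ℓ = algebraMap ℚ ℚ⟮α⟯ a := by
    apply Subtype.ext
    exact hα
  have key : f (algebraMap ℚ ℚ⟮α⟯ a) = g (algebraMap ℚ ℚ⟮α⟯ a) :=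
    congrArg (fun k : ℚ →+* F => k a)
      (Subsingleton.elim (f.comp (algebraMap ℚ ℚ⟮α⟯)) (g.comp (algebraMap ℚ ℚ⟮α⟯)))
  have hne : g (algebraMap ℚ ℚ⟮α⟯ a) ≠ 0 := by
    intro h
    exact ha ((algebraMap ℚ ℚ⟮α⟯).injective ((g.injective (h.trans (map_zero g).symm)).trans
      (map_zero _).symm))
  have h1 : (f (AdjoinSimple.gen ℚ α) / g (AdjoinSimple.gen ℚ α)) ^ ℓ = 1 := by
    rw [div_pow, ← map_pow, ← map_pow, hg, key, div_self hne]
  have h2 : g (AdjoinSimple.gen ℚ α) ≠ 0 := by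
    intro h
    apply hne
    rw [← hg, map_pow, h]
    rcases Nat.eq_zero_or_pos ℓ with h0 | h0
    · subst h0
      have := hF 0 (pow_zero 0)
      exact absurd this zero_ne_one
    · exact zero_pow h0.ne'
  exact (div_eq_one_iff_eq h2).1 (hF _ h1)

theorem finrank_pure [IsAlgClosure ℚ Ω] {α : Ω} {ℓ : ℕ} (hℓ : ℓ.Prime) {a : ℚ}
    (hα : α ^ ℓ = algebraMap ℚ Ω a) (ha : ∀ b : ℚ, b ^ ℓ ≠ a) : Module.finrank ℚ ℚ⟮α⟯ = ℓ := by
  have hAlg := (inferInstance : IsAlgClosure ℚ Ω).isAlgebraic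
  rw [IntermediateField.adjoin.finrank (hAlg.isAlgebraic α).isIntegral]
  have h1 : X ^ ℓ - C a = minpoly ℚ α := by
    apply minpoly.eq_of_irreducible_of_monic (X_pow_sub_C_irreducible_of_prime hℓ ha)
    · simp [hα]
    · exact monic_X_pow_sub_C _ hℓ.ne_zero
  rw [← h1, natDegree_X_pow_sub_C]

theorem finrank_cyc [IsAlgClosure ℚ Ω] {ζ : Ω} {ℓ : ℕ} (hℓ : ℓ.Prime) (hζ : IsPrimitiveRoot ζ ℓ) :
    Module.finrank ℚ ℚ⟮ζ⟯ = ℓ - 1 := by
  have hAlg := (inferInstance : IsAlgClosure ℚ Ω).isAlgebraic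
  rw [IntermediateField.adjoin.finrank (hAlg.isAlgebraic ζ).isIntegral]
  have : CharZero Ω := charZero_of_injective_algebraMap (algebraMap ℚ Ω).injective
  have h1 : cyclotomic ℓ ℚ = minpoly ℚ ζ := by
    have h2 := Polynomial.cyclotomic_eq_minpoly_rat hζ hℓ.pos
    have h3 : (inferInstance : Algebra ℚ Ω) = DivisionRing.toRatAlgebra := Subsingleton.elim _ _
    convert h2
  rw [← h1, natDegree_cyclotomic, Nat.totient_prime hℓ]

end

end Pool.Agent.Q317.ST
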