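import Pool.Agent.Q317.ST.TC
import Pool.Agent.Q317.ST.Emb

/-!
# Numbers attached to the characters of abelian extensions
-/

set_option autoImplicit false

namespace Pool.Agent.Q317.ST

open scoped Classical
open IntermediateField Polynomial

attribute [-instance] DivisionRing.toRatAlgebra

variable (Ω : Type) [Field Ω] [Algebra ℚ Ω]

/-- `L` is a finite Galois extension of `K` -/
def GaloisExt {Ω : Type} [Field Ω] [Algebra ℚ Ω] (K L : IntermediateField ℚ Ω) : Prop :=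
  FiniteDimensional ℚ L ∧ K ≤ L ∧ ∀ g ∈ GG K, ∀ u ∈ GG L, g * u * g⁻¹ ∈ GG L

/-- `L` is a finite abelian extension of `K` -/
def AbelianExt {Ω : Type} [Field Ω] [Algebra ℚ Ω] (K L : IntermediateField ℚ Ω) : Prop :=
  FiniteDimensional ℚ L ∧ K ≤ L ∧ ∀ g ∈ GG K, ∀ h ∈ GG K, g * h * g⁻¹ * h⁻¹ ∈ GG L

/-- Numbers `A(χ)` attached to the characters of the Galois groups of number fields, and depending on
auxiliary choices, with the formal properties of Stark's numbers. -/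
structure Numbers where
  /-- the auxiliary choices for the base field `K` -/
  Choice : IntermediateField ℚ Ω → Type
  /-- the field `L` of a choice -/
  top : ∀ {K : IntermediateField ℚ Ω}, Choice K → IntermediateField ℚ Ω
  /-- the number `A(χ)` -/
  A : ∀ {K : IntermediateField ℚ Ω}, Choice K → (GG K → ℂ) → ℂˣ
  /-- `L` is a finite Galois extension of `K` -/
  galois : ∀ {K : IntermediateField ℚ Ω} (κ : Choice K), GaloisExt K (top κ)
  /-- there are choices for each finite Galois extension `L` of `K` -/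
  exists_choice : ∀ K L : IntermediateField ℚ Ω, GaloisExt K L → ∃ κ : Choice K, top κ = L
  /-- `A(χ₁ + χ₂) = A(χ₁) A(χ₂)` -/
  add : ∀ {K : IntermediateField ℚ Ω} (κ : Choice K) (χ₁ χ₂ : GG K → ℂ),
    IsCharOf χ₁ (GG (top κ)) → IsCharOf χ₂ (GG (top κ)) → A κ (χ₁ + χ₂) = A κ χ₁ * A κ χ₂
  /-- A choice for `K` gives a choice for each field `K'` between `K` and `L`, and
  `A(Ind χ) = A(χ)`. -/
  induced : ∀ {K K' : IntermediateField ℚ Ω} (_ : K ≤ K') (κ : Choice K) (_ : K' ≤ top κ),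
    ∃ κ' : Choice K', top κ' = top κ ∧
      ∀ χ : GG K' → ℂ, IsCharOf χ (GG (top κ)) → A κ (ind (GG K) (GG K') χ) = A κ' χ
  /-- `σ(A(χ)) / A(σ ∘ χ)` does not depend on the choice. -/
  indep : ∀ {K : IntermediateField ℚ Ω} (κ κ' : Choice K) (χ : GG K → ℂ) (σ : ℂ ≃+* ℂ),
    IsCharOf χ (GG (top κ)) → IsCharOf χ (GG (top κ')) →
      σ (A κ χ) / A κ (tw σ χ) = σ (A κ' χ) / A κ' (tw σ χ)

namespace Numbers

variable {Ω} (N : Numbers Ω)

/-- The conjecture `σ(A(χ)) = A(σ ∘ χ)` for all finite abelian extensions of the base field `K`. -/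
def AbelianFor (K : IntermediateField ℚ Ω) : Prop :=
  ∀ κ : N.Choice K, AbelianExt K (N.top κ) → ∀ χ : GG K → ℂ, IsCharOf χ (GG (N.top κ)) →
    ∀ σ : ℂ ≃+* ℂ, σ (N.A κ χ) = N.A κ (tw σ χ)

/-- the underlying numbers -/
def toStark [IsAlgClosure ℚ Ω] : StarkNumbers Ω where
  Choice := N.Choice
  top := N.top
  A := N.A
  le_top κ := (N.galois κ).2.1
  finite κ := (N.galois κ).1
  exists_choice K L hKL hf hn := by
    refine N.exists_choice K L ⟨hf, hKL, ?_⟩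
    have hnΩ := normalΩ (Ω := Ω)
    have hG : IsGalois ℚ Ω := ⟨⟩
    have hGL : IsGalois ℚ L := ⟨⟩
    have hN : (GG L).Normal := IsGalois.fixingSubgroup_normal_of_isGalois L
    exact fun g _ u hu => hN.conj_mem u hu g
  add := N.add
  induced := N.induced
  indep := N.indep

variable {N}

theorem AbelianExt.galois {K L : IntermediateField ℚ Ω} (h : AbelianExt K L) :
    GaloisExt K L := by
  refine ⟨h.1, h.2.1, fun g hg u hu => ?_⟩
  have h1 := h.2.2 g hg u (fixingSubgroup_le h.2.1 hu)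
  have h2 := (GG L).mul_mem h1 hu
  rwa [inv_mul_cancel_right] at h2

/-- the assertion over `K'` for a character that is trivial on an abelian extension -/
theorem good_of_abelian [IsAlgClosure ℚ Ω] {K' L : IntermediateField ℚ Ω}
    (hK : N.AbelianFor K') (hL : AbelianExt K' L) (κ : N.Choice K') {χ : GG K' → ℂ}
    (h : IsCharOf χ (GG L)) (h' : IsCharOf χ (GG (N.top κ))) (σ : ℂ ≃+* ℂ) :
    StarkNumbers.Good (N := N.toStark) κ σ χ := by
  obtain ⟨κ', e⟩ := N.exists_choice K' L (AbelianExt.galois hL)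
  have h'' : IsCharOf χ (GG (N.top κ')) := by rw [e]; exact h
  refine StarkNumbers.Good.change (N := N.toStark) (κ' := κ') h' h'' ?_
  exact hK κ' (by rw [e]; exact hL) χ h'' σ

/-- **Descent** for abelian extensions. -/
theorem AbelianFor.descent [IsAlgClosure ℚ Ω] {K : IntermediateField ℚ Ω} {ℓ : ℕ} [Fact ℓ.Prime]
    {ζ α : Ω} (hζ : IsPrimitiveRoot ζ ℓ) (hα : α ^ ℓ ∈ K) (hn : ∀ b ∈ K, b ^ ℓ ≠ α ^ ℓ)
    (h1 : N.AbelianFor (K ⊔ ℚ⟮α⟯)) (h2 : N.AbelianFor (K ⊔ ℚ⟮ζ⟯)) : N.AbelianFor K := by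
  intro κ hab χ h σ
  have h0 : α ≠ 0 := by
    rintro rfl
    exact hn 0 K.zero_mem rfl
  have hAlg := (inferInstance : IsAlgClosure ℚ Ω).isAlgebraic
  have i1 : FiniteDimensional ℚ ℚ⟮α⟯ :=
    adjoin.finiteDimensional (hAlg.isAlgebraic α).isIntegral
  have i2 : FiniteDimensional ℚ ℚ⟮ζ⟯ :=
    adjoin.finiteDimensional (hAlg.isAlgebraic ζ).isIntegral
  have i3 : FiniteDimensional ℚ (N.top κ) := (N.galois κ).1
  set L := N.top κ with hL
  let a := aff hζ h0 hα hn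
  obtain ⟨κ', e1, e2, e3⟩ := StarkNumbers.exists_big (N := N.toStark) κ (ℚ⟮α⟯ ⊔ ℚ⟮ζ⟯)
  have e1' : L ≤ N.top κ' := e1
  have h' : IsCharOf χ (GG (N.top κ')) := h.mono (fixingSubgroup_le e1)
  have hKL : K ≤ L := hab.2.1
  have hαL' : ℚ⟮α⟯ ≤ N.top κ' := le_sup_left.trans e2
  have hζL' : ℚ⟮ζ⟯ ≤ N.top κ' := le_sup_right.trans e2
  have hκH : K ⊔ ℚ⟮α⟯ ≤ N.top κ' := sup_le (hKL.trans e1') hαL'
  have hκN : K ⊔ ℚ⟮ζ⟯ ≤ N.top κ' := sup_le (hKL.trans e1') hζL'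
  have hU : GG (N.top κ') ≤ GG (K ⊔ ℚ⟮α⟯) := fixingSubgroup_le hκH
  have hV : GG (N.top κ') ≤ GG (K ⊔ ℚ⟮ζ⟯) := fixingSubgroup_le hκN
  have := a.finH
  have := a.finN
  have key := a.rel (ZMod.isPrimitive_stdAddChar ℓ) h'.isCl
  -- the field `K(α)`
  have abH : AbelianExt (K ⊔ ℚ⟮α⟯) (L ⊔ ℚ⟮α⟯) := by
    refine ⟨inferInstance, sup_le_sup_right hKL _, fun g hg t ht => ?_⟩
    rw [mem_GG_adjoin] at hg ht ⊢
    refine ⟨hab.2.2 g hg.1 t ht.1, ?_⟩
    exact MulAction.mem_stabilizer_iff.1 ((MulAction.stabilizer _ α).mul_mem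
      ((MulAction.stabilizer _ α).mul_mem ((MulAction.stabilizer _ α).mul_mem
        (show g ∈ MulAction.stabilizer _ α from hg.2) (show t ∈ MulAction.stabilizer _ α from ht.2))
        ((MulAction.stabilizer _ α).inv_mem (show g ∈ MulAction.stabilizer _ α from hg.2)))
        ((MulAction.stabilizer _ α).inv_mem (show t ∈ MulAction.stabilizer _ α from ht.2)))
  -- the field `K(ζ)`
  have abN : AbelianExt (K ⊔ ℚ⟮ζ⟯) (L ⊔ ℚ⟮ζ⟯ ⊔ ℚ⟮α⟯) := by
    refine ⟨inferInstance, (sup_le_sup_right hKL _).trans le_sup_left, fun g hg t ht => ?_⟩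
    have hg' := (mem_GG_adjoin g).1 hg
    have ht' := (mem_GG_adjoin t).1 ht
    have hstab : g * t * g⁻¹ * t⁻¹ ∈ MulAction.stabilizer (Ω ≃ₐ[ℚ] Ω) ζ :=
      (MulAction.stabilizer _ ζ).mul_mem
      ((MulAction.stabilizer _ ζ).mul_mem ((MulAction.stabilizer _ ζ).mul_mem
        (show g ∈ MulAction.stabilizer _ ζ from hg'.2) (show t ∈ MulAction.stabilizer _ ζ from ht'.2))
        ((MulAction.stabilizer _ ζ).inv_mem (show g ∈ MulAction.stabilizer _ ζ from hg'.2)))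
        ((MulAction.stabilizer _ ζ).inv_mem (show t ∈ MulAction.stabilizer _ ζ from ht'.2))
    have h3 : g * t * g⁻¹ * t⁻¹ ∈ GG (L ⊔ ℚ⟮ζ⟯) := by
      rw [mem_GG_adjoin]
      exact ⟨hab.2.2 g hg'.1 t ht'.1, MulAction.mem_stabilizer_iff.1 hstab⟩
    rw [mem_GG_adjoin]
    refine ⟨h3, ?_⟩
    -- the translation parts commute
    have ha : ∀ x y : GG K, a.u x = 1 → a.u y = 1 → a.κ (x * y * x⁻¹ * y⁻¹) = 0 := by
      intro x y hx hy
      rw [a.mul, a.mul, a.mul, a.inv, a.inv, map_mul, map_mul, map_inv]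
      simp [hx, hy]
    have hu1 : a.u ⟨g, hg'.1⟩ = 1 := (a.memN _).1 hg
    have hu2 : a.u ⟨t, ht'.1⟩ = 1 := (a.memN _).1 ht
    have h4 := ha ⟨g, hg'.1⟩ ⟨t, ht'.1⟩ hu1 hu2
    rw [← a.memH] at h4
    exact ((mem_GG_adjoin _).1 h4).2
  have c1 : IsCharOf (a.ξH χ) (GG (L ⊔ ℚ⟮α⟯)) :=
    a.charH (h.mono (fixingSubgroup_le le_sup_left))
  have c1' : IsCharOf (a.ξH χ) (GG (N.top κ')) := a.charH h'
  have c3 : ∀ q, IsCharOf (a.ξN ZMod.stdAddChar χ q) (GG (L ⊔ ℚ⟮ζ⟯ ⊔ ℚ⟮α⟯)) := fun q =>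
    a.charN _ _ (fixingSubgroup_le (sup_le (hKL.trans (le_sup_left.trans le_sup_left))
      le_sup_right)) (h.mono (fixingSubgroup_le (le_sup_left.trans le_sup_left)))
  have c3' : ∀ q, IsCharOf (a.ξN ZMod.stdAddChar χ q) (GG (N.top κ')) := fun q =>
    a.charN _ _ hU h'
  have g1 : StarkNumbers.Good (N := N.toStark) κ' σ
      (ind (GG K) (GG (K ⊔ ℚ⟮α⟯)) (a.ξH χ)) := by
    obtain ⟨κH, f1, f2⟩ := N.induced le_sup_left κ' hκH
    unfold StarkNumbers.Good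
    rw [tw_ind]
    change σ (N.A κ' _) = N.A κ' _
    rw [f2 _ c1', f2 _ (c1'.tw σ)]
    exact good_of_abelian h1 abH κH c1 (by rw [f1]; exact c1') σ
  have g2 : ∀ q : (ZMod ℓ)ˣ ⧸ a.u.range, StarkNumbers.Good (N := N.toStark) κ' σ
      (ind (GG K) (GG (K ⊔ ℚ⟮ζ⟯)) (a.ξN ZMod.stdAddChar χ q.out)) := by
    intro q
    obtain ⟨κN, f1, f2⟩ := N.induced le_sup_left κ' hκN
    unfold StarkNumbers.Good
    rw [tw_ind]
    change σ (N.A κ' _) = N.A κ' _
    rw [f2 _ (c3' _), f2 _ ((c3' _).tw σ)]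
    exact good_of_abelian h2 abN κN (c3 _) (by rw [f1]; exact c3' _) σ
  have d2 : ∀ q : (ZMod ℓ)ˣ ⧸ a.u.range, IsCharOf
      (ind (GG K) (GG (K ⊔ ℚ⟮ζ⟯)) (a.ξN ZMod.stdAddChar χ q.out)) (GG (N.top κ')) :=
    fun q => (c3' _).induced a.nle e3 hV
  rw [key] at g1
  exact StarkNumbers.Good.change (N := N.toStark) h h'
    (StarkNumbers.Good.of_add (N := N.toStark) h' (IsCharOf.sum _ _ fun q _ => d2 q) g1
      (StarkNumbers.Good.sum (N := N.toStark) _ _ (fun q _ => d2 q) fun q _ => g2 q))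

end Numbers

end Pool.Agent.Q317.ST
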