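import Pool.Agent.Q317.ST.Frob

/-!
# The number of primes of degree one above a prime of degree one
-/

set_option autoImplicit false

namespace Pool.Agent.Q317.ST.Perm

open scoped Classical
open IntermediateField Polynomial NumberField

attribute [-instance] DivisionRing.toRatAlgebra

variable {Ω : Type} [Field Ω] [Algebra ℚ Ω]

theorem exists_int (d : 𝓞 Ω) (hd : d ≠ 0) :
    ∃ m : ℤ, m ≠ 0 ∧ ∀ Q : Ideal (𝓞 Ω), d ∈ Q → (m : 𝓞 Ω) ∈ Q := by
  have h1 : (Ideal.span {d}).comap (algebraMap ℤ (𝓞 Ω)) ≠ ⊥ :=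
    Ideal.comap_ne_bot_of_integral_mem hd (Ideal.mem_span_singleton_self d)
      (Algebra.IsIntegral.isIntegral d)
  obtain ⟨m, hm, hm0⟩ := Submodule.exists_mem_ne_zero_of_ne_bot h1
  refine ⟨m, hm0, fun Q hQ => ?_⟩
  have h2 : Ideal.span {d} ≤ Q := by
    rw [Ideal.span_le, Set.singleton_subset_iff]
    exact hQ
  have h3 := h2 hm
  rwa [eq_intCast] at h3

/-- the embedding on the integers -/
noncomputable def emb {K : IntermediateField ℚ Ω} (τ : K →ₐ[ℚ] Ω) : 𝓞 K →+* 𝓞 Ω :=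
  RingOfIntegers.mapRingHom (τ : K →+* Ω)

theorem emb_coe {K : IntermediateField ℚ Ω} (τ : K →ₐ[ℚ] Ω) (y : 𝓞 K) :
    ((emb τ y : 𝓞 Ω) : Ω) = τ (y : K) := rfl

theorem exists_sep {K : IntermediateField ℚ Ω} [FiniteDimensional ℚ K] {τ τ' : K →ₐ[ℚ] Ω}
    (h : τ ≠ τ') : ∃ y : 𝓞 K, emb τ y ≠ emb τ' y := by
  by_contra hcon
  push Not at hcon
  apply h
  apply AlgHom.ext
  intro x
  have halg : IsAlgebraic ℤ x := by
    have h1 : IsAlgebraic ℚ x := Algebra.IsAlgebraic.isAlgebraic x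
    exact (IsFractionRing.isAlgebraic_iff ℤ ℚ K).2 h1
  obtain ⟨m, hm0, hm⟩ := halg.exists_integral_multiple
  have h2 := hcon ⟨m • x, hm⟩
  have h3 := congrArg (fun t : 𝓞 Ω => (t : Ω)) h2
  have h4 : τ (m • x) = τ' (m • x) := h3
  rw [map_zsmul, map_zsmul, zsmul_eq_mul, zsmul_eq_mul] at h4
  have hc : CharZero Ω := charZero_of_injective_algebraMap (algebraMap ℚ Ω).injective
  exact mul_left_cancel₀ (Int.cast_ne_zero.2 hm0) h4

/-- two embeddings that agree modulo a prime above a good `p` are equal -/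
theorem exists_good (K : IntermediateField ℚ Ω) [FiniteDimensional ℚ K] :
    ∃ N : ℤ, N ≠ 0 ∧ ∀ (Q : Ideal (𝓞 Ω)), (N : 𝓞 Ω) ∉ Q → Q.IsPrime → ∀ τ τ' : K →ₐ[ℚ] Ω,
      (∀ y : 𝓞 K, emb τ y - emb τ' y ∈ Q) → τ = τ' := by
  have hd : ∀ t : (K →ₐ[ℚ] Ω) × (K →ₐ[ℚ] Ω), ∃ m : ℤ, m ≠ 0 ∧ (t.1 ≠ t.2 →
      ∃ y : 𝓞 K, ∀ Q : Ideal (𝓞 Ω), emb t.1 y - emb t.2 y ∈ Q → (m : 𝓞 Ω) ∈ Q) := by
    intro t
    by_cases ht : t.1 = t.2
    · exact ⟨1, one_ne_zero, fun h => absurd ht h⟩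
    · obtain ⟨y, hy⟩ := exists_sep ht
      obtain ⟨m, hm0, hm⟩ := exists_int _ (sub_ne_zero.2 hy)
      exact ⟨m, hm0, fun _ => ⟨y, hm⟩⟩
  choose m hm0 hm using hd
  refine ⟨∏ t, m t, Finset.prod_ne_zero_iff.2 fun t _ => hm0 t, ?_⟩
  intro Q hQ hQp τ τ' h
  by_contra hne
  obtain ⟨y, hy⟩ := hm (τ, τ') hne
  apply hQ
  have h1 := hy Q (h y)
  have h2 : m (τ, τ') ∣ ∏ t, m t := Finset.dvd_prod_of_mem _ (Finset.mem_univ _)
  obtain ⟨c, hc⟩ := h2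
  rw [hc, Int.cast_mul]
  exact Q.mul_mem_right _ h1

theorem exists_zmod {p : ℕ} [hp : Fact p.Prime] {F : Type} [Field F] [CharP F p] {R : Type}
    [CommRing R] (g : R →+* F) (h : ∀ x, g x ^ p = g x) :
    ∃ ψ : R →+* ZMod p, ∀ x, ZMod.castHom (dvd_refl p) F (ψ x) = g x := by
  let c : ZMod p →+* F := ZMod.castHom (dvd_refl p) F
  have hc : Function.Injective c := c.injective
  have hr : ∀ x, g x ∈ c.fieldRange := fun x => by
    rw [ZMod.fieldRange_castHom_eq_bot]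
    exact (Subfield.mem_bot_iff_pow_eq_self F p).2 (h x)
  have hr' : ∀ x, ∃ a, c a = g x := hr
  choose a ha using hr'
  refine ⟨{ toFun := a
            map_one' := hc (by rw [ha, map_one, map_one])
            map_mul' := fun x y => hc (by rw [ha, map_mul, map_mul, ha, ha])
            map_zero' := hc (by rw [ha, map_zero, map_zero])
            map_add' := fun x y => hc (by rw [ha, map_add, map_add, ha, ha]) }, ha⟩

theorem above_eq_fix [IsAlgClosure ℚ Ω] {k K : IntermediateField ℚ Ω} (hkK : k ≤ K)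
    {p : ℕ} [hp : Fact p.Prime] (φ : 𝓞 k →+* ZMod p) (Q : Ideal (𝓞 Ω)) (σ : Ω ≃ₐ[k] Ω)
    (hQ : Q.IsPrime) (hQφ : ∀ x : 𝓞 k, algebraMap (𝓞 k) (𝓞 Ω) x ∈ Q ↔ φ x = 0)
    (hσ : ∀ x : 𝓞 Ω, σ • x - x ^ p ∈ Q)
    (hsep : ∀ τ τ' : K →ₐ[ℚ] Ω, (∀ y : 𝓞 K, emb τ y - emb τ' y ∈ Q) → τ = τ') :
    above k K φ = fix k K (σ.restrictScalars ℚ) := by
  have : IsAlgClosed Ω := IsAlgClosure.isAlgClosed ℚ
  have : Algebra.IsAlgebraic ℚ Ω := IsAlgClosure.isAlgebraic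
  have hcc := commclass k
  have hinv := invariant k
  -- `Q` is maximal
  have hint : Algebra.IsIntegral ℤ (𝓞 Ω) := inferInstance
  have hpQ : (p : 𝓞 Ω) ∈ Q := by
    have h1 := (hQφ (p : 𝓞 k)).2 (by rw [map_natCast, CharP.cast_eq_zero])
    rwa [map_natCast] at h1
  have hunder : Q.under ℤ = Ideal.span {(p : ℤ)} := by
    symm
    refine Ideal.IsMaximal.eq_of_le ?_ ?_ ?_
    · exact PrincipalIdealRing.isMaximal_of_irreducible (Nat.prime_iff_prime_int.1 hp.out).irreducible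
    · exact Ideal.IsPrime.ne_top inferInstance
    · rw [Ideal.span_le, Set.singleton_subset_iff]
      change algebraMap ℤ (𝓞 Ω) (p : ℤ) ∈ Q
      rw [eq_intCast, Int.cast_natCast]
      exact hpQ
  have hmax : Q.IsMaximal := by
    refine Ideal.isMaximal_of_isIntegral_of_isMaximal_comap (R := ℤ) Q ?_
    change (Q.under ℤ).IsMaximal
    rw [hunder]
    exact PrincipalIdealRing.isMaximal_of_irreducible (Nat.prime_iff_prime_int.1 hp.out).irreducible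
  let _ := Ideal.Quotient.field Q
  have hchar : CharP (𝓞 Ω ⧸ Q) p := by
    have h1 : ((p : ℕ) : 𝓞 Ω ⧸ Q) = 0 := by
      rw [← map_natCast (Ideal.Quotient.mk Q), Ideal.Quotient.eq_zero_iff_mem]
      exact hpQ
    obtain ⟨q, hq⟩ := CharP.exists (𝓞 Ω ⧸ Q)
    rcases (Nat.dvd_prime hp.out).1 ((CharP.cast_eq_zero_iff (𝓞 Ω ⧸ Q) q p).1 h1) with h | h
    · exact absurd h (CharP.char_ne_one (𝓞 Ω ⧸ Q) q)
    · rw [← h]
      exact hq
  let c : ZMod p →+* (𝓞 Ω ⧸ Q) := ZMod.castHom (dvd_refl p) (𝓞 Ω ⧸ Q)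
  let mk : 𝓞 Ω →+* (𝓞 Ω ⧸ Q) := Ideal.Quotient.mk Q
  have hcm : ∀ m : ℤ, c (m : ZMod p) = mk (m : 𝓞 Ω) := fun m => by
    rw [map_intCast, map_intCast]
  have hcinj : Function.Injective c := c.injective
  have hcmk : ∀ {R : Type} [CommRing R] (ψ : R →+* ZMod p) (g : R →+* 𝓞 Ω),
      (∀ y, ψ y = 0 → g y ∈ Q) → ∀ y, c (ψ y) = mk (g y) := by
    intro R _ ψ g hg y
    obtain ⟨m, hm⟩ := ZMod.intCast_surjective (ψ y)
    have h1 : ψ (y - (m : R)) = 0 := by rw [map_sub, map_intCast, hm, sub_self]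
    have h2 := hg _ h1
    rw [map_sub, map_intCast] at h2
    rw [← hm, hcm]
    exact (Ideal.Quotient.eq.2 h2).symm
  have hφk : ∀ x : 𝓞 k, c (φ x) = mk (algebraMap (𝓞 k) (𝓞 Ω) x) :=
    hcmk φ _ fun x hx => (hQφ x).2 hx
  have hfr : ∀ x : 𝓞 Ω, mk (σ • x) = mk x ^ p := fun x => by
    rw [← map_pow]
    exact Ideal.Quotient.eq.2 (hσ x)
  -- the map
  have hex : ∀ τ : {τ : K →ₐ[ℚ] Ω // (∀ x : K, (x : Ω) ∈ k → τ x = x) ∧
      ∀ x, (σ.restrictScalars ℚ) (τ x) = τ x}, ∃ ψ : 𝓞 K →+* ZMod p,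
      ∀ y, c (ψ y) = mk (emb τ.1 y) := by
    intro τ
    refine exists_zmod (mk.comp (emb τ.1)) fun y => ?_
    have h1 : σ • emb τ.1 y = emb τ.1 y := by
      apply RingOfIntegers.ext
      exact τ.2.2 (y : K)
    have h2 := hfr (emb τ.1 y)
    rw [h1] at h2
    exact h2.symm
  choose Ψ hΨ using hex
  symm
  unfold above fix
  refine Nat.card_congr (Equiv.ofBijective (fun τ => ⟨Ψ τ, ?_⟩) ⟨?_, ?_⟩)
  · intro x y hxy
    apply hcinj
    rw [hΨ, hφk]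
    congr 1
    apply RingOfIntegers.ext
    rw [emb_coe]
    have h1 : ((y : K) : Ω) ∈ k := by
      rw [hxy]
      exact (x : k).2
    rw [τ.2.1 (y : K) h1, hxy]
    rfl
  · intro τ τ' h
    have h1 : Ψ τ = Ψ τ' := congrArg Subtype.val h
    apply Subtype.ext
    apply hsep
    intro y
    apply Ideal.Quotient.eq.1
    have h2 := hΨ τ y
    rw [h1, hΨ τ' y] at h2
    exact h2.symm
  · rintro ⟨ψ, hψ⟩
    -- a prime above the kernel of `ψ`
    have hkK' : ∀ x : 𝓞 k, ∃ y : 𝓞 K, ((y : K) : Ω) = ((x : k) : Ω) := fun x => by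
      refine ⟨⟨⟨((x : k) : Ω), hkK (x : k).2⟩, ?_⟩, rfl⟩
      have h1 : IsIntegral ℤ ((x : k) : Ω) := by
        have h2 := x.isIntegral_coe
        exact h2.map (algebraMap k Ω).toIntAlgHom
      exact (isIntegral_algebraMap_iff (algebraMap K Ω).injective).1 h1
    have hP : (RingHom.ker ψ).IsMaximal :=
      RingHom.ker_isMaximal_of_surjective ψ (ZMod.ringHom_surjective ψ)
    have hintK : Algebra.IsIntegral (𝓞 K) (𝓞 Ω) := by
      refine ⟨fun x => ?_⟩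
      have h1 : IsIntegral ℤ x := Algebra.IsIntegral.isIntegral x
      exact h1.tower_top
    have hinjK : Function.Injective (algebraMap (𝓞 K) (𝓞 Ω)) := by
      intro x y h
      apply RingOfIntegers.ext
      apply Subtype.ext
      exact congrArg (fun t : 𝓞 Ω => (t : Ω)) h
    obtain ⟨Q', hQ', hQP'⟩ := Ideal.exists_ideal_over_maximal_of_isIntegral (S := 𝓞 Ω)
      (RingHom.ker ψ) (by
        rw [(RingHom.injective_iff_ker_eq_bot _).1 hinjK]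
        exact bot_le)
    have hQ'ψ : ∀ y : 𝓞 K, algebraMap (𝓞 K) (𝓞 Ω) y ∈ Q' ↔ ψ y = 0 := fun y => by
      have h1 : y ∈ Q'.comap (algebraMap (𝓞 K) (𝓞 Ω)) ↔ y ∈ RingHom.ker ψ := by rw [hQP']
      exact h1
    have hund : Q'.under (𝓞 k) = Q.under (𝓞 k) := by
      ext x
      change algebraMap (𝓞 k) (𝓞 Ω) x ∈ Q' ↔ algebraMap (𝓞 k) (𝓞 Ω) x ∈ Q
      rw [hQφ]
      obtain ⟨y, hy⟩ := hkK' x
      rw [← hψ x y hy, ← hQ'ψ y]
      have h1 : algebraMap (𝓞 k) (𝓞 Ω) x = algebraMap (𝓞 K) (𝓞 Ω) y := by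
        apply RingOfIntegers.ext
        exact hy.symm
      rw [h1]
    let _ : TopologicalSpace (𝓞 Ω) := ⊥
    have : DiscreteTopology (𝓞 Ω) := ⟨rfl⟩
    have hcs : ContinuousSMul (Ω ≃ₐ[k] Ω) (𝓞 Ω) := contsmul k
    have := hQ'.isPrime
    obtain ⟨g, hg⟩ := Algebra.IsInvariant.exists_smul_of_under_eq_of_profinite
      (G := Ω ≃ₐ[k] Ω) Q' Q hund
    let τ : K →ₐ[ℚ] Ω := ((g.restrictScalars ℚ : Ω ≃ₐ[ℚ] Ω) : Ω →ₐ[ℚ] Ω).comp K.val
    have hτ : ∀ y : 𝓞 K, emb τ y = g • algebraMap (𝓞 K) (𝓞 Ω) y := fun y => by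
      apply RingOfIntegers.ext
      rfl
    have hτψ : ∀ y : 𝓞 K, c (ψ y) = mk (emb τ y) := by
      refine hcmk ψ (emb τ) fun y hy => ?_
      rw [hτ, hg]
      exact Ideal.smul_mem_pointwise_smul g _ Q' ((hQ'ψ y).2 hy)
    have hστ : ((σ.restrictScalars ℚ : Ω ≃ₐ[ℚ] Ω) : Ω →ₐ[ℚ] Ω).comp τ = τ := by
      apply hsep
      intro y
      apply Ideal.Quotient.eq.1
      have h1 : emb (((σ.restrictScalars ℚ : Ω ≃ₐ[ℚ] Ω) : Ω →ₐ[ℚ] Ω).comp τ) y =
          σ • emb τ y := by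
        apply RingOfIntegers.ext
        rfl
      have h2 := hfr (emb τ y)
      rw [← hτψ, ← map_pow, ZMod.pow_card, hτψ] at h2
      rw [h1]
      exact h2
    refine ⟨⟨τ, ?_, ?_⟩, ?_⟩
    · intro x hx
      exact g.commutes ⟨(x : Ω), hx⟩
    · intro x
      exact congrArg (fun t : K →ₐ[ℚ] Ω => t x) hστ
    · apply Subtype.ext
      apply RingHom.ext
      intro y
      apply hcinj
      rw [hτψ]
      exact hΨ _ y

end Pool.Agent.Q317.ST.Perm
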