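import Mathlib

/-!
# Steiner systems on infinite sets
-/

set_option autoImplicit false

namespace Pool.Agent.Q317.ST

/-- A Steiner `k`-system on `Ω`: a family of at least two subsets, all with at least `k + 1`
elements, such that each set of `k` points is contained in exactly one of them. -/
structure IsSteiner (k : ℕ) {Ω : Type} (B : Set (Set Ω)) : Prop where
  large : ∀ b ∈ B, ((k + 1 : ℕ) : ℕ∞) ≤ b.encard
  two : ∃ b ∈ B, ∃ b' ∈ B, b ≠ b'
  unique : ∀ s : Finset Ω, s.card = k → ∃! b, b ∈ B ∧ (s : Set Ω) ⊆ b

/-- The permutation `g` maps the family `B` onto `B`. -/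
def Preserves {Ω : Type} (g : Equiv.Perm Ω) (B : Set (Set Ω)) : Prop :=
  (fun b => g '' b) '' B = B

/-- The group of all permutations that map `B` onto `B` is transitive on the ordered `k`-tuples of
distinct points. -/
def AutTransitive (k : ℕ) {Ω : Type} (B : Set (Set Ω)) : Prop :=
  ∀ x y : Fin k → Ω, Function.Injective x → Function.Injective y →
    ∃ g : Equiv.Perm Ω, Preserves g B ∧ ∀ i, g (x i) = y i

end Pool.Agent.Q317.ST
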