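import Pool.Agent.Q317.ST.DegSum

/-!
# Dirichlet series over primes of degree one
-/

set_option autoImplicit false

namespace Pool.Agent.Q317.ST.Perm

open scoped Classical
open IntermediateField Polynomial NumberField Filter Asymptotics

attribute [-instance] DivisionRing.toRatAlgebra

variable {Ω : Type} [Field Ω] [Algebra ℚ Ω]

/-- the sum of `a(𝔮 ∩ k)` over the primes `𝔮` of `K` of residue field `𝔽_p` -/
noncomputable def localSum (k K : IntermediateField ℚ Ω) (a : ∀ p : ℕ, (𝓞 k →+* ZMod p) → ℝ)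
    (p : ℕ) : ℝ := ∑ᶠ φ : 𝓞 k →+* ZMod p, a p φ * above k K φ

/-- The Dirichlet series `∑ a(𝔮 ∩ k) N(𝔮)^(-s)` over the primes `𝔮` of degree one of `K`. A prime
of degree one of `k` with residue field `𝔽_p` is given as a ring homomorphism `φ : 𝓞 k → 𝔽_p`. -/
noncomputable def primeSeries (k K : IntermediateField ℚ Ω)
    (a : ∀ p : ℕ, (𝓞 k →+* ZMod p) → ℝ) (s : ℂ) : ℂ :=
  ∑' p : Nat.Primes, (localSum k K a p : ℂ) * ((p : ℕ) : ℂ) ^ (-s)

/-- relations between permutation characters hold for almost all local sums -/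
theorem local_relation [IsAlgClosure ℚ Ω] {k : IntermediateField ℚ Ω} [FiniteDimensional ℚ k]
    (a : ∀ p : ℕ, (𝓞 k →+* ZMod p) → ℝ) (ι : Type) [Fintype ι] (n : ι → ℤ)
    (K : ι → IntermediateField ℚ Ω) (hK : ∀ i, FiniteDimensional ℚ (K i) ∧ k ≤ K i)
    (h : ∀ σ ∈ k.fixingSubgroup, ∑ i, n i * (fix k (K i) σ : ℤ) = 0) :
    ∃ M : ℕ, ∀ p : ℕ, p.Prime → M < p → ∑ i, n i * localSum k (K i) a p = 0 := by
  obtain ⟨C, x₀, hC⟩ := sum_relation a ι n K hK h
  refine ⟨x₀ + 1, fun p hp hMp => ?_⟩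
  obtain ⟨x, rfl⟩ : ∃ x, p = x + 1 := ⟨p - 1, by have := hp.pos; omega⟩
  have h1 : ∀ i, primeSum k (K i) a (x + 1) = primeSum k (K i) a x +
      localSum k (K i) a (x + 1) := by
    intro i
    unfold primeSum localSum
    rw [Finset.range_add_one (n := x + 1), Finset.filter_insert, if_pos hp,
      Finset.sum_insert (by simp), add_comm]
  have h2 := hC (x + 1) (by omega)
  have h3 := hC x (by omega)
  simp only [h1, mul_add, Finset.sum_add_distrib] at h2
  rw [h3] at h2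
  linarith

theorem series_relation [IsAlgClosure ℚ Ω] {k : IntermediateField ℚ Ω} [FiniteDimensional ℚ k]
    (a : ∀ p : ℕ, (𝓞 k →+* ZMod p) → ℝ)
    (ha : ∀ K : IntermediateField ℚ Ω, FiniteDimensional ℚ K → k ≤ K → ∀ s : ℂ, 1 < s.re →
      Summable fun p : Nat.Primes => (localSum k K a p : ℂ) * ((p : ℕ) : ℂ) ^ (-s))
    (ι : Type) [Fintype ι] (n : ι → ℤ)
    (K : ι → IntermediateField ℚ Ω) (hK : ∀ i, FiniteDimensional ℚ (K i) ∧ k ≤ K i)
    (h : ∀ σ ∈ k.fixingSubgroup, ∑ i, n i * (fix k (K i) σ : ℤ) = 0) :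
    ∃ g : ℂ → ℂ, Differentiable ℂ g ∧ ∀ s : ℂ, 1 < s.re →
      ∑ i, (n i : ℂ) * primeSeries k (K i) a s = g s := by
  obtain ⟨M, hM⟩ := local_relation a ι n K hK h
  have hfin : Set.Finite {p : Nat.Primes | (p : ℕ) ≤ M} :=
    (Set.finite_Iic M).preimage (Subtype.val_injective.injOn)
  let T : Finset Nat.Primes := hfin.toFinset
  refine ⟨fun s => ∑ p ∈ T, ((∑ i, n i * localSum k (K i) a p : ℝ) : ℂ) * ((p : ℕ) : ℂ) ^ (-s),
    ?_, ?_⟩
  · refine Differentiable.fun_sum fun p _ => ?_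
    refine Differentiable.const_mul ?_ _
    intro s
    have hp0 : ((p : ℕ) : ℂ) ≠ 0 := Nat.cast_ne_zero.2 p.2.ne_zero
    exact (differentiableAt_id.neg).const_cpow (Or.inl hp0)
  · intro s hs
    unfold primeSeries
    have h1 : ∑ i, (n i : ℂ) * ∑' p : Nat.Primes, (localSum k (K i) a p : ℂ) * ((p : ℕ) : ℂ) ^ (-s)
        = ∑' p : Nat.Primes, ∑ i, (n i : ℂ) * ((localSum k (K i) a p : ℂ) *
          ((p : ℕ) : ℂ) ^ (-s)) := by
      rw [Summable.tsum_finsetSum fun i _ => (ha (K i) (hK i).1 (hK i).2 s hs).mul_left _]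
      exact Finset.sum_congr rfl fun i _ => tsum_mul_left.symm
    rw [h1]
    have h2 : ∀ p : Nat.Primes, ∑ i, (n i : ℂ) * ((localSum k (K i) a p : ℂ) *
        ((p : ℕ) : ℂ) ^ (-s)) =
        ((∑ i, n i * localSum k (K i) a p : ℝ) : ℂ) * ((p : ℕ) : ℂ) ^ (-s) := by
      intro p
      push_cast
      rw [Finset.sum_mul]
      exact Finset.sum_congr rfl fun i _ => by ring
    simp only [h2]
    refine tsum_eq_sum fun p hp => ?_
    have h3 : M < (p : ℕ) := by
      by_contra hcon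
      exact hp (hfin.mem_toFinset.2 (not_lt.1 hcon))
    rw [hM p p.2 h3, Complex.ofReal_zero, zero_mul]

/-- the functions on `1 < Re s` that extend holomorphically to `U` -/
def extSub (U : Set ℂ) : Submodule ℚ (ℂ → ℂ) where
  carrier := {f | ∃ g : ℂ → ℂ, DifferentiableOn ℂ g U ∧ ∀ s ∈ U, 1 < s.re → f s = g s}
  zero_mem' := ⟨0, differentiableOn_const 0, fun _ _ _ => rfl⟩
  add_mem' := by
    rintro f f' ⟨g, hg, h⟩ ⟨g', hg', h'⟩
    exact ⟨g + g', hg.add hg', fun s hs h1 => by rw [Pi.add_apply, Pi.add_apply, h s hs h1,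
      h' s hs h1]⟩
  smul_mem' := by
    rintro q f ⟨g, hg, h⟩
    refine ⟨fun s => (q : ℂ) * g s, hg.const_mul _, fun s hs h1 => ?_⟩
    rw [Pi.smul_apply, Rat.smul_def, h s hs h1]

end Pool.Agent.Q317.ST.Perm
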