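import Pool.Agent.Q317.ST.Perm3

/-!
# Functions with values in a rational vector space
-/

set_option autoImplicit false

namespace Pool.Agent.Q317.ST.Perm

open scoped Classical
open IntermediateField Polynomial

attribute [-instance] DivisionRing.toRatAlgebra

variable {Ω : Type} [Field Ω] [Algebra ℚ Ω]

theorem exists_factor {V W A : Type} [AddCommGroup V] [Module ℚ V] [AddCommGroup W] [Module ℚ W]
    [AddCommGroup A] [Module ℚ A] (R : V →ₗ[ℚ] W) (Φ : V →ₗ[ℚ] A)
    (h : ∀ x, R x = 0 → Φ x = 0) : ∃ g : W →ₗ[ℚ] A, ∀ x, g (R x) = Φ x := by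
  have hker : LinearMap.ker R ≤ LinearMap.ker Φ := fun x hx => by
    rw [LinearMap.mem_ker] at hx ⊢
    exact h x hx
  let g0 : LinearMap.range R →ₗ[ℚ] A :=
    ((LinearMap.ker R).liftQ Φ hker).comp (R.quotKerEquivRange.symm : _ →ₗ[ℚ] _)
  obtain ⟨g, hg⟩ := LinearMap.exists_extend g0
  refine ⟨g, fun x => ?_⟩
  have h1 := congrArg (fun t : LinearMap.range R →ₗ[ℚ] A => t ⟨R x, x, rfl⟩) hg
  have h2 : R.quotKerEquivRange.symm ⟨R x, x, rfl⟩ = (LinearMap.ker R).mkQ x := by
    rw [LinearEquiv.symm_apply_eq]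
    apply Subtype.ext
    exact (LinearMap.quotKerEquivRange_apply_mk R x).symm
  change g (R x) = g0 ⟨R x, x, rfl⟩ at h1
  rw [h1]
  change ((LinearMap.ker R).liftQ Φ hker) (R.quotKerEquivRange.symm ⟨R x, x, rfl⟩) = Φ x
  rw [h2]
  exact Submodule.liftQ_apply _ _ _

/-- **Theorem.** A function with values in a rational vector space that respects the relations and
vanishes on the totally complex fields without embeddings in the `E j` is a linear combination of
the numbers of real places. -/
theorem exists_vec [hΩ : IsAlgClosure ℚ Ω] {k : IntermediateField ℚ Ω} [hk : FiniteDimensional ℚ k]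
    {A : Type} [AddCommGroup A] [Module ℚ A]
    {f : IntermediateField ℚ Ω → A} (hf : Respects k f)
    {J : Type} [Finite J] (E : J → Type) [∀ j, Field (E j)] (hE : ∀ j, CharZero (E j))
    (hnE : ∀ j, StarkNumbers.NonSq (E j))
    (h0 : ∀ F : IntermediateField ℚ Ω, FiniteDimensional ℚ F → k ≤ F → IsEmpty (F →+* ℝ) →
      (∀ j, IsEmpty (F →+* E j)) → f F = 0) :
    ∃ lam : (k →+* ℝ) → A, ∀ K : IntermediateField ℚ Ω, FiniteDimensional ℚ K → k ≤ K →
      f K = ∑ᶠ v, (realOver k K v : ℚ) • lam v := by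
  have := finite_real k
  have := Fintype.ofFinite (k →+* ℝ)
  let S := {K : IntermediateField ℚ Ω // FiniteDimensional ℚ K ∧ k ≤ K}
  let R : (S →₀ ℚ) →ₗ[ℚ] ((k →+* ℝ) → ℚ) :=
    Finsupp.linearCombination ℚ fun K v => (realOver k K.1 v : ℚ)
  let Φ : (S →₀ ℚ) →ₗ[ℚ] A := Finsupp.linearCombination ℚ fun K => f K.1
  have hker : ∀ x, R x = 0 → Φ x = 0 := by
    intro x hx
    obtain ⟨D, hD, hm⟩ : ∃ D : ℕ, D ≠ 0 ∧ ∀ K : S, ∃ m : ℤ, (D : ℚ) * x K = m := by
      refine ⟨∏ K ∈ x.support, (x K).den, Finset.prod_ne_zero_iff.2 fun K _ => (x K).den_nz, ?_⟩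
      intro K
      by_cases hK : K ∈ x.support
      · obtain ⟨t, ht⟩ := Finset.dvd_prod_of_mem (fun K => (x K).den) hK
        refine ⟨t * (x K).num, ?_⟩
        rw [ht]
        push_cast
        have h1 : (x K) * ((x K).den : ℚ) = (x K).num := Rat.mul_den_eq_num (x K)
        rw [← h1]
        ring
      · rw [Finsupp.notMem_support_iff] at hK
        exact ⟨0, by rw [hK, mul_zero, Int.cast_zero]⟩
    choose m hm using hm
    obtain ⟨D', hD', h1⟩ := main_real hf E hE hnE h0 x.support (fun K => m K.1) (fun K => K.1.1)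
      (fun K => K.1.2) (by
        intro v
        have h2 := congrFun hx v
        simp only [R, Finsupp.linearCombination_apply, Finsupp.sum, Finset.sum_apply, Pi.smul_apply,
          smul_eq_mul, Pi.zero_apply] at h2
        have h3 : ((∑ K : x.support, m K.1 * (realOver k K.1.1 v : ℤ) : ℤ) : ℚ) = 0 := by
          push_cast
          rw [Finset.sum_coe_sort x.support (fun K => (m K : ℚ) * (realOver k K.1 v : ℚ))]
          rw [Finset.sum_congr rfl fun K _ => by rw [← hm K, mul_assoc], ← Finset.mul_sum, h2,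
            mul_zero]
        exact_mod_cast h3)
    have h4 : ∑ K : x.support, m K.1 • f K.1.1 = 0 := by
      have h5 : (D' : ℚ) • ∑ K : x.support, m K.1 • f K.1.1 = 0 := by
        rw [Nat.cast_smul_eq_nsmul]
        exact h1
      exact (smul_eq_zero.1 h5).resolve_left (Nat.cast_ne_zero.2 hD')
    have h5 : ∑ K : x.support, m K.1 • f K.1.1 = (D : ℚ) • Φ x := by
      simp only [Φ, Finsupp.linearCombination_apply, Finsupp.sum]
      rw [Finset.sum_coe_sort x.support (fun K => (m K) • (f K.1)), Finset.smul_sum]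
      refine Finset.sum_congr rfl fun K _ => ?_
      rw [smul_smul, hm K, Int.cast_smul_eq_zsmul]
    rw [h4] at h5
    exact (smul_eq_zero.1 h5.symm).resolve_left (Nat.cast_ne_zero.2 hD)
  obtain ⟨g, hg⟩ := exists_factor R Φ hker
  refine ⟨fun v => g (Pi.single v 1), fun K h1 h2 => ?_⟩
  have h3 := hg (Finsupp.single ⟨K, h1, h2⟩ 1)
  simp only [R, Φ, Finsupp.linearCombination_single, one_smul] at h3
  rw [← h3, finsum_eq_sum_of_fintype]
  have h4 : (fun v => (realOver k K v : ℚ)) =
      ∑ v, (realOver k K v : ℚ) • (Pi.single v 1 : (k →+* ℝ) → ℚ) := by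
    funext w
    rw [Finset.sum_apply, Finset.sum_eq_single w]
    · simp
    · intro v _ hv
      simp [Pi.single_eq_of_ne hv.symm]
    · intro h
      exact absurd (Finset.mem_univ w) h
  rw [h4, map_sum]
  refine Finset.sum_congr rfl fun v _ => ?_
  rw [map_smul]

end Pool.Agent.Q317.ST.Perm
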