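import Pool.Agent.Q317.ST.Above
import Pool.Agent.Q317.ST.Perm5

/-!
# Sums over primes of degree one
-/

set_option autoImplicit false

namespace Pool.Agent.Q317.ST.Perm

open scoped Classical
open IntermediateField Polynomial NumberField Filter Asymptotics

attribute [-instance] DivisionRing.toRatAlgebra

variable {Ω : Type} [Field Ω] [Algebra ℚ Ω]

/-- The sum of `a(𝔮 ∩ k)` over the primes `𝔮` of `K` of residue field `𝔽_p` for some prime `p ≤ x`
(the primes of degree one and norm at most `x`). A prime of degree one of `k` with residue field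
`𝔽_p` is given as a ring homomorphism `φ : 𝓞 k → 𝔽_p`. -/
noncomputable def primeSum (k K : IntermediateField ℚ Ω) (a : ∀ p : ℕ, (𝓞 k →+* ZMod p) → ℝ)
    (x : ℕ) : ℝ :=
  ∑ p ∈ (Finset.range (x + 1)).filter Nat.Prime, ∑ᶠ φ : 𝓞 k →+* ZMod p, a p φ * above k K φ

theorem finite_hom (k : IntermediateField ℚ Ω) [FiniteDimensional ℚ k] (p : ℕ)
    [hp : Fact p.Prime] : Finite (𝓞 k →+* ZMod p) := by
  have hc : CharZero k := charZero_of_injective_algebraMap (algebraMap ℚ k).injective
  have hn : NumberField k := by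
    refine @NumberField.mk k _ hc ?_
    have h0 : FiniteDimensional ℚ k := inferInstance
    convert h0
    exact Subsingleton.elim (α := Module ℚ k) _ _
  obtain ⟨s, hs⟩ : (⊤ : Submodule ℤ (𝓞 k)).FG := Module.Finite.fg_top
  refine Finite.of_injective (fun (φ : 𝓞 k →+* ZMod p) (y : s) => φ y) ?_
  intro φ ψ h
  have h1 : (⊤ : Submodule ℤ (𝓞 k)) ≤ LinearMap.eqLocus φ.toAddMonoidHom.toIntLinearMap
      ψ.toAddMonoidHom.toIntLinearMap := by
    rw [← hs, Submodule.span_le]
    intro y hy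
    exact congrFun h ⟨y, hy⟩
  apply RingHom.ext
  intro y
  exact h1 (Submodule.mem_top : y ∈ _)

/-- relations between permutation characters give relations between the sums -/
theorem sum_relation [IsAlgClosure ℚ Ω] {k : IntermediateField ℚ Ω} [FiniteDimensional ℚ k]
    (a : ∀ p : ℕ, (𝓞 k →+* ZMod p) → ℝ) (ι : Type) [Fintype ι] (n : ι → ℤ)
    (K : ι → IntermediateField ℚ Ω) (hK : ∀ i, FiniteDimensional ℚ (K i) ∧ k ≤ K i)
    (h : ∀ σ ∈ k.fixingSubgroup, ∑ i, n i * (fix k (K i) σ : ℤ) = 0) :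
    ∃ (C : ℝ) (x₀ : ℕ), ∀ x ≥ x₀, ∑ i, n i * primeSum k (K i) a x = C := by
  have hN : ∀ i, ∃ N : ℤ, N ≠ 0 ∧ ∀ (Q : Ideal (𝓞 Ω)), (N : 𝓞 Ω) ∉ Q → Q.IsPrime →
      ∀ τ τ' : K i →ₐ[ℚ] Ω, (∀ y : 𝓞 (K i), emb τ y - emb τ' y ∈ Q) → τ = τ' := fun i => by
    have := (hK i).1
    exact exists_good (K i)
  choose N hN0 hN using hN
  let M : ℕ := (∏ i, N i).natAbs
  have hM : M ≠ 0 := Int.natAbs_ne_zero.2 (Finset.prod_ne_zero_iff.2 fun i _ => hN0 i)
  have key : ∀ p : ℕ, p.Prime → M < p → ∑ i, n i * (∑ᶠ φ : 𝓞 k →+* ZMod p,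
      a p φ * above k (K i) φ) = 0 := by
    intro p hp hMp
    have : Fact p.Prime := ⟨hp⟩
    have := finite_hom k p
    have := Fintype.ofFinite (𝓞 k →+* ZMod p)
    have hφ : ∀ φ : 𝓞 k →+* ZMod p, ∑ i, n i * (above k (K i) φ : ℤ) = 0 := by
      intro φ
      obtain ⟨Q, σ, hQ, hQφ, hσ⟩ := exists_frob k φ
      have hNQ : ∀ i, (N i : 𝓞 Ω) ∉ Q := by
        intro i hi
        have h1 : algebraMap (𝓞 k) (𝓞 Ω) (N i : 𝓞 k) ∈ Q := by rwa [map_intCast]
        rw [hQφ, map_intCast, ZMod.intCast_zmod_eq_zero_iff_dvd] at h1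
        have h2 : (p : ℤ) ∣ ∏ i, N i := h1.trans (Finset.dvd_prod_of_mem _ (Finset.mem_univ i))
        have h3 : p ∣ M := Int.natCast_dvd.1 h2
        exact absurd (Nat.le_of_dvd (Nat.pos_of_ne_zero hM) h3) (not_le.2 hMp)
      have h1 : ∀ i, above k (K i) φ = fix k (K i) (σ.restrictScalars ℚ) := fun i =>
        above_eq_fix (hK i).2 φ Q σ hQ hQφ hσ (hN i Q (hNQ i) hQ)
      simp only [h1]
      refine h _ ?_
      rw [IntermediateField.mem_fixingSubgroup_iff]
      intro x hx
      exact σ.commutes ⟨x, hx⟩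
    simp only [finsum_eq_sum_of_fintype, Finset.mul_sum]
    rw [Finset.sum_comm]
    refine Finset.sum_eq_zero fun φ _ => ?_
    have h2 : ((∑ i, n i * (above k (K i) φ : ℤ) : ℤ) : ℝ) = 0 := by rw [hφ φ, Int.cast_zero]
    push_cast at h2
    have h3 : ∑ i, (n i : ℝ) * (a p φ * above k (K i) φ) =
        a p φ * ∑ i, (n i : ℝ) * (above k (K i) φ : ℝ) := by
      rw [Finset.mul_sum]
      exact Finset.sum_congr rfl fun i _ => by ring
    rw [h3, h2, mul_zero]
  refine ⟨∑ i, n i * primeSum k (K i) a M, M, fun x hx => ?_⟩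
  induction x, hx using Nat.le_induction with
  | base => rfl
  | succ x hx ih =>
    rw [← ih]
    by_cases hp : (x + 1).Prime
    · have h1 : ∀ i, primeSum k (K i) a (x + 1) = primeSum k (K i) a x +
          ∑ᶠ φ : 𝓞 k →+* ZMod (x + 1), a (x + 1) φ * above k (K i) φ := by
        intro i
        unfold primeSum
        rw [Finset.range_add_one (n := x + 1), Finset.filter_insert, if_pos hp,
          Finset.sum_insert (by simp), add_comm]
      simp only [h1, mul_add, Finset.sum_add_distrib]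
      rw [key (x + 1) hp (by omega), add_zero]
    · have h1 : ∀ i, primeSum k (K i) a (x + 1) = primeSum k (K i) a x := by
        intro i
        unfold primeSum
        rw [Finset.range_add_one (n := x + 1), Finset.filter_insert, if_neg hp]
      simp only [h1]

/-- the functions of size `o(g)` -/
def smallSub (g : ℕ → ℝ) : Submodule ℚ (ℕ → ℝ) where
  carrier := {f | f =o[atTop] g}
  zero_mem' := isLittleO_zero _ _
  add_mem' := fun h1 h2 => h1.add h2
  smul_mem' := fun q f hf => by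
    have h1 : (q • f) = fun x => (q : ℝ) * f x := by
      funext x
      rw [Pi.smul_apply, Rat.smul_def]
    rw [Set.mem_setOf_eq, h1]
    exact hf.const_mul_left _

end Pool.Agent.Q317.ST.Perm
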