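import Pool.Agent.Q317.ST.Id

/-!
# Kummer extensions of number fields and the induction relation

Number fields are the finite extensions `K` of `ℚ` inside a fixed algebraic closure `Ω` of `ℚ`; `GG K`
is the absolute Galois group of `K`.
-/

set_option autoImplicit false

namespace Pool.Agent.Q317.ST

open scoped Classical
open IntermediateField Polynomial

variable {Ω : Type} [Field Ω] [Algebra ℚ Ω]

/-- the absolute Galois group of `K` -/
noncomputable abbrev GG (K : IntermediateField ℚ Ω) : Subgroup (Ω ≃ₐ[ℚ] Ω) := K.fixingSubgroup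

theorem mem_GG_adjoin {K : IntermediateField ℚ Ω} {α : Ω} (g : Ω ≃ₐ[ℚ] Ω) :
    g ∈ GG (K ⊔ ℚ⟮α⟯) ↔ g ∈ GG K ∧ g α = α := by
  rw [GG, IntermediateField.fixingSubgroup_sup, Subgroup.mem_inf]
  refine and_congr Iff.rfl ?_
  constructor
  · intro h
    rw [IntermediateField.mem_fixingSubgroup_iff] at h
    exact h α (mem_adjoin_simple_self ℚ α)
  · intro h
    have h1 : ℚ⟮α⟯ ≤ IntermediateField.fixedField (Subgroup.zpowers g) := by
      rw [adjoin_simple_le_iff]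
      rintro ⟨_, n, rfl⟩
      have h2 : ∀ n : ℤ, (g ^ n) α = α := by
        intro n
        have h3 : g ∈ MulAction.stabilizer (Ω ≃ₐ[ℚ] Ω) α := h
        exact Subgroup.zpow_mem _ h3 n
      exact h2 n
    rw [IntermediateField.le_iff_le] at h1
    exact h1 (Subgroup.mem_zpowers g)

section

variable (K : IntermediateField ℚ Ω) {ℓ : ℕ} [hp : Fact ℓ.Prime] {ζ α : Ω}

/-- the additive character `j ↦ ζ ^ j` -/
noncomputable def zch (hζ : IsPrimitiveRoot ζ ℓ) : AddChar (ZMod ℓ) Ω :=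
  AddChar.zmodChar ℓ hζ.pow_eq_one

theorem zch_apply (hζ : IsPrimitiveRoot ζ ℓ) (j : ZMod ℓ) : zch hζ j = ζ ^ j.val :=
  AddChar.zmodChar_apply _ _

theorem zch_inj (hζ : IsPrimitiveRoot ζ ℓ) : Function.Injective (zch hζ) := by
  intro i j h
  rw [zch_apply, zch_apply] at h
  exact ZMod.val_injective ℓ (hζ.pow_inj (ZMod.val_lt i) (ZMod.val_lt j) h)

theorem exists_zch (hζ : IsPrimitiveRoot ζ ℓ) {x : Ω} (hx : x ^ ℓ = 1) : ∃ j, zch hζ j = x := by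
  obtain ⟨i, hi, h⟩ := hζ.eq_pow_of_pow_eq_one hx
  refine ⟨(i : ZMod ℓ), ?_⟩
  rw [zch_apply, ZMod.val_natCast_of_lt hi, h]

/-- the cyclotomic character -/
noncomputable def uu (hζ : IsPrimitiveRoot ζ ℓ) : GG K →* (ZMod ℓ)ˣ :=
  (hζ.autToPow ℚ).comp (GG K).subtype

theorem uu_spec (hζ : IsPrimitiveRoot ζ ℓ) (g : GG K) (j : ZMod ℓ) :
    (g : Ω ≃ₐ[ℚ] Ω) (zch hζ j) = zch hζ (uu K hζ g * j) := by
  have h1 : (g : Ω ≃ₐ[ℚ] Ω) ζ = zch hζ (uu K hζ g) := by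
    rw [zch_apply]
    exact (hζ.autToPow_spec ℚ _).symm
  rw [zch_apply, map_pow, h1, ← AddChar.map_nsmul_eq_pow, nsmul_eq_mul, ZMod.natCast_zmod_val,
    mul_comm]

theorem uu_eq_one_iff (hζ : IsPrimitiveRoot ζ ℓ) (g : GG K) :
    uu K hζ g = 1 ↔ (g : Ω ≃ₐ[ℚ] Ω) ζ = ζ := by
  have h1 : zch hζ 1 = ζ := by
    rw [zch_apply, ZMod.val_one_eq_one_mod, Nat.mod_eq_of_lt hp.out.one_lt, pow_one]
  have h2 := uu_spec K hζ g 1
  rw [h1, mul_one] at h2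
  rw [h2]
  constructor
  · intro h
    rw [h, Units.val_one, h1]
  · intro h
    exact Units.ext (zch_inj hζ (h.trans h1.symm))

variable {K}

theorem exists_κ (hζ : IsPrimitiveRoot ζ ℓ) (h0 : α ≠ 0) (hα : α ^ ℓ ∈ K) (g : GG K) :
    ∃ j, (g : Ω ≃ₐ[ℚ] Ω) α = zch hζ j * α := by
  have h1 : ((g : Ω ≃ₐ[ℚ] Ω) α / α) ^ ℓ = 1 := by
    rw [div_pow, ← map_pow, (IntermediateField.mem_fixingSubgroup_iff _ _).1 g.2 _ hα,
      div_self (pow_ne_zero _ h0)]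
  obtain ⟨j, hj⟩ := exists_zch hζ h1
  exact ⟨j, by rw [hj, div_mul_cancel₀ _ h0]⟩

/-- the Kummer cocycle -/
noncomputable def kk (hζ : IsPrimitiveRoot ζ ℓ) (h0 : α ≠ 0) (hα : α ^ ℓ ∈ K) (g : GG K) : ZMod ℓ :=
  (exists_κ hζ h0 hα g).choose

theorem kk_spec (hζ : IsPrimitiveRoot ζ ℓ) (h0 : α ≠ 0) (hα : α ^ ℓ ∈ K) (g : GG K) :
    (g : Ω ≃ₐ[ℚ] Ω) α = zch hζ (kk hζ h0 hα g) * α := (exists_κ hζ h0 hα g).choose_spec

theorem kk_eq (hζ : IsPrimitiveRoot ζ ℓ) (h0 : α ≠ 0) (hα : α ^ ℓ ∈ K) (g : GG K) {j : ZMod ℓ}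
    (h : (g : Ω ≃ₐ[ℚ] Ω) α = zch hζ j * α) : kk hζ h0 hα g = j := by
  rw [kk_spec hζ h0 hα g] at h
  exact zch_inj hζ (mul_right_cancel₀ h0 h)

variable [hΩ : IsAlgClosure ℚ Ω]

include hΩ in
theorem isAlg (K : IntermediateField ℚ Ω) : Algebra.IsAlgebraic K Ω := by
  have := hΩ.isAlgebraic
  exact Algebra.IsAlgebraic.tower_top (K := ℚ) K

include hΩ in
theorem isNormal (K : IntermediateField ℚ Ω) : Normal K Ω := by
  have := hΩ.isAlgClosed
  have := isAlg K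
  have h : IsAlgClosure K Ω := ⟨inferInstance, inferInstance⟩
  exact IsAlgClosure.normal K Ω

theorem minpoly_eq (hα : α ^ ℓ ∈ K) (hn : ∀ b ∈ K, b ^ ℓ ≠ α ^ ℓ) :
    minpoly K α = X ^ ℓ - C (⟨α ^ ℓ, hα⟩ : K) := by
  symm
  apply minpoly.eq_of_irreducible_of_monic
  · apply X_pow_sub_C_irreducible_of_prime hp.out
    intro b hb
    exact hn b b.2 (congrArg Subtype.val hb)
  · simp only [aeval_def, eval₂_sub, eval₂_X_pow, eval₂_C]
    exact sub_self _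
  · exact monic_X_pow_sub_C _ hp.out.ne_zero

theorem kk_surj (hζ : IsPrimitiveRoot ζ ℓ) (h0 : α ≠ 0) (hα : α ^ ℓ ∈ K)
    (hn : ∀ b ∈ K, b ^ ℓ ≠ α ^ ℓ) : Function.Surjective (kk hζ h0 hα) := by
  intro j
  have h1 : (aeval (zch hζ j * α)) (minpoly K α) = 0 := by
    rw [minpoly_eq hα hn]
    simp only [aeval_def, eval₂_sub, eval₂_X_pow, eval₂_C]
    rw [mul_pow, ← AddChar.map_nsmul_eq_pow, nsmul_eq_mul, CharP.cast_eq_zero, zero_mul,
      AddChar.map_zero_eq_one, one_mul]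
    exact sub_self _
  have := isNormal K
  have := isAlg K
  obtain ⟨σ, hσ⟩ := minpoly.exists_algEquiv_of_root' (Algebra.IsAlgebraic.isAlgebraic α) h1
  refine ⟨(IntermediateField.fixingSubgroupEquiv K).symm σ, ?_⟩
  apply kk_eq
  exact hσ

/-- The Galois group of `K(ζ, α)` over `K` acts on the `ℓ`-th roots by affine maps. -/
noncomputable def aff (hζ : IsPrimitiveRoot ζ ℓ) (h0 : α ≠ 0) (hα : α ^ ℓ ∈ K)
    (hn : ∀ b ∈ K, b ^ ℓ ≠ α ^ ℓ) : Aff ℓ (GG K) (GG (K ⊔ ℚ⟮α⟯)) (GG (K ⊔ ℚ⟮ζ⟯)) where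
  u := uu K hζ
  κ := kk hζ h0 hα
  mul g h := by
    apply kk_eq
    rw [Subgroup.coe_mul, AlgEquiv.mul_apply, kk_spec hζ h0 hα h, map_mul, uu_spec,
      kk_spec hζ h0 hα g, AddChar.map_add_eq_mul]
    ring
  surj := kk_surj hζ h0 hα hn
  hle := fixingSubgroup_le le_sup_left
  nle := fixingSubgroup_le le_sup_left
  memH g := by
    rw [mem_GG_adjoin]
    constructor
    · rintro ⟨-, h⟩
      apply kk_eq
      rw [h, AddChar.map_zero_eq_one, one_mul]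
    · intro h
      refine ⟨g.2, ?_⟩
      rw [kk_spec hζ h0 hα g, h, AddChar.map_zero_eq_one, one_mul]
  memN g := by
    rw [mem_GG_adjoin, uu_eq_one_iff]
    exact ⟨fun h => h.2, fun h => ⟨g.2, h⟩⟩

end

end Pool.Agent.Q317.ST
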