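import Pool.Agent.Q317.ST.Emb
import Pool.Agent.Q317.ST.NF

/-!
# Numbers of embeddings of Kummer extensions
-/

set_option autoImplicit false

namespace Pool.Agent.Q317.ST

open IntermediateField Polynomial

attribute [-instance] DivisionRing.toRatAlgebra

variable {Ω : Type} [Field Ω] [Algebra ℚ Ω]

/-- two embeddings that agree on `K` and at `α` are equal -/
theorem hom_ext_sup {K : IntermediateField ℚ Ω} {α : Ω} {F : Type} [Field F]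
    (f g : ↥(K ⊔ ℚ⟮α⟯) →+* F)
    (hK : f.comp (inclusion (le_sup_left : K ≤ K ⊔ ℚ⟮α⟯)).toRingHom =
      g.comp (inclusion (le_sup_left : K ≤ K ⊔ ℚ⟮α⟯)).toRingHom)
    (h : f ⟨α, (le_sup_right : ℚ⟮α⟯ ≤ K ⊔ ℚ⟮α⟯) (mem_adjoin_simple_self ℚ α)⟩ =
      g ⟨α, (le_sup_right : ℚ⟮α⟯ ≤ K ⊔ ℚ⟮α⟯) (mem_adjoin_simple_self ℚ α)⟩) : f = g := by
  let E₀ : IntermediateField ℚ Ω :=
    { carrier := {x | ∃ hx : x ∈ K ⊔ ℚ⟮α⟯, f ⟨x, hx⟩ = g ⟨x, hx⟩}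
      mul_mem' := by
        rintro x y ⟨hx, h1⟩ ⟨hy, h2⟩
        refine ⟨mul_mem hx hy, ?_⟩
        have e : (⟨x * y, mul_mem hx hy⟩ : ↥(K ⊔ ℚ⟮α⟯)) = ⟨x, hx⟩ * ⟨y, hy⟩ := rfl
        rw [e, map_mul, map_mul, h1, h2]
      add_mem' := by
        rintro x y ⟨hx, h1⟩ ⟨hy, h2⟩
        refine ⟨add_mem hx hy, ?_⟩
        have e : (⟨x + y, add_mem hx hy⟩ : ↥(K ⊔ ℚ⟮α⟯)) = ⟨x, hx⟩ + ⟨y, hy⟩ := rfl
        rw [e, map_add, map_add, h1, h2]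
      inv_mem' := by
        rintro x ⟨hx, h1⟩
        refine ⟨inv_mem hx, ?_⟩
        have e : (⟨x⁻¹, inv_mem hx⟩ : ↥(K ⊔ ℚ⟮α⟯)) = (⟨x, hx⟩)⁻¹ := rfl
        rw [e, map_inv₀, map_inv₀, h1]
      algebraMap_mem' := by
        intro q
        refine ⟨(K ⊔ ℚ⟮α⟯).algebraMap_mem q, ?_⟩
        exact congrArg (fun k : ℚ →+* F => k q)
          (Subsingleton.elim (f.comp (algebraMap ℚ ↥(K ⊔ ℚ⟮α⟯)))
            (g.comp (algebraMap ℚ ↥(K ⊔ ℚ⟮α⟯)))) }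
  have hKE : K ≤ E₀ := by
    intro x hx
    exact ⟨(le_sup_left : K ≤ K ⊔ ℚ⟮α⟯) hx, congrArg (fun k : K →+* F => k ⟨x, hx⟩) hK⟩
  have hαE : ℚ⟮α⟯ ≤ E₀ := by
    rw [adjoin_simple_le_iff]
    exact ⟨_, h⟩
  have hle : K ⊔ ℚ⟮α⟯ ≤ E₀ := sup_le hKE hαE
  ext ⟨x, hx⟩
  obtain ⟨_, h5⟩ := hle hx
  exact h5

theorem card_hom_le {K : IntermediateField ℚ Ω} [FiniteDimensional ℚ K] {α : Ω} {F : Type} [Field F]
    {ℓ : ℕ} (hF : OnlyOne F ℓ) {a : ℚ} (ha : a ≠ 0) (hα : α ^ ℓ = algebraMap ℚ Ω a) :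
    Nat.card (↥(K ⊔ ℚ⟮α⟯) →+* F) ≤ Module.finrank ℚ K := by
  by_cases hne : Nonempty (↥(K ⊔ ℚ⟮α⟯) →+* F)
  · obtain ⟨f₀⟩ := hne
    have : CharZero F := charZero_of_injective_ringHom f₀.injective
    let i : Algebra ℚ F := DivisionRing.toRatAlgebra
    have hcomm : ∀ (f : K →+* F) (q : ℚ), f (algebraMap ℚ K q) = algebraMap ℚ F q := by
      intro f q
      exact congrArg (fun k : ℚ →+* F => k q)
        (Subsingleton.elim (f.comp (algebraMap ℚ K)) (algebraMap ℚ F))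
    let r : (↥(K ⊔ ℚ⟮α⟯) →+* F) → (K →ₐ[ℚ] F) := fun f =>
      { f.comp (inclusion (le_sup_left : K ≤ K ⊔ ℚ⟮α⟯)).toRingHom with
        commutes' := hcomm _ }
    have hr : Function.Injective r := by
      intro f g hfg
      have h1 : f.comp (inclusion (le_sup_left : K ≤ K ⊔ ℚ⟮α⟯)).toRingHom =
          g.comp (inclusion (le_sup_left : K ≤ K ⊔ ℚ⟮α⟯)).toRingHom := by
        ext x
        exact congrArg (fun k : K →ₐ[ℚ] F => k x) hfg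
      refine hom_ext_sup f g h1 ?_
      set β : ↥(K ⊔ ℚ⟮α⟯) := ⟨α, (le_sup_right : ℚ⟮α⟯ ≤ K ⊔ ℚ⟮α⟯) (mem_adjoin_simple_self ℚ α)⟩
      have hβ : β ^ ℓ = algebraMap ℚ ↥(K ⊔ ℚ⟮α⟯) a := Subtype.ext hα
      have key : f (algebraMap ℚ ↥(K ⊔ ℚ⟮α⟯) a) = g (algebraMap ℚ ↥(K ⊔ ℚ⟮α⟯) a) :=
        congrArg (fun k : ℚ →+* F => k a)
          (Subsingleton.elim (f.comp (algebraMap ℚ ↥(K ⊔ ℚ⟮α⟯)))
            (g.comp (algebraMap ℚ ↥(K ⊔ ℚ⟮α⟯))))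
      have hne : g (algebraMap ℚ ↥(K ⊔ ℚ⟮α⟯) a) ≠ 0 := by
        intro h
        exact ha ((algebraMap ℚ ↥(K ⊔ ℚ⟮α⟯)).injective
          ((g.injective (h.trans (map_zero g).symm)).trans (map_zero _).symm))
      have h2 : (f β / g β) ^ ℓ = 1 := by
        rw [div_pow, ← map_pow, ← map_pow, hβ, key, div_self hne]
      have h3 : g β ≠ 0 := by
        intro h
        apply hne
        rw [← hβ, map_pow, h]
        rcases Nat.eq_zero_or_pos ℓ with h0 | h0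
        · subst h0
          have := hF 0 (pow_zero 0)
          exact absurd this zero_ne_one
        · exact zero_pow h0.ne'
      exact (div_eq_one_iff_eq h3).1 (hF _ h2)
    exact (Nat.card_le_card_of_injective r hr).trans (card_algHom_le_finrank ℚ K F)
  · rw [not_nonempty_iff] at hne
    rw [Nat.card_of_isEmpty]
    exact Nat.zero_le _

theorem card_hom_zeta {K : IntermediateField ℚ Ω} {ζ : Ω} {F : Type} [Field F]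
    {ℓ : ℕ} (hF : OnlyOne F ℓ) (hℓ : 1 < ℓ) (hζ : IsPrimitiveRoot ζ ℓ) :
    Nat.card (↥(K ⊔ ℚ⟮ζ⟯) →+* F) = 0 := by
  have : IsEmpty (↥(K ⊔ ℚ⟮ζ⟯) →+* F) := by
    refine ⟨fun f => ?_⟩
    set β : ↥(K ⊔ ℚ⟮ζ⟯) := ⟨ζ, (le_sup_right : ℚ⟮ζ⟯ ≤ K ⊔ ℚ⟮ζ⟯) (mem_adjoin_simple_self ℚ ζ)⟩
    have hβ : β ^ ℓ = 1 := Subtype.ext hζ.pow_eq_one
    have h1 : f β ^ ℓ = 1 := by rw [← map_pow, hβ, map_one]
    have h2 : β = 1 := f.injective ((hF _ h1).trans (map_one f).symm)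
    exact hζ.ne_one hℓ (congrArg Subtype.val h2)
  exact Nat.card_of_isEmpty

theorem mul_finrank_le [IsAlgClosure ℚ Ω] {K : IntermediateField ℚ Ω} [FiniteDimensional ℚ K]
    {α : Ω} {ℓ : ℕ} (hℓ : ℓ.Prime) (hlt : Module.finrank ℚ K < ℓ) {a : ℚ}
    (hα : α ^ ℓ = algebraMap ℚ Ω a) (ha : ∀ b : ℚ, b ^ ℓ ≠ a) :
    ℓ * Module.finrank ℚ K ≤ Module.finrank ℚ ↥(K ⊔ ℚ⟮α⟯) := by
  have hAlg := (inferInstance : IsAlgClosure ℚ Ω).isAlgebraic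
  have i1 : FiniteDimensional ℚ ℚ⟮α⟯ :=
    adjoin.finiteDimensional (hAlg.isAlgebraic α).isIntegral
  have h1 : Module.finrank ℚ K ∣ Module.finrank ℚ ↥(K ⊔ ℚ⟮α⟯) :=
    finrank_dvd_of_le_right le_sup_left
  have h2 : ℓ ∣ Module.finrank ℚ ↥(K ⊔ ℚ⟮α⟯) := by
    rw [← finrank_pure hℓ hα ha]
    exact finrank_dvd_of_le_right le_sup_right
  have hK0 : 0 < Module.finrank ℚ K := Module.finrank_pos
  have hcop : Nat.Coprime ℓ (Module.finrank ℚ K) :=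
    (Nat.Prime.coprime_iff_not_dvd hℓ).2 fun h => by
      have := Nat.le_of_dvd hK0 h
      omega
  exact Nat.le_of_dvd Module.finrank_pos (hcop.mul_dvd_of_dvd_of_dvd h2 h1)

theorem not_pow_of_finrank [IsAlgClosure ℚ Ω] {K : IntermediateField ℚ Ω} [FiniteDimensional ℚ K]
    {ℓ : ℕ} (hℓ : ℓ.Prime) (hlt : Module.finrank ℚ K < ℓ) {a : ℚ}
    (ha : ∀ b : ℚ, b ^ ℓ ≠ a) : ∀ b ∈ K, b ^ ℓ ≠ algebraMap ℚ Ω a := by
  intro b hb h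
  have h1 := finrank_pure hℓ h ha
  have h2 : ℚ⟮b⟯ ≤ K := adjoin_simple_le_iff.2 hb
  have h3 : Module.finrank ℚ ℚ⟮b⟯ ∣ Module.finrank ℚ K := finrank_dvd_of_le_right h2
  rw [h1] at h3
  have := Nat.le_of_dvd Module.finrank_pos h3
  omega

end Pool.Agent.Q317.ST
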