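import Pool.Agent.Q317.ST.Perm3

/-!
# Primes of degree one and Frobenius elements
-/

set_option autoImplicit false

namespace Pool.Agent.Q317.ST.Perm

open scoped Classical
open IntermediateField Polynomial NumberField

attribute [-instance] DivisionRing.toRatAlgebra

variable {Ω : Type} [Field Ω] [Algebra ℚ Ω]

/-- The number of the ring homomorphisms `𝓞 K → 𝔽_p` that extend `φ : 𝓞 k → 𝔽_p`: the number of the
primes of `K` of residue field `𝔽_p` above the prime `ker φ` of `k`. -/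
noncomputable def above (k K : IntermediateField ℚ Ω) {p : ℕ} (φ : 𝓞 k →+* ZMod p) : ℕ :=
  Nat.card {ψ : 𝓞 K →+* ZMod p //
    ∀ (x : 𝓞 k) (y : 𝓞 K), ((y : K) : Ω) = ((x : k) : Ω) → ψ y = φ x}

section
variable (k : IntermediateField ℚ Ω)

theorem commclass : SMulCommClass (Ω ≃ₐ[k] Ω) (𝓞 k) (𝓞 Ω) := by
  refine ⟨fun g a b => ?_⟩
  apply RingOfIntegers.ext
  rw [Algebra.smul_def, Algebra.smul_def, smul_mul']
  simp only [map_mul]
  congr 1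
  change g ((a : k) : Ω) = ((a : k) : Ω)
  exact g.commutes (a : k)

theorem invariant [IsAlgClosure ℚ Ω] :
    Algebra.IsInvariant (𝓞 k) (𝓞 Ω) (Ω ≃ₐ[k] Ω) := by
  have : IsAlgClosed Ω := IsAlgClosure.isAlgClosed ℚ
  have : Algebra.IsAlgebraic ℚ Ω := IsAlgClosure.isAlgebraic
  refine ⟨fun b hb => ?_⟩
  have h1 : ∀ g : Ω ≃ₐ[k] Ω, g (b : Ω) = b := fun g => by
    have := congrArg (fun t : 𝓞 Ω => (t : Ω)) (hb g)
    exact this
  have h2 : (b : Ω) ∈ (⊥ : IntermediateField k Ω) := by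
    rw [InfiniteGalois.mem_bot_iff_fixed]
    exact h1
  rw [IntermediateField.mem_bot] at h2
  obtain ⟨x, hx⟩ := h2
  have h3 : IsIntegral ℤ x := by
    have h4 : IsIntegral ℤ (b : Ω) := b.isIntegral_coe
    rw [← hx] at h4
    exact (isIntegral_algebraMap_iff (algebraMap k Ω).injective).1 h4
  refine ⟨⟨x, h3⟩, ?_⟩
  apply RingOfIntegers.ext
  exact hx

theorem contsmul [IsAlgClosure ℚ Ω] : letI : TopologicalSpace (𝓞 Ω) := ⊥
    ContinuousSMul (Ω ≃ₐ[k] Ω) (𝓞 Ω) := by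
  have : IsAlgClosed Ω := IsAlgClosure.isAlgClosed ℚ
  have : Algebra.IsAlgebraic ℚ Ω := IsAlgClosure.isAlgebraic
  letI : TopologicalSpace (𝓞 Ω) := ⊥
  have : DiscreteTopology (𝓞 Ω) := ⟨rfl⟩
  rw [continuousSMul_iff_stabilizer_isOpen]
  intro x
  have h1 := stabilizer_isOpen_of_isIntegral (K := k) (L := Ω) (x : Ω)
  have h2 : (MulAction.stabilizer (Ω ≃ₐ[k] Ω) x : Set (Ω ≃ₐ[k] Ω)) =
      (MulAction.stabilizer (Ω ≃ₐ[k] Ω) (x : Ω) : Set (Ω ≃ₐ[k] Ω)) := by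
    ext g
    simp only [SetLike.mem_coe, MulAction.mem_stabilizer_iff]
    constructor
    · intro h
      exact congrArg (fun t : 𝓞 Ω => (t : Ω)) h
    · intro h
      apply RingOfIntegers.ext
      exact h
  rw [h2]
  exact h1

/-- **Frobenius elements.** -/
theorem exists_frob [IsAlgClosure ℚ Ω] {p : ℕ} [hp : Fact p.Prime] (φ : 𝓞 k →+* ZMod p) :
    ∃ (Q : Ideal (𝓞 Ω)) (σ : Ω ≃ₐ[k] Ω), Q.IsPrime ∧
      (∀ x : 𝓞 k, algebraMap (𝓞 k) (𝓞 Ω) x ∈ Q ↔ φ x = 0) ∧ ∀ x : 𝓞 Ω, σ • x - x ^ p ∈ Q := by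
  have : IsAlgClosed Ω := IsAlgClosure.isAlgClosed ℚ
  have : Algebra.IsAlgebraic ℚ Ω := IsAlgClosure.isAlgebraic
  have hc := commclass k
  have hi := invariant k
  have hsurj : Function.Surjective φ := ZMod.ringHom_surjective φ
  let P : Ideal (𝓞 k) := RingHom.ker φ
  have hP : P.IsMaximal := RingHom.ker_isMaximal_of_surjective φ hsurj
  have hint : Algebra.IsIntegral (𝓞 k) (𝓞 Ω) := by
    refine ⟨fun x => ?_⟩
    have h1 : IsIntegral ℤ x := Algebra.IsIntegral.isIntegral x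
    exact h1.tower_top
  have hinj : Function.Injective (algebraMap (𝓞 k) (𝓞 Ω)) := by
    intro x y h
    apply RingOfIntegers.ext
    apply Subtype.ext
    exact congrArg (fun t : 𝓞 Ω => (t : Ω)) h
  obtain ⟨Q, hQ, hQP⟩ := Ideal.exists_ideal_over_maximal_of_isIntegral (S := 𝓞 Ω) P (by
    rw [(RingHom.injective_iff_ker_eq_bot _).1 hinj]
    exact bot_le)
  have hlo : Q.LiesOver P := ⟨hQP.symm⟩
  let _ := Ideal.Quotient.field P
  let _ := Ideal.Quotient.field Q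
  let e : (𝓞 k ⧸ P) ≃+* ZMod p := RingHom.quotientKerEquivOfSurjective hsurj
  let _ : Fintype (𝓞 k ⧸ P) := Fintype.ofEquiv _ e.symm.toEquiv
  have hcard : Fintype.card (𝓞 k ⧸ P) = p := by
    rw [Fintype.card_congr e.toEquiv, ZMod.card]
  have halg : Algebra.IsAlgebraic (𝓞 k ⧸ P) (𝓞 Ω ⧸ Q) := inferInstance
  let F : (𝓞 Ω ⧸ Q) ≃ₐ[𝓞 k ⧸ P] (𝓞 Ω ⧸ Q) :=
    FiniteField.frobeniusAlgEquivOfAlgebraic (𝓞 k ⧸ P) (𝓞 Ω ⧸ Q)
  let _ : TopologicalSpace (𝓞 Ω) := ⊥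
  have : DiscreteTopology (𝓞 Ω) := ⟨rfl⟩
  have hcs : ContinuousSMul (Ω ≃ₐ[k] Ω) (𝓞 Ω) := contsmul k
  obtain ⟨τ, hτ⟩ := Ideal.Quotient.stabilizerHom_surjective_of_profinite (G := Ω ≃ₐ[k] Ω) P Q F
  refine ⟨Q, τ.1, hQ.isPrime, ?_, ?_⟩
  · intro x
    have h1 : x ∈ Q.comap (algebraMap (𝓞 k) (𝓞 Ω)) ↔ x ∈ P := by rw [hQP]
    exact h1
  · intro x
    have h1 := congrArg (fun t : (𝓞 Ω ⧸ Q) ≃ₐ[𝓞 k ⧸ P] (𝓞 Ω ⧸ Q) => t (Ideal.Quotient.mk Q x)) hτ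
    have h2 : F (Ideal.Quotient.mk Q x) = Ideal.Quotient.mk Q x ^ p := by
      rw [FiniteField.coe_frobeniusAlgEquivOfAlgebraic, hcard]
    rw [← Ideal.Quotient.eq, map_pow, ← h2]
    exact h1

end

end Pool.Agent.Q317.ST.Perm
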