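import Pool.Agent.Q317.ST.AS2

/-!
# Additive inductive invariants of Artin characters over the extensions of a number field

All number fields, or only those in solvable Galois extensions of `ℚ`.
-/

set_option autoImplicit false

namespace Pool.Agent.Q317.ST.G2

open scoped Classical
open IntermediateField Polynomial

attribute [-instance] DivisionRing.toRatAlgebra

variable {Ω : Type} [Field Ω] [Algebra ℚ Ω]

/-- `L` is a finite Galois extension of `ℚ`, with solvable Galois group if `sol` holds. -/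
def InW (sol : Prop) (L : IntermediateField ℚ Ω) : Prop :=
  FiniteDimensional ℚ L ∧ Normal ℚ L ∧ (sol → ∃ n, derivedSeries (Ω ≃ₐ[ℚ] Ω) n ≤ GG L)

/-- `χ` is the character of a representation of the Galois group over `K` of an extension
`L` of `K` with `InW sol L`. -/
def IsArtin (sol : Prop) (K : IntermediateField ℚ Ω) (χ : GG K → ℂ) : Prop :=
  ∃ L : IntermediateField ℚ Ω, InW sol L ∧ K ≤ L ∧ IsCharOf χ (GG L)

/-- `c` is the complex conjugation of an embedding of `Ω` in the complex numbers -/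
def IsCC (c : Ω ≃ₐ[ℚ] Ω) : Prop := ∃ ι : Ω →+* ℂ, ∀ x, ι (c x) = starRingEnd ℂ (ι x)

theorem InW.sup {sol : Prop} {L₁ L₂ : IntermediateField ℚ Ω} (h₁ : InW sol L₁)
    (h₂ : InW sol L₂) : InW sol (L₁ ⊔ L₂) := by
  obtain ⟨a1, a2, a3⟩ := h₁
  obtain ⟨b1, b2, b3⟩ := h₂
  refine ⟨inferInstance, inferInstance, fun hs => ?_⟩
  obtain ⟨n, hn⟩ := a3 hs
  obtain ⟨m, hm⟩ := b3 hs
  refine ⟨max n m, ?_⟩
  rw [GG, IntermediateField.fixingSubgroup_sup]
  exact le_inf ((derivedSeries_antitone _ (le_max_left n m)).trans hn)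
    ((derivedSeries_antitone _ (le_max_right n m)).trans hm)

theorem InW.sq {sol : Prop} {L L' : IntermediateField ℚ Ω} (h : InW sol L)
    (hf : FiniteDimensional ℚ L') (hn : Normal ℚ L')
    (hc : ∀ g ∈ GG L, ∀ h ∈ GG L, g * h * g⁻¹ * h⁻¹ ∈ GG L') : InW sol L' := by
  refine ⟨hf, hn, fun hs => ?_⟩
  obtain ⟨n, hn⟩ := h.2.2 hs
  refine ⟨n + 1, ?_⟩
  rw [derivedSeries_succ, Subgroup.commutator_le]
  intro g hg h hh
  exact hc g (hn hg) h (hn hh)

/-- Additive inductive invariants of the Artin characters of the finite extensions of `k`. -/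
structure Inv (sol : Prop) (k : IntermediateField ℚ Ω) (A : Type) [AddCommGroup A] where
  /-- the invariant -/
  d : ∀ K : IntermediateField ℚ Ω, (GG K → ℂ) → A
  /-- additivity -/
  add : ∀ K : IntermediateField ℚ Ω, k ≤ K → ∀ χ₁ χ₂ : GG K → ℂ,
    IsArtin sol K χ₁ → IsArtin sol K χ₂ → d K (χ₁ + χ₂) = d K χ₁ + d K χ₂
  /-- invariance under induction -/
  ind : ∀ K K' : IntermediateField ℚ Ω, k ≤ K → K ≤ K' →
    ∀ χ : GG K' → ℂ, IsArtin sol K' χ → d K (ind (GG K) (GG K') χ) = d K' χ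

namespace Inv

variable {sol : Prop} {k : IntermediateField ℚ Ω} {A : Type} [AddCommGroup A] (I : Inv sol k A)

/-- restriction to the extensions of `K` -/
def up {K : IntermediateField ℚ Ω} (hk : k ≤ K) : Inv sol K A where
  d := I.d
  add K' hK' := I.add K' (hk.trans hK')
  ind K' K'' hK' := I.ind K' K'' (hk.trans hK')

theorem d_zero {K L : IntermediateField ℚ Ω} (hk : k ≤ K) (hL : InW sol L) (hKL : K ≤ L) :
    I.d K 0 = 0 := by
  have h0 : IsArtin sol K (0 : GG K → ℂ) := ⟨L, hL, hKL, IsCharOf.zero⟩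
  have h1 := I.add K hk 0 0 h0 h0
  rw [add_zero] at h1
  exact left_eq_add.1 h1

theorem d_sum {K L : IntermediateField ℚ Ω} (hk : k ≤ K) (hL : InW sol L) (hKL : K ≤ L) {ι : Type}
    (s : Finset ι) (χ : ι → GG K → ℂ)
    (h : ∀ i ∈ s, IsCharOf (χ i) (GG L)) (g : ∀ i ∈ s, I.d K (χ i) = 0) :
    I.d K (∑ i ∈ s, χ i) = 0 := by
  induction s using Finset.induction_on with
  | empty => simpa using I.d_zero hk hL hKL
  | insert a s ha ih =>
    rw [Finset.sum_insert ha, I.add K hk _ _ ⟨L, hL, hKL, h a (Finset.mem_insert_self _ _)⟩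
      ⟨L, hL, hKL, IsCharOf.sum s χ fun i hi => h i (Finset.mem_insert_of_mem hi)⟩,
      g a (Finset.mem_insert_self _ _), ih (fun i hi => h i (Finset.mem_insert_of_mem hi))
        fun i hi => g i (Finset.mem_insert_of_mem hi), add_zero]

theorem d_nm {K L : IntermediateField ℚ Ω} (hk : k ≤ K) (hL : InW sol L) (hKL : K ≤ L)
    {χ : GG K → ℂ} (h : IsCharOf χ (GG L)) (n : ℕ) : I.d K (nm n χ) = n • I.d K χ := by
  induction n with
  | zero => rw [nm_zero, I.d_zero hk hL hKL, zero_smul]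
  | succ n ih => rw [nm_succ, I.add K hk _ _ ⟨L, hL, hKL, h.nm n⟩ ⟨L, hL, hKL, h⟩, ih, succ_nsmul]

/-- The hypothesis: the invariant vanishes on cyclic extensions of totally complex fields. -/
def Vanishes {J : Type} (E : J → Type) [∀ j, Field (E j)] : Prop :=
  ∀ F : IntermediateField ℚ Ω, k ≤ F → IsEmpty (F →+* ℝ) → (∀ j, IsEmpty (F →+* E j)) →
    ∀ L, InW sol L → F ≤ L → (∃ g, cyc (GG L) g = GG F) → ∀ χ : GG F → ℂ, IsCharOf χ (GG L) →
      I.d F χ = 0

/-- **Main theorem**: the invariant depends only on the values at the complex conjugations. -/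
theorem eq_of_cc [hΩ : IsAlgClosure ℚ Ω] {J : Type} [Finite J] (E : J → Type)
    [∀ j, Field (E j)] (hE : ∀ j, CharZero (E j)) (hnE : ∀ j, StarkNumbers.NonSq (E j))
    (hA : ∀ (n : ℕ) (a : A), n ≠ 0 → n • a = 0 → a = 0) (hC : I.Vanishes E)
    {χ χ' : GG k → ℂ} (h : IsArtin sol k χ) (h' : IsArtin sol k χ')
    (heq : ∀ c (hc : c ∈ GG k), IsCC c → χ ⟨c, hc⟩ = χ' ⟨c, hc⟩) : I.d k χ = I.d k χ' := by
  obtain ⟨L₁, W₁, k₁, h₁⟩ := h
  obtain ⟨L₂, W₂, k₂, h₂⟩ := h'
  have hnΩ := normalΩ (Ω := Ω)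
  have hG : IsGalois ℚ Ω := ⟨⟩
  have hcl : IsAlgClosed Ω := hΩ.isAlgClosed
  have hAlg := hΩ.isAlgebraic
  obtain ⟨ι⟩ := exists_emb (Ω := Ω)
  obtain ⟨c, hc⟩ := exists_conj ι
  have WL : InW sol (L₁ ⊔ L₂) := W₁.sup W₂
  set L := L₁ ⊔ L₂ with hLdef
  have fL : FiniteDimensional ℚ L := WL.1
  have nL : Normal ℚ L := WL.2.1
  choose a b ha hb hab using hnE
  obtain ⟨L', fL', nL', hLL', hcom, hsq, hpat⟩ := pattern2 hc L (Sum.elim a b)
  have WL' : InW sol L' := WL.sq fL' nL' hcom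
  have hGL' : IsGalois ℚ L' := ⟨⟩
  have hU : (GG L').Normal := IsGalois.fixingSubgroup_normal_of_isGalois L'
  have hL1 : L₁ ≤ L := le_sup_left
  have hL2 : L₂ ≤ L := le_sup_right
  have hkL' : k ≤ L' := (k₁.trans hL1).trans hLL'
  choose w hwL hw2 using hsq
  set U := GG L' with hUdef
  have hUG : U ≤ GG k := fixingSubgroup_le hkL'
  have hUfi : U.FiniteIndex := ⟨by
    rw [hUdef, ← IntermediateField.finrank_eq_fixingSubgroup_index]
    exact Module.finrank_pos.ne'⟩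
  have : Finite (GG k ⧸ U.subgroupOf (GG k)) := inferInstance
  have := Fintype.ofFinite (GG k ⧸ U.subgroupOf (GG k))
  have hχ : IsCharOf χ U := h₁.mono (fixingSubgroup_le (hL1.trans hLL'))
  have hχ' : IsCharOf χ' U := h₂.mono (fixingSubgroup_le (hL2.trans hLL'))
  let f : GG k → ℂ := χ - χ'
  have hfv : IsVirt f U := ⟨χ, χ', hχ, hχ', rfl⟩
  have hterm : ∀ H ∈ cycs (GG k) U, ∃ ψ₁ ψ₂ : GG k → ℂ, IsCharOf ψ₁ U ∧ IsCharOf ψ₂ U ∧
      I.d k ψ₁ = 0 ∧ I.d k ψ₂ = 0 ∧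
      Pool.Agent.Q317.ST.ind (GG k) H (fun t => ext0 (GG k) f t * thet U H t) = ψ₁ - ψ₂ := by
    intro H hH
    have hvirt := artin_virt hUG hfv hH
    obtain ⟨y₀, hy₀, hyH⟩ := mem_cycs.1 hH
    have hUH : U ≤ H := by rw [← hyH]; exact le_cyc _ _
    have hHG : H ≤ GG k := by rw [← hyH]; exact cyc_le hUG hy₀
    obtain ⟨i1, i2⟩ := finite_of_le (G := GG k) hUH hHG
    have hopen : IsOpen (H : Set (Ω ≃ₐ[ℚ] Ω)) :=
      Subgroup.isOpen_mono hUH (IntermediateField.fixingSubgroup_isOpen L')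
    have hclosed : IsClosed (H : Set (Ω ≃ₐ[ℚ] Ω)) := Subgroup.isClosed_of_isOpen H hopen
    set F := IntermediateField.fixedField H with hFdef
    have hGF : GG F = H := InfiniteGalois.fixingSubgroup_fixedField ⟨H, hclosed⟩
    have hFL' : F ≤ L' := by
      rw [← InfiniteGalois.fixedField_fixingSubgroup L']
      exact IntermediateField.fixedField_le hUH
    have hkF : k ≤ F := by
      rw [← InfiniteGalois.fixedField_fixingSubgroup k]
      exact IntermediateField.fixedField_le hHG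
    have hEj : ∀ j, IsEmpty (F →+* E j) := by
      intro j
      refine ⟨fun τ => ?_⟩
      obtain ⟨w, hw1, hw2, hw3⟩ := StarkNumbers.fixed_root (hwL (Sum.inl j)) (hwL (Sum.inr j))
        (hw2 (Sum.inl j)) (hw2 (Sum.inr j)) y₀
      simp only [Sum.elim_inl, Sum.elim_inr] at hw3
      have hwF : w ∈ F := by
        rw [hFdef, IntermediateField.mem_fixedField_iff]
        intro g hg
        rw [← hyH] at hg
        obtain ⟨k, u, hu, rfl⟩ := mem_cyc_iff.1 hg
        rw [AlgEquiv.mul_apply, (IntermediateField.mem_fixingSubgroup_iff _ _).1 hu w hw1]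
        have h4 : y₀ ∈ MulAction.stabilizer (Ω ≃ₐ[ℚ] Ω) w := hw2
        exact Subgroup.zpow_mem _ h4 k
      have := hE j
      have hq : ∀ (q : ℚ) (_ : w ^ 2 = algebraMap ℚ Ω q), (τ ⟨w, hwF⟩) ^ 2 = (q : E j) := by
        intro q hq
        rw [← map_pow]
        have h5 : (⟨w, hwF⟩ : F) ^ 2 = algebraMap ℚ F q := Subtype.ext hq
        rw [h5]
        exact congrArg (fun k : ℚ →+* E j => k q)
          (Subsingleton.elim (τ.comp (algebraMap ℚ F)) (Rat.castHom (E j)))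
      rcases hw3 with h5 | h5 | h5
      · exact ha j _ (hq _ h5)
      · exact hb j _ (hq _ h5)
      · exact hab j _ (hq _ h5)
    by_cases hreal : IsEmpty (F →+* ℝ)
    · obtain ⟨ψ₁, ψ₂, k1, k2, k3⟩ := hvirt
      have hgood : ∀ ψ : H → ℂ, IsCharOf ψ U →
          I.d k (Pool.Agent.Q317.ST.ind (GG k) H ψ) = 0 := by
        have hS := hC F hkF hreal hEj L' WL' hFL' ⟨y₀, by rw [← hUdef, hGF, ← hyH]⟩
        have hI := I.ind k F le_rfl hkF
        rw [← hGF]
        intro ψ hψ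
        rw [hI ψ ⟨L', WL', hFL', hψ⟩]
        exact hS ψ hψ
      refine ⟨_, _, k1.induced hHG hU hUH, k2.induced hHG hU hUH, hgood ψ₁ k1, hgood ψ₂ k2, ?_⟩
      rw [k3, ind_sub]
    · rw [not_isEmpty_iff] at hreal
      obtain ⟨τ⟩ := hreal
      obtain ⟨s, hs⟩ := exists_ext ι F τ
      refine ⟨0, 0, IsCharOf.zero, IsCharOf.zero, I.d_zero le_rfl WL' hkL',
        I.d_zero le_rfl WL' hkL', ?_⟩
      have hccF : s⁻¹ * c * s ∈ GG F := by
        rw [IntermediateField.mem_fixingSubgroup_iff]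
        intro x hx
        have h2 : c (s x) = s x := (real_iff hc (s x)).2 ⟨τ ⟨x, hx⟩, hs x hx⟩
        rw [AlgEquiv.mul_apply, AlgEquiv.mul_apply, h2, ← AlgEquiv.mul_apply, inv_mul_cancel]
        rfl
      have hccH : s⁻¹ * c * s ∈ H := by rw [← hGF]; exact hccF
      have hcck : s⁻¹ * c * s ∈ GG k := hHG hccH
      have hIs : IsCC (s⁻¹ * c * s) := by
        refine ⟨ι.comp (s : Ω →+* Ω), fun x => ?_⟩
        change ι (s (s⁻¹ (c (s x)))) = starRingEnd ℂ (ι (s x))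
        rw [← hc]
        congr 1
        rw [← AlgEquiv.mul_apply, mul_inv_cancel]
        rfl
      have h0 : (fun t : H => ext0 (GG k) f t * thet U H t) = 0 := by
        funext t
        by_cases ht : cyc U (t : Ω ≃ₐ[ℚ] Ω) = H
        · have hcc2 := hccH
          rw [← ht] at hcc2
          obtain ⟨m, u, hu, h2⟩ := mem_cyc_iff.1 hcc2
          have h6 := hpat (s * t * s⁻¹) m (s * u * s⁻¹) (hU.conj_mem u hu s) (by
            rw [conj_zpow]
            have h3 : c = s * ((t : Ω ≃ₐ[ℚ] Ω) ^ m * u) * s⁻¹ := by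
              rw [h2]; group
            rw [h3]
            group)
          have h9 : (t : Ω ≃ₐ[ℚ] Ω)⁻¹ * (s⁻¹ * c * s) ∈ GG L := by
            have hGL : IsGalois ℚ L := ⟨⟩
            have hNL : (GG L).Normal := IsGalois.fixingSubgroup_normal_of_isGalois L
            rw [IntermediateField.mem_fixingSubgroup_iff]
            intro w hw
            have hsw : s w ∈ L := map_mem hNL s hw
            have h10 := h6 (s w) hsw
            rw [AlgEquiv.mul_apply, AlgEquiv.mul_apply, AlgEquiv.mul_apply, ← h10]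
            have h11 : (s * (t : Ω ≃ₐ[ℚ] Ω) * s⁻¹) (s w) = s ((t : Ω ≃ₐ[ℚ] Ω) w) := by
              rw [← AlgEquiv.mul_apply, inv_mul_cancel_right]
              rfl
            rw [h11]
            have h12 : ∀ v : Ω, s⁻¹ (s v) = v := fun v => by
              rw [← AlgEquiv.mul_apply, inv_mul_cancel]; rfl
            rw [h12, ← AlgEquiv.mul_apply, inv_mul_cancel]
            rfl
          have h7 : χ (⟨t, hHG t.2⟩ : GG k) = χ ⟨s⁻¹ * c * s, hcck⟩ :=
            h₁.per (fixingSubgroup_le hL1 h9)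
          have h8 : χ' (⟨t, hHG t.2⟩ : GG k) = χ' ⟨s⁻¹ * c * s, hcck⟩ :=
            h₂.per (fixingSubgroup_le hL2 h9)
          have h10 : ext0 (GG k) f t = 0 := by
            unfold ext0
            rw [dif_pos (hHG t.2)]
            simp only [f, Pi.sub_apply]
            rw [h7, h8, heq _ hcck hIs, sub_self]
          simp only [h10, zero_mul]
          rfl
        · have h11 : thet U H t = 0 := if_neg ht
          simp only [h11, mul_zero]
          rfl
      rw [h0, ind_zero, sub_zero]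
  choose! ψ₁ ψ₂ c1 c2 g1 g2 hind using hterm
  have hart := artin hUG hfv.isCl
  rw [Finset.sum_congr rfl hind, Finset.sum_sub_distrib] at hart
  have hchar1 : IsCharOf (∑ H ∈ cycs (GG k) U, ψ₁ H) U := IsCharOf.sum _ _ c1
  have hchar2 : IsCharOf (∑ H ∈ cycs (GG k) U, ψ₂ H) U := IsCharOf.sum _ _ c2
  have hid : nm (U.relIndex (GG k)) χ + ∑ H ∈ cycs (GG k) U, ψ₂ H =
      nm (U.relIndex (GG k)) χ' + ∑ H ∈ cycs (GG k) U, ψ₁ H := by
    funext g
    have h12 := congrFun hart g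
    simp only [Pi.add_apply, Pi.sub_apply, nm, f] at h12 ⊢
    linear_combination -h12
  have h20 := congrArg (I.d k) hid
  rw [I.add k le_rfl _ _ ⟨L', WL', hkL', hχ.nm _⟩ ⟨L', WL', hkL', hchar2⟩,
    I.add k le_rfl _ _ ⟨L', WL', hkL', hχ'.nm _⟩ ⟨L', WL', hkL', hchar1⟩,
    I.d_sum le_rfl WL' hkL' _ _ c1 g1, I.d_sum le_rfl WL' hkL' _ _ c2 g2, add_zero, add_zero,
    I.d_nm le_rfl WL' hkL' hχ, I.d_nm le_rfl WL' hkL' hχ'] at h20
  have h21 := hA (U.relIndex (GG k)) (I.d k χ - I.d k χ') relIndex_ne (by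
    rw [smul_sub, h20, sub_self])
  exact sub_eq_zero.1 h21

variable {I}

theorem Vanishes.up {J : Type} {E : J → Type} [∀ j, Field (E j)] (h : I.Vanishes E)
    {K : IntermediateField ℚ Ω} (hk : k ≤ K) : (I.up hk).Vanishes E :=
  fun F hF => h F (hk.trans hF)

end Inv

/-- any two complex conjugations are conjugate -/
theorem IsCC.conj [hΩ : IsAlgClosure ℚ Ω] {c₁ c₂ : Ω ≃ₐ[ℚ] Ω} (h₁ : IsCC c₁) (h₂ : IsCC c₂) :
    ∃ s : Ω ≃ₐ[ℚ] Ω, c₂ = s * c₁ * s⁻¹ := by
  obtain ⟨ι₁, h₁⟩ := h₁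
  obtain ⟨ι₂, h₂⟩ := h₂
  obtain ⟨s, hs⟩ := exists_aut ι₂ ι₁
  refine ⟨s, ?_⟩
  have key : ∀ x, c₂ (s x) = s (c₁ x) := by
    intro x
    apply ι₂.injective
    rw [h₂, hs, hs, h₁]
  apply AlgEquiv.ext
  intro x
  have h3 := key (s⁻¹ x)
  have h4 : s (s⁻¹ x) = x := by rw [← AlgEquiv.mul_apply, mul_inv_cancel]; rfl
  rw [h4] at h3
  rw [h3]
  rfl

theorem IsCC.of_conj {c s : Ω ≃ₐ[ℚ] Ω} (h : IsCC c) : IsCC (s⁻¹ * c * s) := by
  obtain ⟨ι, hc⟩ := h
  refine ⟨ι.comp (s : Ω →+* Ω), fun x => ?_⟩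
  change ι (s (s⁻¹ (c (s x)))) = starRingEnd ℂ (ι (s x))
  rw [← hc]
  congr 1
  rw [← AlgEquiv.mul_apply, mul_inv_cancel]
  rfl

theorem IsCC.mul_self [hΩ : IsAlgClosure ℚ Ω] {c : Ω ≃ₐ[ℚ] Ω} (h : IsCC c) : c * c = 1 := by
  obtain ⟨ι, hc⟩ := h
  apply AlgEquiv.ext
  intro x
  exact c_sq hc x

end Pool.Agent.Q317.ST.G2
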