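import Pool.Agent.Q317.ST.Gen2

/-!
# Consequences for restrictions and for the base field `ℚ`
-/

set_option autoImplicit false

namespace Pool.Agent.Q317.ST

open scoped Classical

theorem ind_one_of_all {Γ : Type} [Group Γ] {G H : Subgroup Γ} [Finite (G ⧸ H.subgroupOf G)]
    {g : G} (h : ∀ x ∈ G, x⁻¹ * (g : Γ) * x ∈ H) :
    ind G H (fun _ => 1) g = (H.relIndex G : ℂ) := by
  have := Fintype.ofFinite (G ⧸ H.subgroupOf G)
  unfold ind
  rw [finsum_eq_sum_of_fintype]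
  have h1 : ∀ x : G ⧸ H.subgroupOf G,
      (if h : ((x.out : G) : Γ)⁻¹ * g * ((x.out : G) : Γ) ∈ H then (1 : ℂ) else 0) = 1 := by
    intro x
    rw [dif_pos (h _ x.out.2)]
  rw [Finset.sum_congr rfl fun x _ => h1 x, Finset.sum_const, nsmul_eq_mul, mul_one,
    Finset.card_univ, Subgroup.relIndex, Subgroup.index, Nat.card_eq_fintype_card]

namespace G2

open IntermediateField Polynomial

attribute [-instance] DivisionRing.toRatAlgebra

variable {Ω : Type} [Field Ω] [Algebra ℚ Ω] [hΩ : IsAlgClosure ℚ Ω]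

theorem finite_quot {K K' : IntermediateField ℚ Ω} (hf : FiniteDimensional ℚ K') :
    Finite (GG K ⧸ (GG K').subgroupOf (GG K)) := by
  have hnΩ := normalΩ (Ω := Ω)
  have hG : IsGalois ℚ Ω := ⟨⟩
  have i4 : (GG K').FiniteIndex := ⟨by
    rw [← IntermediateField.finrank_eq_fixingSubgroup_index]
    exact Module.finrank_pos.ne'⟩
  infer_instance

theorem finite_of_world {sol : Prop} {K L : IntermediateField ℚ Ω} (hL : InW sol L) (h : K ≤ L) :
    FiniteDimensional ℚ K := by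
  have := hL.1
  exact FiniteDimensional.of_injective (inclusion h).toLinearMap (inclusion_injective h)

theorem normal_of_world {sol : Prop} {L : IntermediateField ℚ Ω} (hL : InW sol L) :
    (GG L).Normal := by
  have hnΩ := normalΩ (Ω := Ω)
  have hG : IsGalois ℚ Ω := ⟨⟩
  have := hL.2.1
  have hGL : IsGalois ℚ L := ⟨⟩
  exact IsGalois.fixingSubgroup_normal_of_isGalois L

theorem IsArtin.induced {sol : Prop} {K K' : IntermediateField ℚ Ω} (hle : K ≤ K')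
    {χ : GG K' → ℂ} (h : IsArtin sol K' χ) : IsArtin sol K (ind (GG K) (GG K') χ) := by
  obtain ⟨L, hL, hK, h1⟩ := h
  have := finite_quot (K := K) (finite_of_world hL hK)
  exact ⟨L, hL, hle.trans hK, h1.induced (fixingSubgroup_le hle) (normal_of_world hL)
    (fixingSubgroup_le hK)⟩

/-- the restriction of a function -/
def res {K K' : IntermediateField ℚ Ω} (hle : K ≤ K') (χ : GG K → ℂ) : GG K' → ℂ :=
  fun g => χ ⟨g, fixingSubgroup_le hle g.2⟩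

namespace Inv

variable {sol : Prop} {k : IntermediateField ℚ Ω} {A : Type} [AddCommGroup A] (I : Inv sol k A)

/-- **Restriction to extensions without new complex places.** -/
theorem restriction {J : Type} [Finite J] {E : J → Type} [∀ j, Field (E j)]
    (hE : ∀ j, CharZero (E j)) (hnE : ∀ j, StarkNumbers.NonSq (E j))
    (hA : ∀ (n : ℕ) (a : A), n ≠ 0 → n • a = 0 → a = 0) (hC : I.Vanishes E)
    {K K' L : IntermediateField ℚ Ω} (hk : k ≤ K) (hle : K ≤ K') (hL : InW sol L) (hK' : K' ≤ L)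
    (hcc : ∀ c ∈ GG K, IsCC c → c ∈ GG K') {χ : GG K → ℂ} (hχ : IsCharOf χ (GG L)) :
    I.d K' (res hle χ) = (GG K').relIndex (GG K) • I.d K χ := by
  have hfq := finite_quot (K := K) (finite_of_world hL hK')
  have hres : IsCharOf (res hle χ) (GG L) := hχ.res (fixingSubgroup_le hle)
  rw [← I.ind K K' hk hle _ ⟨L, hL, hK', hres⟩,
    ← I.d_nm hk hL (hle.trans hK') hχ]
  have h1 : IsArtin sol K' (res hle χ) := ⟨L, hL, hK', hres⟩
  refine (I.up hk).eq_of_cc E hE hnE hA (hC.up hk) (h1.induced hle)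
    ⟨L, hL, hle.trans hK', hχ.nm _⟩ ?_
  intro c hc hcC
  have h2 := ind_res_mul (fixingSubgroup_le hle) hχ.isCl (fun _ => 1) (⟨c, hc⟩ : GG K)
  have h3 : (fun h : GG K' => χ ⟨h, fixingSubgroup_le hle h.2⟩ * 1) = res hle χ := by
    funext h
    rw [mul_one]
    rfl
  rw [h3] at h2
  rw [h2, ind_one_of_all]
  · unfold nm
    ring
  · intro x hx
    exact hcc _ ((GG K).mul_mem ((GG K).mul_mem ((GG K).inv_mem hx) hc) hx) hcC.of_conj

end Inv

/-- **The base field `ℚ`.** -/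
theorem Inv.vanish_of_one {sol : Prop} {A : Type} [AddCommGroup A]
    (I : Inv sol (⊥ : IntermediateField ℚ Ω) A) {J : Type} [Finite J] {E : J → Type}
    [∀ j, Field (E j)] (hE : ∀ j, CharZero (E j)) (hnE : ∀ j, StarkNumbers.NonSq (E j))
    (hA : ∀ (n : ℕ) (a : A), n ≠ 0 → n • a = 0 → a = 0) (hC : I.Vanishes E)
    {χ₀ : GG (⊥ : IntermediateField ℚ Ω) → ℂ} (hχ₀ : IsArtin sol ⊥ χ₀)
    {c : Ω ≃ₐ[ℚ] Ω} (hc : c ∈ GG (⊥ : IntermediateField ℚ Ω)) (hcC : IsCC c)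
    (hne : χ₀ ⟨c, hc⟩ ≠ 0) (h0 : I.d ⊥ χ₀ = 0) {K : IntermediateField ℚ Ω} {χ : GG K → ℂ}
    (hχ : IsArtin sol K χ) : I.d K χ = 0 := by
  rw [← I.ind ⊥ K le_rfl bot_le χ hχ]
  have hξ := hχ.induced bot_le
  set ξ := Pool.Agent.Q317.ST.ind (GG (⊥ : IntermediateField ℚ Ω)) (GG K) χ with hξdef
  obtain ⟨L₁, W₁, k₁, h₁⟩ := hξ
  obtain ⟨L₂, W₂, k₂, h₂⟩ := hχ₀
  have WL := W₁.sup W₂
  have hkL : (⊥ : IntermediateField ℚ Ω) ≤ L₁ ⊔ L₂ := bot_le
  have g₁ : IsCharOf ξ (GG (L₁ ⊔ L₂)) := h₁.mono (fixingSubgroup_le le_sup_left)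
  have g₂ : IsCharOf χ₀ (GG (L₁ ⊔ L₂)) := h₂.mono (fixingSubgroup_le le_sup_right)
  have hcc : (⟨c, hc⟩ : GG (⊥ : IntermediateField ℚ Ω)) * ⟨c, hc⟩ = 1 := Subtype.ext hcC.mul_self
  obtain ⟨a, b, hab⟩ := g₁.invol hcc
  obtain ⟨p, q, hpq⟩ := g₂.invol hcc
  have key : I.d ⊥ (nm p ξ + nm b χ₀) = I.d ⊥ (nm q ξ + nm a χ₀) := by
    refine I.eq_of_cc E hE hnE hA hC ⟨_, WL, hkL, (g₁.nm p).add (g₂.nm b)⟩
      ⟨_, WL, hkL, (g₁.nm q).add (g₂.nm a)⟩ ?_
    intro c' hc' hcC'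
    obtain ⟨s, hs⟩ := hcC.conj hcC'
    have hGt : ∀ g : Ω ≃ₐ[ℚ] Ω, g ∈ GG (⊥ : IntermediateField ℚ Ω) := by
      intro g
      rw [GG, IntermediateField.fixingSubgroup_bot]
      trivial
    have h5 : (⟨c', hc'⟩ : GG (⊥ : IntermediateField ℚ Ω)) =
        ⟨s, hGt s⟩ * ⟨c, hc⟩ * (⟨s, hGt s⟩)⁻¹ := Subtype.ext hs
    simp only [nm, Pi.add_apply]
    rw [h5, g₁.isCl, g₂.isCl, hab, hpq]
    ring
  rw [I.add ⊥ le_rfl _ _ ⟨_, WL, hkL, g₁.nm p⟩ ⟨_, WL, hkL, g₂.nm b⟩,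
    I.add ⊥ le_rfl _ _ ⟨_, WL, hkL, g₁.nm q⟩ ⟨_, WL, hkL, g₂.nm a⟩, I.d_nm le_rfl WL hkL g₁,
    I.d_nm le_rfl WL hkL g₁, I.d_nm le_rfl WL hkL g₂, I.d_nm le_rfl WL hkL g₂, h0, smul_zero,
    smul_zero, add_zero, add_zero] at key
  have hpq' : p ≠ q := by
    rintro rfl
    exact hne (by rw [hpq, sub_self])
  rcases lt_or_gt_of_ne hpq' with hlt | hlt
  · obtain ⟨r, rfl⟩ := Nat.exists_eq_add_of_lt hlt
    refine hA (r + 1) _ (Nat.succ_ne_zero r) ?_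
    rw [add_assoc, add_smul] at key
    exact left_eq_add.1 key
  · obtain ⟨r, rfl⟩ := Nat.exists_eq_add_of_lt hlt
    refine hA (r + 1) _ (Nat.succ_ne_zero r) ?_
    rw [add_assoc, add_smul] at key
    exact add_eq_left.1 key

end G2

end Pool.Agent.Q317.ST
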