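import Pool.Agent.Q317.ST.Ind

/-!
# The relation between induced class functions for affine groups over a prime field
-/

set_option autoImplicit false

namespace Pool.Agent.Q317.ST

open scoped Classical

variable {Γ : Type} [Group Γ]

theorem ind_res_mul {G H : Subgroup Γ} [Finite (G ⧸ H.subgroupOf G)] (hle : H ≤ G) {χ : G → ℂ}
    (hχ : IsCl G χ) (θ : H → ℂ) (g : G) :
    ind G H (fun h => χ ⟨h, hle h.2⟩ * θ h) g = χ g * ind G H θ g := by
  unfold ind
  have := Fintype.ofFinite (G ⧸ H.subgroupOf G)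
  rw [finsum_eq_sum_of_fintype, finsum_eq_sum_of_fintype, Finset.mul_sum]
  refine Finset.sum_congr rfl fun x _ => ?_
  split_ifs with h
  · have h1 : χ ⟨((x.out : G) : Γ)⁻¹ * g * ((x.out : G) : Γ), hle h⟩ = χ g := by
      have := hχ g x.out⁻¹
      rw [inv_inv] at this
      exact this
    change χ ⟨((x.out : G) : Γ)⁻¹ * g * ((x.out : G) : Γ), hle h⟩ * _ = _
    rw [h1]
  · rw [mul_zero]

/-- the data of a homomorphism to the affine group of `ℤ/ℓ` -/
structure Aff (ℓ : ℕ) (G H N : Subgroup Γ) where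
  /-- linear part -/
  u : G →* (ZMod ℓ)ˣ
  /-- translation part -/
  κ : G → ZMod ℓ
  mul : ∀ g h, κ (g * h) = κ g + u g * κ h
  surj : Function.Surjective κ
  hle : H ≤ G
  nle : N ≤ G
  memH : ∀ g : G, (g : Γ) ∈ H ↔ κ g = 0
  memN : ∀ g : G, (g : Γ) ∈ N ↔ u g = 1

namespace Aff

variable {ℓ : ℕ} {G H N : Subgroup Γ} (a : Aff ℓ G H N)

include a

theorem one : a.κ 1 = 0 := by
  have := a.mul 1 1
  simpa using this

theorem inv (g : G) : a.κ g⁻¹ = -((a.u g)⁻¹ : (ZMod ℓ)ˣ) * a.κ g := by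
  have h1 := a.mul g⁻¹ g
  rw [inv_mul_cancel, a.one, map_inv] at h1
  rw [neg_mul]
  exact (eq_neg_of_add_eq_zero_left h1.symm)

theorem eq_iff (x y : G) : (x : G ⧸ H.subgroupOf G) = y ↔ a.κ x = a.κ y := by
  rw [QuotientGroup.eq, Subgroup.mem_subgroupOf, a.memH, a.mul, a.inv, map_inv, neg_mul,
    neg_add_eq_sub, ← mul_sub, (a.u x)⁻¹.isUnit.mul_right_eq_zero, sub_eq_zero]
  exact eq_comm

theorem κ_out (x : G) : a.κ (x : G ⧸ H.subgroupOf G).out = a.κ x :=
  (a.eq_iff _ _).1 (QuotientGroup.out_eq' _)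

/-- the cosets of `H` -/
noncomputable def e : G ⧸ H.subgroupOf G ≃ ZMod ℓ :=
  Equiv.ofBijective (fun x => a.κ x.out) (by
    constructor
    · intro x y h
      have := (a.eq_iff x.out y.out).2 h
      rwa [QuotientGroup.out_eq', QuotientGroup.out_eq'] at this
    · intro j
      obtain ⟨g, hg⟩ := a.surj j
      exact ⟨(g : G ⧸ H.subgroupOf G), by rw [← hg]; exact a.κ_out g⟩)

theorem mem_conj (g x : G) : ((x : G) : Γ)⁻¹ * g * x ∈ H ↔ a.κ g + a.u g * a.κ x = a.κ x := by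
  have h1 : ((x : G) : Γ)⁻¹ * g * x = ((x⁻¹ * g * x : G) : Γ) := by push_cast; rfl
  rw [h1, a.memH, mul_assoc, a.mul, a.mul, a.inv, map_inv, neg_mul, neg_add_eq_sub, ← mul_sub,
    (a.u x)⁻¹.isUnit.mul_right_eq_zero, sub_eq_zero]

theorem indH [Fintype (ZMod ℓ)] (g : G) : ind G H (fun _ => 1) g =
    ∑ j : ZMod ℓ, if a.κ g + a.u g * j = j then (1 : ℂ) else 0 := by
  have := Fintype.ofEquiv _ a.e.symm
  unfold ind
  rw [finsum_eq_sum_of_fintype, ← Equiv.sum_comp a.e]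
  refine Finset.sum_congr rfl fun x _ => ?_
  have h1 : a.e x = a.κ x.out := rfl
  rw [h1]
  simp only [dite_eq_ite]
  congr 1
  exact propext (a.mem_conj g x.out)

theorem eqN_iff (x y : G) : (x : G ⧸ N.subgroupOf G) = y ↔ a.u x = a.u y := by
  rw [QuotientGroup.eq, Subgroup.mem_subgroupOf, a.memN, map_mul, map_inv, inv_mul_eq_one]

theorem u_out (x : G) : a.u (x : G ⧸ N.subgroupOf G).out = a.u x :=
  (a.eqN_iff _ _).1 (QuotientGroup.out_eq' _)

/-- the cosets of `N` -/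
noncomputable def eN : G ⧸ N.subgroupOf G ≃ a.u.range :=
  Equiv.ofBijective (fun x => ⟨a.u x.out, x.out, rfl⟩) (by
    constructor
    · intro x y h
      have := (a.eqN_iff x.out y.out).2 (congrArg Subtype.val h)
      rwa [QuotientGroup.out_eq', QuotientGroup.out_eq'] at this
    · rintro ⟨_, g, rfl⟩
      exact ⟨(g : G ⧸ N.subgroupOf G), Subtype.ext (a.u_out g)⟩)

theorem mem_conjN (g x : G) : ((x : G) : Γ)⁻¹ * g * x ∈ N ↔ a.u g = 1 := by
  have h1 : ((x : G) : Γ)⁻¹ * g * x = ((x⁻¹ * g * x : G) : Γ) := by push_cast; rfl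
  rw [h1, a.memN, map_mul, map_mul, map_inv, mul_comm, ← mul_assoc, mul_inv_cancel, one_mul]

theorem κ_conj {g : G} (hg : a.u g = 1) (x : G) :
    a.κ (x⁻¹ * g * x) = ((a.u x)⁻¹ : (ZMod ℓ)ˣ) * a.κ g := by
  rw [mul_assoc, a.mul, a.mul, a.inv, map_inv, hg]
  simp only [Units.val_one, one_mul, neg_mul]
  ring

/-- the linear character of `N` attached to `q` -/
noncomputable def θ (ψ : AddChar (ZMod ℓ) ℂ) (q : (ZMod ℓ)ˣ) (n : N) : ℂ :=
  ψ (q * a.κ ⟨n, a.nle n.2⟩)

theorem indN [Fintype (ZMod ℓ)] (ψ : AddChar (ZMod ℓ) ℂ) (q : (ZMod ℓ)ˣ) (g : G) :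
    ind G N (a.θ ψ q) g =
    if a.u g = 1 then ∑ v : a.u.range, ψ (q * ((v : (ZMod ℓ)ˣ)⁻¹ : (ZMod ℓ)ˣ) * a.κ g) else 0 := by
  have := Fintype.ofEquiv _ a.eN.symm
  unfold ind
  rw [finsum_eq_sum_of_fintype]
  split_ifs with hg
  · rw [← Equiv.sum_comp a.eN]
    refine Finset.sum_congr rfl fun x _ => ?_
    rw [dif_pos ((a.mem_conjN g x.out).2 hg)]
    unfold θ
    have h1 : (⟨((x.out : G) : Γ)⁻¹ * g * ((x.out : G) : Γ),
        a.nle ((a.mem_conjN g x.out).2 hg)⟩ : G) = x.out⁻¹ * g * x.out := Subtype.ext rfl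
    rw [h1, a.κ_conj hg, mul_assoc]
    rfl
  · apply Finset.sum_eq_zero
    intro x _
    rw [dif_neg fun h => hg ((a.mem_conjN g x.out).1 h)]

/-- the sum over representatives of the cosets of the range of `u` -/
theorem sum_units [Fintype (ZMod ℓ)] (f : (ZMod ℓ)ˣ → ℂ) :
    ∑ q : (ZMod ℓ)ˣ ⧸ a.u.range, ∑ v : a.u.range, f (q.out * (v : (ZMod ℓ)ˣ)⁻¹) =
      ∑ w : (ZMod ℓ)ˣ, f w := by
  rw [← Fintype.sum_prod_type']
  refine Fintype.sum_bijective
    (fun p : ((ZMod ℓ)ˣ ⧸ a.u.range) × a.u.range => p.1.out * (p.2 : (ZMod ℓ)ˣ)⁻¹) ?_ _ _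
    fun p => rfl
  constructor
  · rintro ⟨q, v⟩ ⟨q', v'⟩ h
    simp only at h
    have h1 : q = q' := by
      rw [← QuotientGroup.out_eq' q, ← QuotientGroup.out_eq' q', QuotientGroup.eq]
      have : q.out⁻¹ * q'.out = (v : (ZMod ℓ)ˣ)⁻¹ * v' := by
        have h2 : q.out = q'.out * (v' : (ZMod ℓ)ˣ)⁻¹ * v := by
          rw [← h, inv_mul_cancel_right]
        rw [h2]
        group
      rw [this]
      exact a.u.range.mul_mem (a.u.range.inv_mem v.2) v'.2
    subst h1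
    have h2 := mul_left_cancel h
    rw [inv_inj] at h2
    exact Prod.ext rfl (Subtype.ext h2)
  · intro w
    obtain ⟨h, hh⟩ := QuotientGroup.mk_out_eq_mul a.u.range w
    refine ⟨((w : (ZMod ℓ)ˣ ⧸ a.u.range), h), ?_⟩
    simp only
    rw [hh, mul_inv_cancel_right]

/-- **The relation.** -/
theorem relation [hp : Fact ℓ.Prime] {ψ : AddChar (ZMod ℓ) ℂ} (hψ : ψ.IsPrimitive) {χ : G → ℂ}
    (hχ : IsCl G χ) (g : G) :
    ind G H (fun h => χ ⟨h, a.hle h.2⟩) g = χ g +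
      ∑ q : (ZMod ℓ)ˣ ⧸ a.u.range, ind G N (fun n => χ ⟨n, a.nle n.2⟩ * a.θ ψ q.out n) g := by
  have i1 : Finite (G ⧸ H.subgroupOf G) := Finite.of_equiv _ a.e.symm
  have i2 : Finite (G ⧸ N.subgroupOf G) := Finite.of_equiv _ a.eN.symm
  have h1 : ind G H (fun h => χ ⟨h, a.hle h.2⟩) g = χ g * ind G H (fun _ => 1) g := by
    rw [← ind_res_mul a.hle hχ (fun _ => 1) g]
    simp
  rw [h1, a.indH]
  simp only [ind_res_mul a.nle hχ, a.indN]
  rw [← Finset.mul_sum, ← mul_one_add]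
  congr 1
  by_cases hg : a.u g = 1
  · simp only [hg, if_true, Units.val_one, one_mul, add_eq_right]
    have h2 := a.sum_units (fun w => ψ (w * a.κ g))
    simp only [Units.val_mul] at h2
    rw [h2]
    have h3 : ∑ j : ZMod ℓ, ψ (j * a.κ g) = if a.κ g = 0 then (ℓ : ℂ) else 0 := by
      have := AddChar.sum_mulShift (a.κ g) hψ
      rw [ZMod.card] at this
      rw [this]
      push_cast
      rfl
    have h4 : ∑ j : ZMod ℓ, ψ (j * a.κ g) = 1 + ∑ w : (ZMod ℓ)ˣ, ψ ((w : ZMod ℓ) * a.κ g) := by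
      rw [← Finset.add_sum_erase _ _ (Finset.mem_univ 0)]
      congr 1
      · simp
      · symm
        refine Finset.sum_bij (fun w _ => (w : ZMod ℓ)) ?_ ?_ ?_ ?_
        · intro w _
          exact Finset.mem_erase.2 ⟨w.ne_zero, Finset.mem_univ _⟩
        · intro w _ w' _ h
          exact Units.ext h
        · intro j hj
          exact ⟨Units.mk0 j (Finset.ne_of_mem_erase hj), Finset.mem_univ _, rfl⟩
        · intro w _
          rfl
    rw [← h4, h3]
    by_cases h0 : a.κ g = 0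
    · simp [h0]
    · simp [h0]
  · simp only [hg, if_false, Finset.sum_const_zero, add_zero]
    have hne : (1 - (a.u g : ZMod ℓ)) ≠ 0 := by
      intro h
      apply hg
      apply Units.ext
      rw [Units.val_one]
      exact (sub_eq_zero.1 h).symm
    have key : ∀ j : ZMod ℓ, a.κ g + a.u g * j = j ↔ j = a.κ g / (1 - (a.u g : ZMod ℓ)) := by
      intro j
      rw [eq_div_iff hne]
      constructor
      · intro h
        linear_combination h.symm
      · intro h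
        linear_combination -h
    simp only [key]
    simp

end Aff

end Pool.Agent.Q317.ST
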