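import Mathlib

/-!
# Induced class functions

For subgroups `H ≤ G` of a group and a function `χ` on `H`, the induced function on `G`; it is the
character of a representation if `χ` is.
-/

set_option autoImplicit false

namespace Pool.Agent.Q317.ST

open scoped Classical

variable {Γ : Type} [Group Γ]

/-- The induced function `g ↦ ∑ χ(x⁻¹ g x)`, the sum over the cosets `x H` of `G` with
`x⁻¹ g x ∈ H`. -/
noncomputable def ind (G H : Subgroup Γ) (χ : H → ℂ) (g : G) : ℂ :=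
  ∑ᶠ x : G ⧸ H.subgroupOf G,
    if h : ((x.out : G) : Γ)⁻¹ * g * ((x.out : G) : Γ) ∈ H then χ ⟨_, h⟩ else 0

/-- the value of the extension by zero -/
noncomputable def ext0 (H : Subgroup Γ) (χ : H → ℂ) (g : Γ) : ℂ := if h : g ∈ H then χ ⟨g, h⟩ else 0

theorem ind_eq (G H : Subgroup Γ) (χ : H → ℂ) (g : G) :
    ind G H χ g = ∑ᶠ x : G ⧸ H.subgroupOf G,
      ext0 H χ (((x.out : G) : Γ)⁻¹ * g * ((x.out : G) : Γ)) := rfl

/-- a class function on `H` -/
def IsCl (H : Subgroup Γ) (χ : H → ℂ) : Prop := ∀ g h : H, χ (h * g * h⁻¹) = χ g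

theorem out_mem {G H : Subgroup Γ} (y : G) :
    ∃ h ∈ H, (((QuotientGroup.mk y : G ⧸ H.subgroupOf G).out : G) : Γ) = y * h := by
  obtain ⟨h, hh⟩ := QuotientGroup.mk_out_eq_mul (H.subgroupOf G) y
  refine ⟨(h : G), ?_, ?_⟩
  · exact h.2
  · rw [hh]; rfl

theorem ext0_conj {H : Subgroup Γ} {χ : H → ℂ} (hχ : IsCl H χ) (g h : Γ) (hh : h ∈ H) :
    ext0 H χ (h * g * h⁻¹) = ext0 H χ g := by
  unfold ext0
  by_cases hg : g ∈ H
  · have h1 : h * g * h⁻¹ ∈ H := H.mul_mem (H.mul_mem hh hg) (H.inv_mem hh)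
    rw [dif_pos h1, dif_pos hg]
    exact hχ ⟨g, hg⟩ ⟨h, hh⟩
  · have h1 : h * g * h⁻¹ ∉ H := by
      intro h1
      apply hg
      have h2 : g = h⁻¹ * (h * g * h⁻¹) * h := by group
      rw [h2]
      exact H.mul_mem (H.mul_mem (H.inv_mem hh) h1) hh
    rw [dif_neg h1, dif_neg hg]

/-- any representative may be used -/
theorem ext0_out {G H : Subgroup Γ} {χ : H → ℂ} (hχ : IsCl H χ) (g y : G) :
    ext0 H χ ((((QuotientGroup.mk y : G ⧸ H.subgroupOf G).out : G) : Γ)⁻¹ * g *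
      (((QuotientGroup.mk y : G ⧸ H.subgroupOf G).out : G) : Γ)) =
    ext0 H χ ((y : Γ)⁻¹ * g * y) := by
  obtain ⟨h, hh, e⟩ := out_mem (H := H) y
  rw [e]
  have h1 : ((y : Γ) * h)⁻¹ * g * (y * h) = h⁻¹ * ((y : Γ)⁻¹ * g * y) * h⁻¹⁻¹ := by group
  rw [h1, ext0_conj hχ _ _ (H.inv_mem hh)]

/-- matrix representations with a given character -/
def IsCharOf {G : Subgroup Γ} (χ : G → ℂ) (U : Subgroup Γ) : Prop :=
  ∃ (n : ℕ) (ρ : G →* Matrix (Fin n) (Fin n) ℂ),
    (∀ g : G, (g : Γ) ∈ U → ρ g = 1) ∧ ∀ g, χ g = (ρ g).trace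

theorem IsCharOf.isCl {G U : Subgroup Γ} {χ : G → ℂ} (h : IsCharOf χ U) : IsCl G χ := by
  obtain ⟨n, ρ, -, h2⟩ := h
  intro g h
  rw [h2, h2, map_mul, Matrix.trace_mul_comm, ← map_mul, ← mul_assoc, inv_mul_cancel, one_mul]

theorem IsCharOf.mono {G U U' : Subgroup Γ} {χ : G → ℂ} (h : IsCharOf χ U) (hU : U' ≤ U) :
    IsCharOf χ U' := by
  obtain ⟨n, ρ, h1, h2⟩ := h
  exact ⟨n, ρ, fun g hg => h1 g (hU hg), h2⟩

/-- a representation on matrices with any finite index type -/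
theorem IsCharOf.of_index {G U : Subgroup Γ} {χ : G → ℂ} {ι : Type} [Fintype ι] [DecidableEq ι]
    (ρ : G →* Matrix ι ι ℂ) (h1 : ∀ g : G, (g : Γ) ∈ U → ρ g = 1) (h2 : ∀ g, χ g = (ρ g).trace) :
    IsCharOf χ U := by
  let e := Fintype.equivFin ι
  refine ⟨Fintype.card ι, ((Matrix.reindexAlgEquiv ℂ ℂ e : Matrix ι ι ℂ →* _).comp ρ), ?_, ?_⟩
  · intro g hg
    simp [h1 g hg]
  · intro g
    rw [h2 g]
    simp only [MonoidHom.coe_comp, Function.comp_apply]
    change _ = (Matrix.reindex e e (ρ g)).trace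
    simp only [Matrix.trace, Matrix.diag_apply, Matrix.reindex_apply, Matrix.submatrix_apply]
    exact (Equiv.sum_comp e.symm fun i => (ρ g) i i).symm

theorem IsCharOf.zero {G U : Subgroup Γ} : IsCharOf (0 : G → ℂ) U := by
  refine ⟨0, 1, fun _ _ => rfl, fun g => ?_⟩
  simp

theorem IsCharOf.add {G U : Subgroup Γ} {χ₁ χ₂ : G → ℂ} (h1 : IsCharOf χ₁ U)
    (h2 : IsCharOf χ₂ U) : IsCharOf (χ₁ + χ₂) U := by
  obtain ⟨n, ρ, a1, a2⟩ := h1
  obtain ⟨m, σ, b1, b2⟩ := h2
  refine IsCharOf.of_index (ι := Fin n ⊕ Fin m)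
    { toFun := fun g => Matrix.fromBlocks (ρ g) 0 0 (σ g)
      map_one' := by simp
      map_mul' := fun g h => by simp [Matrix.fromBlocks_multiply] } ?_ ?_
  · intro g hg
    simp [a1 g hg, b1 g hg]
  · intro g
    simp [a2 g, b2 g, Matrix.trace, Matrix.diag, Fintype.sum_sum_type]

theorem IsCharOf.sum {G U : Subgroup Γ} {ι : Type} (s : Finset ι) (χ : ι → G → ℂ)
    (h : ∀ i ∈ s, IsCharOf (χ i) U) : IsCharOf (∑ i ∈ s, χ i) U := by
  induction s using Finset.induction_on with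
  | empty => simpa using IsCharOf.zero
  | insert a s ha ih =>
    rw [Finset.sum_insert ha]
    exact (h a (Finset.mem_insert_self _ _)).add
      (ih fun i hi => h i (Finset.mem_insert_of_mem hi))

/-- product with a linear character -/
theorem IsCharOf.mul_lin {G U : Subgroup Γ} {χ : G → ℂ} (h : IsCharOf χ U) (θ : G →* ℂ)
    (hθ : ∀ g : G, (g : Γ) ∈ U → θ g = 1) : IsCharOf (fun g => χ g * θ g) U := by
  obtain ⟨n, ρ, h1, h2⟩ := h
  refine ⟨n, { toFun := fun g => θ g • ρ g, map_one' := by simp, map_mul' := fun g h => ?_ }, ?_, ?_⟩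
  · simp only [map_mul, Matrix.smul_mul, Matrix.mul_smul, smul_smul]
    rw [mul_comm (θ h) (θ g)]
  · intro g hg
    simp [h1 g hg, hθ g hg]
  · intro g
    simp [h2 g, mul_comm]

/-- restriction -/
theorem IsCharOf.res {G H U : Subgroup Γ} (hle : H ≤ G) {χ : G → ℂ} (h : IsCharOf χ U) :
    IsCharOf (fun g : H => χ ⟨g, hle g.2⟩) U := by
  obtain ⟨n, ρ, h1, h2⟩ := h
  refine ⟨n, ρ.comp (Subgroup.inclusion hle), ?_, ?_⟩
  · intro g hg
    exact h1 _ hg
  · intro g
    exact h2 _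

section

variable {G H U : Subgroup Γ} [Fintype (G ⧸ H.subgroupOf G)] {n : ℕ}
  (ρ : H →* Matrix (Fin n) (Fin n) ℂ)

/-- extension by zero -/
noncomputable def rext (g : Γ) : Matrix (Fin n) (Fin n) ℂ := if h : g ∈ H then ρ ⟨g, h⟩ else 0

theorem rext_of_mem {g : Γ} (h : g ∈ H) : rext ρ g = ρ ⟨g, h⟩ := dif_pos h

theorem rext_of_not {g : Γ} (h : g ∉ H) : rext ρ g = 0 := dif_neg h

theorem rext_mul {g h : Γ} (hg : g ∈ H) (hh : h ∈ H) : rext ρ (g * h) = rext ρ g * rext ρ h := by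
  rw [rext_of_mem ρ hg, rext_of_mem ρ hh, rext_of_mem ρ (H.mul_mem hg hh), ← map_mul]
  rfl

/-- the induced matrices -/
noncomputable def indMat (g : G) : Matrix ((G ⧸ H.subgroupOf G) × Fin n)
    ((G ⧸ H.subgroupOf G) × Fin n) ℂ :=
  Matrix.of fun p q => rext ρ (((p.1.out : G) : Γ)⁻¹ * g * ((q.1.out : G) : Γ)) p.2 q.2

theorem indMat_mul (g g' : G) : indMat (G := G) ρ (g * g') = indMat ρ g * indMat ρ g' := by
  ext ⟨x, i⟩ ⟨z, k⟩
  rw [Matrix.mul_apply, Fintype.sum_prod_type]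
  simp only [indMat, Matrix.of_apply]
  -- the only coset `y` with a contribution is the one of `g' z`
  set y₀ : G ⧸ H.subgroupOf G := QuotientGroup.mk (g' * z.out) with hy₀
  obtain ⟨h₀, hh₀, e₀⟩ := out_mem (H := H) (g' * z.out : G)
  rw [← hy₀] at e₀
  have hz : ((y₀.out : G) : Γ)⁻¹ * g' * ((z.out : G) : Γ) = h₀⁻¹ := by
    rw [e₀]
    push_cast
    group
  rw [Finset.sum_eq_single y₀]
  · rw [hz]
    have hmul : ∀ A B : Matrix (Fin n) (Fin n) ℂ, ∑ j, A i j * B j k = (A * B) i k :=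
      fun A B => (Matrix.mul_apply).symm
    rw [hmul]
    by_cases hm : ((x.out : G) : Γ)⁻¹ * g * ((y₀.out : G) : Γ) ∈ H
    · rw [← rext_mul ρ hm (H.inv_mem hh₀)]
      have h3 : ((x.out : G) : Γ)⁻¹ * ((g * g' : G) : Γ) * ((z.out : G) : Γ) =
          ((x.out : G) : Γ)⁻¹ * g * ((y₀.out : G) : Γ) * h₀⁻¹ := by
        rw [e₀]
        push_cast
        group
      rw [h3]
    · rw [rext_of_not ρ hm, zero_mul]
      have h2 : ((x.out : G) : Γ)⁻¹ * ((g * g' : G) : Γ) * ((z.out : G) : Γ) ∉ H := by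
        intro h2
        apply hm
        have h3 : ((x.out : G) : Γ)⁻¹ * g * ((y₀.out : G) : Γ) =
            ((x.out : G) : Γ)⁻¹ * ((g * g' : G) : Γ) * ((z.out : G) : Γ) * h₀ := by
          rw [e₀]
          push_cast
          group
        rw [h3]
        exact H.mul_mem h2 hh₀
      rw [rext_of_not ρ h2]
  · intro y _ hy
    apply Finset.sum_eq_zero
    intro j _
    have h2 : ((y.out : G) : Γ)⁻¹ * g' * ((z.out : G) : Γ) ∉ H := by
      intro h2
      apply hy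
      rw [hy₀]
      have h3 : y = QuotientGroup.mk y.out := (QuotientGroup.out_eq' y).symm
      rw [h3, QuotientGroup.eq]
      rw [Subgroup.mem_subgroupOf]
      push_cast
      rw [← mul_assoc]
      exact h2
    rw [rext_of_not ρ h2]
    simp
  · intro h
    exact absurd (Finset.mem_univ _) h

theorem indMat_one : indMat (G := G) ρ 1 = 1 := by
  ext ⟨x, i⟩ ⟨z, k⟩
  simp only [indMat, Matrix.of_apply]
  by_cases hxz : x = z
  · subst hxz
    have h1 : ((x.out : G) : Γ)⁻¹ * ((1 : G) : Γ) * ((x.out : G) : Γ) = 1 := by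
      push_cast
      group
    rw [h1, rext_of_mem ρ H.one_mem]
    have h2 : (⟨1, H.one_mem⟩ : H) = 1 := rfl
    rw [h2, map_one]
    by_cases hik : i = k
    · subst hik; simp
    · rw [Matrix.one_apply_ne hik, Matrix.one_apply_ne]
      intro h
      exact hik (Prod.mk.inj h).2
  · have h2 : ((x.out : G) : Γ)⁻¹ * ((1 : G) : Γ) * ((z.out : G) : Γ) ∉ H := by
      intro h2
      apply hxz
      have h3 : x = QuotientGroup.mk x.out := (QuotientGroup.out_eq' x).symm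
      have h4 : z = QuotientGroup.mk z.out := (QuotientGroup.out_eq' z).symm
      rw [h3, h4, QuotientGroup.eq, Subgroup.mem_subgroupOf]
      push_cast at h2 ⊢
      rw [mul_one] at h2
      exact h2
    rw [rext_of_not ρ h2, Matrix.one_apply_ne]
    · rfl
    · intro h
      exact hxz (Prod.mk.inj h).1

end

/-- **Induced characters are characters.** -/
theorem IsCharOf.induced {G H U : Subgroup Γ} (hUG : H ≤ G) [Finite (G ⧸ H.subgroupOf G)]
    (hU : U.Normal) (hUH : U ≤ H) {χ : H → ℂ} (h : IsCharOf χ U) : IsCharOf (ind G H χ) U := by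
  have := Fintype.ofFinite (G ⧸ H.subgroupOf G)
  obtain ⟨n, ρ, h1, h2⟩ := h
  refine IsCharOf.of_index (ι := (G ⧸ H.subgroupOf G) × Fin n)
    { toFun := indMat ρ, map_one' := indMat_one ρ, map_mul' := indMat_mul ρ } ?_ ?_
  · intro g hg
    have key : ∀ x : G, ((x : G) : Γ)⁻¹ * g * x ∈ U := fun x => by
      have := hU.conj_mem (g : Γ) hg ((x : Γ)⁻¹)
      simpa using this
    change indMat ρ g = 1
    rw [← indMat_one ρ]
    ext ⟨x, i⟩ ⟨z, k⟩
    simp only [indMat, Matrix.of_apply]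
    have e : ((x.out : G) : Γ)⁻¹ * g * ((z.out : G) : Γ) =
        (((x.out : G) : Γ)⁻¹ * g * ((x.out : G) : Γ)) *
          (((x.out : G) : Γ)⁻¹ * ((1 : G) : Γ) * ((z.out : G) : Γ)) := by
      push_cast
      group
    rw [e]
    by_cases hm : ((x.out : G) : Γ)⁻¹ * ((1 : G) : Γ) * ((z.out : G) : Γ) ∈ H
    · rw [rext_mul ρ (hUH (key _)) hm, rext_of_mem ρ (hUH (key _)), h1 _ (key _), one_mul]
    · rw [rext_of_not ρ hm, rext_of_not ρ]
      intro h3
      exact hm ((H.mul_mem_cancel_left (hUH (key _))).1 h3)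
  · intro g
    change ind G H χ g = (indMat ρ g).trace
    rw [Matrix.trace, Fintype.sum_prod_type, ind_eq, finsum_eq_sum_of_fintype]
    refine Finset.sum_congr rfl fun x _ => ?_
    simp only [Matrix.diag_apply, indMat, Matrix.of_apply]
    unfold ext0
    split_ifs with hm
    · rw [h2, rext_of_mem ρ hm]
      rfl
    · rw [rext_of_not ρ hm]
      simp

end Pool.Agent.Q317.ST
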