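import Pool.Agent.Q317.ST.Defs

/-!
# The lines and the quadruples with sum zero of a vector space over the field with four elements
-/

set_option autoImplicit false
set_option linter.unusedSectionVars false

namespace Pool.Agent.Q317.ST

section

variable {K : Type} [Field K] [Fintype K] [CharP K 2] (hK : Fintype.card K = 4)
variable {V : Type} [AddCommGroup V] [Module K V]

/-- The line through `x` with direction `d`. -/
def line (K : Type) [Field K] {V : Type} [AddCommGroup V] [Module K V] (x d : V) : Set V :=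
  {v | ∃ t : K, v = x + t • d}

/-- The lines. -/
def Lines (K : Type) [Field K] (V : Type) [AddCommGroup V] [Module K V] : Set (Set V) :=
  {b | ∃ x d : V, d ≠ 0 ∧ b = line K x d}

/-- The sets of four vectors with sum zero. -/
def Quads (V : Type) [AddCommGroup V] : Set (Set V) :=
  {b | ∃ s : Finset V, s.card = 4 ∧ ∑ v ∈ s, v = 0 ∧ b = (s : Set V)}

theorem line_eq {x d u v : V} (hu : u ∈ line K x d) (hv : v ∈ line K x d) (huv : u ≠ v) :
    line K x d = line K u (v - u) := by
  obtain ⟨s, rfl⟩ := hu
  obtain ⟨t, rfl⟩ := hv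
  have hst : t - s ≠ 0 := by
    intro h
    apply huv
    rw [sub_eq_zero.1 h]
  have e : x + t • d - (x + s • d) = (t - s) • d := by
    rw [sub_smul]
    abel
  rw [e]
  ext w
  constructor
  · rintro ⟨r, rfl⟩
    refine ⟨(r - s) * (t - s)⁻¹, ?_⟩
    rw [smul_smul, mul_assoc, inv_mul_cancel₀ hst, mul_one, sub_smul]
    abel
  · rintro ⟨r, rfl⟩
    refine ⟨s + r * (t - s), ?_⟩
    rw [smul_smul, add_smul]
    abel

theorem self_mem (x d : V) : x ∈ line K x d := ⟨0, by rw [zero_smul, add_zero]⟩
theorem snd_mem (x y : V) : y ∈ line K x (y - x) := ⟨1, by rw [one_smul]; abel⟩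

/-- An image of a line. -/
theorem image_line {g : Equiv.Perm V} (hg : Preserves g (Lines K V)) {x y : V} (hxy : x ≠ y) :
    g '' line K x (y - x) = line K (g x) (g y - g x) := by
  have h1 : g '' line K x (y - x) ∈ Lines K V := by
    rw [← hg]
    exact ⟨_, ⟨x, y - x, sub_ne_zero.2 (Ne.symm hxy), rfl⟩, rfl⟩
  obtain ⟨x', d', _, h2⟩ := h1
  rw [h2]
  apply line_eq
  · rw [← h2]
    exact ⟨x, self_mem x _, rfl⟩
  · rw [← h2]
    exact ⟨y, snd_mem x y, rfl⟩
  · exact fun h => hxy (g.injective h)

theorem col_image {g : Equiv.Perm V} (hg : Preserves g (Lines K V)) {x y z : V} (hxy : x ≠ y) :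
    z ∈ line K x (y - x) ↔ g z ∈ line K (g x) (g y - g x) := by
  rw [← image_line hg hxy]
  constructor
  · intro h
    exact ⟨z, h, rfl⟩
  · rintro ⟨w, hw, hwz⟩
    rwa [← g.injective hwz]

theorem add_self_K (a : K) : a + a = 0 := CharTwo.add_self_eq_zero a

theorem add_self_V (K : Type) [Field K] [CharP K 2] {V : Type} [AddCommGroup V] [Module K V]
    (x : V) : x + x = 0 := by
  have h : ((1 : K) + 1) • x = 0 := by rw [CharTwo.add_self_eq_zero, zero_smul]
  rwa [add_smul, one_smul] at h

theorem exists_alpha (hK : Fintype.card K = 4) : ∃ a : K, a ≠ 0 ∧ a ≠ 1 := by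
  classical
  by_contra hc
  push Not at hc
  have h : (Finset.univ : Finset K) ⊆ {0, 1} := by
    intro a _
    by_cases h0 : a = 0
    · simp [h0]
    · simp [hc a h0]
  have := Finset.card_le_card h
  rw [Finset.card_univ, hK] at this
  have h2 := Finset.card_le_two (a := (0 : K)) (b := 1)
  omega

theorem alpha_sq (hK : Fintype.card K = 4) {a : K} (h0 : a ≠ 0) (h1 : a ≠ 1) : a ^ 2 = a + 1 := by
  have h4 : a ^ 4 = a := by
    have := FiniteField.pow_card a
    rwa [hK] at this
  have h5 : a * (a - 1) * (a ^ 2 + a + 1) = 0 := by linear_combination h4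
  have h6 := (mul_eq_zero.1 h5).resolve_left (mul_ne_zero h0 (sub_ne_zero.2 h1))
  have h7 : a + a = 0 := add_self_K a
  have h8 : (1 : K) + 1 = 0 := add_self_K 1
  linear_combination h6 - h7 - h8

/-- Two elements different from `0` and `1` are equal or their sum is `1`. -/
theorem two_elts (hK : Fintype.card K = 4) {a b : K} (ha0 : a ≠ 0) (ha1 : a ≠ 1) (hb0 : b ≠ 0)
    (hb1 : b ≠ 1) : a = b ∨ b = a + 1 := by
  have h1 := alpha_sq hK ha0 ha1
  have h2 := alpha_sq hK hb0 hb1
  have h3 : (a - b) * (a + b + 1) = 0 := by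
    have h6 : a + a = 0 := add_self_K a
    have h7 : b + b = 0 := add_self_K b
    linear_combination h1 - h2 + h6 - h7
  rcases mul_eq_zero.1 h3 with h | h
  · exact Or.inl (sub_eq_zero.1 h)
  · right
    have h6 : a + a = 0 := add_self_K a
    have h8 : (1 : K) + 1 = 0 := add_self_K 1
    linear_combination h - h6 - h8

/-- The image of a parallel. -/
theorem parallel (hK : Fintype.card K = 4) {g : Equiv.Perm V} (hg : Preserves g (Lines K V))
    {x y z : V} (hxy : x ≠ y) (hz : z ∉ line K x (y - x)) :
    ∃ t : K, g (z + (y - x)) = g z + t • (g y - g x) := by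
  obtain ⟨a, ha0, ha1⟩ := exists_alpha hK
  have ha2 := alpha_sq hK ha0 ha1
  have h2' : (2 : K) = 0 := CharTwo.two_eq_zero
  set z' : V := z + a • (y - x) with hz'
  set p : V := x + a ^ 2 • (y - x) + a • (z - x) with hp
  have hd : y - x ≠ 0 := sub_ne_zero.2 (Ne.symm hxy)
  -- independence
  have hind : ∀ r t : K, r • (y - x) + t • (z - x) = 0 → r = 0 ∧ t = 0 := by
    intro r t h
    have ht : t = 0 := by
      by_contra ht
      apply hz
      refine ⟨-(t⁻¹ * r), ?_⟩
      have h1 : t⁻¹ • (r • (y - x) + t • (z - x)) = 0 := by rw [h, smul_zero]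
      rw [smul_add, smul_smul, smul_smul, inv_mul_cancel₀ ht, one_smul] at h1
      have h3 : z - x = -((t⁻¹ * r) • (y - x)) := by
        rw [← add_eq_zero_iff_eq_neg, add_comm]
        exact h1
      rw [neg_smul, ← h3]
      abel
    rw [ht, zero_smul, add_zero] at h
    exact ⟨(smul_eq_zero.1 h).resolve_right hd, ht⟩
  have hpx : p ≠ x := by
    intro h
    have h1 : a ^ 2 • (y - x) + a • (z - x) = 0 := by
      have : p - x = 0 := by rw [h, sub_self]
      rw [← this, hp]
      abel
    exact ha0 (hind _ _ h1).2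
  have hpy : p ≠ y := by
    intro h
    have h1 : (a ^ 2 - 1) • (y - x) + a • (z - x) = 0 := by
      have : p - y = 0 := by rw [h, sub_self]
      rw [← this, hp]
      module
    exact ha0 (hind _ _ h1).2
  have hpz' : z' ≠ p := by
    intro h
    have h1 : (a - a ^ 2) • (y - x) + (1 - a) • (z - x) = 0 := by
      have : z' - p = 0 := by rw [h, sub_self]
      rw [← this, hp, hz']
      module
    exact ha1 (sub_eq_zero.1 (hind _ _ h1).2).symm
  have hpz : z ≠ p := by
    intro h
    have h1 : (-a ^ 2) • (y - x) + (1 - a) • (z - x) = 0 := by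
      have : z - p = 0 := by rw [← h, sub_self]
      rw [← this, hp]
      module
    exact ha1 (sub_eq_zero.1 (hind _ _ h1).2).symm
  have hz'x : z' ≠ x := by
    intro h
    have h1 : a • (y - x) + (1 : K) • (z - x) = 0 := by
      have : z' - x = 0 := by rw [h, sub_self]
      rw [← this, hz']
      module
    exact one_ne_zero (hind _ _ h1).2
  have hzy : z ≠ y := by
    rintro rfl
    exact hz (snd_mem x z)
  -- the two lines through `p`
  have c1 : z' ∈ line K p (x - p) := by
    refine ⟨a, ?_⟩
    rw [hz', hp]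
    match_scalars
    · linear_combination ha2 + h2'
    · linear_combination a * ha2 + a * h2'
    · linear_combination (-1 - a) * ha2 + (-1 - a) * h2'
  have c2 : z ∈ line K p (y - p) := by
    refine ⟨a, ?_⟩
    rw [hp]
    match_scalars
    · linear_combination ha2 + h2'
    · linear_combination (-1 - a) * ha2 - h2'
    · linear_combination a * ha2
  -- the parallel
  have c3 : z + (y - x) ∈ line K z (z' - z) := by
    refine ⟨a⁻¹, ?_⟩
    rw [hz', add_sub_cancel_left, smul_smul, inv_mul_cancel₀ ha0, one_smul]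
  have hz'z : z ≠ z' := by
    intro h
    have h1 : a • (y - x) + (0 : K) • (z - x) = 0 := by
      have : z' - z = 0 := by rw [← h, sub_self]
      rw [← this, hz']
      module
    exact ha0 (hind _ _ h1).1
  -- disjointness
  have hdis : ∀ q, q ∈ line K x (y - x) → q ∈ line K z (z' - z) → False := by
    rintro q ⟨r, rfl⟩ ⟨t, ht⟩
    have h1 : (t * a - r) • (y - x) + (1 : K) • (z - x) = 0 := by
      have : z + t • (z' - z) - (x + r • (y - x)) = 0 := by rw [← ht, sub_self]
      rw [← this, hz']
      module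
    exact one_ne_zero (hind _ _ h1).2
  -- images
  obtain ⟨l, hl⟩ := (col_image hg hpx).1 c1
  obtain ⟨m, hm⟩ := (col_image hg hpy).1 c2
  obtain ⟨t, ht⟩ := (col_image hg hz'z).1 c3
  have hgd : ∀ q, q ∈ line K (g x) (g y - g x) → q ∈ line K (g z) (g z' - g z) → False := by
    intro q h1 h2
    obtain ⟨u, rfl⟩ := g.surjective q
    exact hdis u ((col_image hg hxy).2 h1) ((col_image hg hz'z).2 h2)
  have hl0 : l ≠ 0 := by
    rintro rfl
    rw [zero_smul, add_zero] at hl
    exact hpz' (g.injective hl)
  have hl1 : l ≠ 1 := by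
    rintro rfl
    rw [one_smul, add_sub_cancel] at hl
    exact hz'x (g.injective hl)
  have hm0 : m ≠ 0 := by
    rintro rfl
    rw [zero_smul, add_zero] at hm
    exact hpz (g.injective hm)
  have hm1 : m ≠ 1 := by
    rintro rfl
    rw [one_smul, add_sub_cancel] at hm
    exact hzy (g.injective hm)
  have hl2 := alpha_sq hK hl0 hl1
  rcases two_elts hK hl0 hl1 hm0 hm1 with hlm | hlm
  · refine ⟨-(t * l), ?_⟩
    rw [ht, hl, hm, ← hlm]
    module
  · exfalso
    apply hgd (g x + m ^ 2 • (g y - g x)) ⟨_, rfl⟩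
    refine ⟨l, ?_⟩
    rw [hl, hm, hlm]
    match_scalars
    · linear_combination (-l ^ 2 - l) * h2'
    · linear_combination (l * (l + 1)) * h2'
    · ring

theorem neg_eq_self (K : Type) [Field K] [CharP K 2] {V : Type} [AddCommGroup V] [Module K V]
    (x : V) : -x = x := by
  rw [neg_eq_iff_add_eq_zero, add_self_V K]

theorem additive_of_not_col (hK : Fintype.card K = 4) {g : Equiv.Perm V}
    (hg : Preserves g (Lines K V)) {x y z : V} (hxy : x ≠ y) (hxz : x ≠ z)
    (hz : z ∉ line K x (y - x)) : g (x + y + z) = g x + g y + g z := by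
  have hy : y ∉ line K x (z - x) := by
    rintro ⟨t, ht⟩
    apply hz
    have h1 : y - x = t • (z - x) := by
      rw [sub_eq_iff_eq_add, add_comm]
      exact ht
    have ht0 : t ≠ 0 := by
      rintro rfl
      rw [zero_smul, sub_eq_zero] at h1
      exact hxy h1.symm
    refine ⟨t⁻¹, ?_⟩
    rw [h1, smul_smul, inv_mul_cancel₀ ht0, one_smul]
    abel
  obtain ⟨s, hs⟩ := parallel hK hg hxy hz
  obtain ⟨t, ht⟩ := parallel hK hg hxz hy
  have e1 : z + (y - x) = x + y + z := by
    rw [sub_eq_add_neg, neg_eq_self K]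
    abel
  have e2 : y + (z - x) = x + y + z := by
    rw [sub_eq_add_neg, neg_eq_self K]
    abel
  rw [e1] at hs
  rw [e2] at ht
  have hgz : g z ∉ line K (g x) (g y - g x) := fun h => hz ((col_image hg hxy).2 h)
  have ht1 : t = 1 := by
    by_contra hne
    apply hgz
    have hne' : 1 - t ≠ 0 := sub_ne_zero.2 (Ne.symm hne)
    have h1 : (1 - t) • (g z - g x) = (1 - s) • (g y - g x) := by
      have h2 : g z + s • (g y - g x) - (g y + t • (g z - g x)) = 0 := by rw [← hs, ← ht, sub_self]
      rw [← sub_eq_zero, ← h2]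
      module
    refine ⟨(1 - t)⁻¹ * (1 - s), ?_⟩
    rw [← smul_smul, ← h1, smul_smul, inv_mul_cancel₀ hne', one_smul]
    abel
  rw [ht, ht1, one_smul, sub_eq_add_neg, neg_eq_self K]
  abel

theorem additive_of_col (hK : Fintype.card K = 4) {g : Equiv.Perm V}
    (hg : Preserves g (Lines K V)) {x y z : V} (hxy : x ≠ y) (hxz : x ≠ z) (hyz : y ≠ z)
    (hz : z ∈ line K x (y - x)) : g (x + y + z) = g x + g y + g z := by
  have h2' : (2 : K) = 0 := CharTwo.two_eq_zero
  obtain ⟨t, ht⟩ := hz
  have hw : x + y + z ∈ line K x (y - x) := by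
    refine ⟨t + 1, ?_⟩
    rw [ht]
    have h3 : x + y + (x + t • (y - x)) = x + (t + 1) • (y - x) + (x + x) := by module
    rw [h3, add_self_V K, add_zero]
  have hwz : x + y + z ≠ z := by
    intro h
    apply hxy
    have h3 : x + y = 0 := by simpa using h
    rw [← neg_eq_self K y]
    exact eq_neg_of_add_eq_zero_left h3
  have hwx : x + y + z ≠ x := by
    intro h
    apply hyz
    have h3 : y + z = 0 := by
      rw [add_assoc] at h
      simpa using h
    rw [← neg_eq_self K z]
    exact eq_neg_of_add_eq_zero_left h3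
  have hwy : x + y + z ≠ y := by
    intro h
    apply hxz
    have h3 : x + z = 0 := by
      have h4 : x + y + z = (x + z) + y := by abel
      rw [h4] at h
      simpa using h
    rw [← neg_eq_self K z]
    exact eq_neg_of_add_eq_zero_left h3
  obtain ⟨l, hl⟩ := (col_image hg hxy).1 (show z ∈ line K x (y - x) from ⟨t, ht⟩)
  obtain ⟨m, hm⟩ := (col_image hg hxy).1 hw
  have hl0 : l ≠ 0 := by
    rintro rfl
    rw [zero_smul, add_zero] at hl
    exact hxz (g.injective hl).symm
  have hl1 : l ≠ 1 := by
    rintro rfl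
    rw [one_smul, add_sub_cancel] at hl
    exact hyz (g.injective hl).symm
  have hm0 : m ≠ 0 := by
    rintro rfl
    rw [zero_smul, add_zero] at hm
    exact hwx (g.injective hm)
  have hm1 : m ≠ 1 := by
    rintro rfl
    rw [one_smul, add_sub_cancel] at hm
    exact hwy (g.injective hm)
  rcases two_elts hK hl0 hl1 hm0 hm1 with hlm | hlm
  · exfalso
    rw [← hlm, ← hl] at hm
    exact hwz (g.injective hm)
  · rw [hm, hlm, hl]
    have h3 : g x + g y + (g x + l • (g y - g x)) =
      g x + (l + 1) • (g y - g x) + (g x + g x) := by module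
    rw [h3, add_self_V K, add_zero]

theorem additive (hK : Fintype.card K = 4) {g : Equiv.Perm V}
    (hg : Preserves g (Lines K V)) {x y z : V} (hxy : x ≠ y) (hxz : x ≠ z) (hyz : y ≠ z) :
    g (x + y + z) = g x + g y + g z := by
  by_cases hz : z ∈ line K x (y - x)
  · exact additive_of_col hK hg hxy hxz hyz hz
  · exact additive_of_not_col hK hg hxy hxz hz

theorem preserves_symm {Ω : Type} {g : Equiv.Perm Ω} {B : Set (Set Ω)} (h : Preserves g B) :
    Preserves g.symm B := by
  unfold Preserves at *
  have h1 : (fun b => g.symm '' b) '' ((fun b => g '' b) '' B) = B := by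
    rw [← Set.image_comp]
    have e : ((fun b => g.symm '' b) ∘ fun b => g '' b) = (id : Set Ω → Set Ω) := by
      funext b
      exact Equiv.symm_image_image g b
    rw [e, Set.image_id]
  rw [h] at h1
  exact h1

theorem quads_image (hK : Fintype.card K = 4) {g : Equiv.Perm V}
    (hg : Preserves g (Lines K V)) {b : Set V} (hb : b ∈ Quads V) : g '' b ∈ Quads V := by
  classical
  obtain ⟨s, hs4, hs0, rfl⟩ := hb
  refine ⟨s.map g.toEmbedding, by rw [Finset.card_map, hs4], ?_, by
    rw [Finset.coe_map]
    rfl⟩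
  rw [Finset.sum_map]
  obtain ⟨x, y, z, w, hxy, hxz, hxw, hyz, hyw, hzw, rfl⟩ := Finset.card_eq_four.1 hs4
  rw [Finset.sum_insert (by simp [hxy, hxz, hxw]), Finset.sum_insert (by simp [hyz, hyw]),
    Finset.sum_insert (by simp [hzw]), Finset.sum_singleton] at hs0 ⊢
  have hw : w = x + y + z := by
    rw [← neg_eq_self K w, neg_eq_iff_add_eq_zero]
    rw [← hs0]
    abel
  have h1 := additive hK hg hxy hxz hyz
  show g x + (g y + (g z + g w)) = 0
  rw [hw, h1]
  have h2 : g x + (g y + (g z + (g x + g y + g z))) =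
      (g x + g x) + (g y + g y) + (g z + g z) := by abel
  rw [h2, add_self_V K (g x), add_self_V K (g y), add_self_V K (g z), add_zero, add_zero]

theorem preserves_quads (hK : Fintype.card K = 4) {g : Equiv.Perm V}
    (hg : Preserves g (Lines K V)) : Preserves g (Quads V) := by
  apply Set.Subset.antisymm
  · rintro _ ⟨b, hb, rfl⟩
    exact quads_image hK hg hb
  · intro b hb
    exact ⟨g.symm '' b, quads_image hK (preserves_symm hg) hb, Equiv.image_symm_image g b⟩

theorem lines_steiner (hK : Fintype.card K = 4) [Infinite V] : IsSteiner 2 (Lines K V) := by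
  classical
  obtain ⟨a, ha0, ha1⟩ := exists_alpha hK
  refine ⟨?_, ?_, ?_⟩
  · rintro b ⟨x, d, hd, rfl⟩
    have h1 : ({x, x + d, x + a • d} : Set V) ⊆ line K x d := by
      rintro v (rfl | rfl | rfl)
      · exact self_mem _ _
      · exact ⟨1, by rw [one_smul]⟩
      · exact ⟨a, rfl⟩
    refine le_trans (le_of_eq ?_) (Set.encard_le_encard h1)
    have n1 : x ≠ x + d := fun h => hd (by simpa using h.symm)
    have n2 : x ≠ x + a • d := fun h => by
      have h3 : a • d = 0 := by simpa using h.symm
      exact (smul_ne_zero ha0 hd) h3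
    have n3 : x + d ≠ x + a • d := fun h => by
      have h3 : (1 - a) • d = 0 := by
        rw [sub_smul, one_smul, sub_eq_zero]
        exact add_left_cancel h
      exact (smul_ne_zero (sub_ne_zero.2 (Ne.symm ha1)) hd) h3
    rw [Set.encard_insert_of_notMem (by simp only [Set.mem_insert_iff, Set.mem_singleton_iff]; tauto),
      Set.encard_pair n3]
    rfl
  · obtain ⟨d, hd⟩ := exists_ne (0 : V)
    have hfin : (line K (0 : V) d).Finite := by
      have : line K (0 : V) d = Set.range (fun t : K => (0 : V) + t • d) := by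
        ext v
        constructor
        · rintro ⟨t, ht⟩; exact ⟨t, ht.symm⟩
        · rintro ⟨t, ht⟩; exact ⟨t, ht.symm⟩
      rw [this]
      exact Set.finite_range _
    obtain ⟨u, hu⟩ := hfin.exists_notMem
    refine ⟨line K 0 d, ⟨0, d, hd, rfl⟩, line K u d, ⟨u, d, hd, rfl⟩, ?_⟩
    intro h
    apply hu
    rw [h]
    exact self_mem u d
  · intro s hs
    obtain ⟨x, y, hxy, rfl⟩ := Finset.card_eq_two.1 hs
    refine ⟨line K x (y - x), ⟨⟨x, y - x, sub_ne_zero.2 (Ne.symm hxy), rfl⟩, ?_⟩, ?_⟩
    · intro v hv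
      simp only [Finset.coe_insert, Finset.coe_singleton, Set.mem_insert_iff,
        Set.mem_singleton_iff] at hv
      rcases hv with rfl | rfl
      · exact self_mem _ _
      · exact snd_mem _ _
    · rintro b ⟨⟨x', d', _, rfl⟩, hb⟩
      exact line_eq (hb (by simp)) (hb (by simp)) hxy

theorem quads_steiner (K : Type) [Field K] [CharP K 2] {V : Type} [AddCommGroup V] [Module K V]
    [Infinite V] : IsSteiner 3 (Quads V) := by
  classical
  have key : ∀ s : Finset V, s.card = 3 → ∑ v ∈ s, v ∉ s := by
    intro s hs h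
    obtain ⟨x, y, z, hxy, hxz, hyz, rfl⟩ := Finset.card_eq_three.1 hs
    rw [Finset.sum_insert (by simp [hxy, hxz]), Finset.sum_insert (by simp [hyz]),
      Finset.sum_singleton] at h
    simp only [Finset.mem_insert, Finset.mem_singleton] at h
    have hn : ∀ u v : V, u + v = 0 → u = v := by
      intro u v huv
      rw [← neg_eq_self K v]
      exact eq_neg_of_add_eq_zero_left huv
    rcases h with h | h | h
    · exact hyz (hn _ _ (by simpa using h))
    · apply hxz
      apply hn
      have h4 : x + (y + z) = (x + z) + y := by abel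
      rw [h4] at h
      simpa using h
    · apply hxy
      apply hn
      have h4 : x + (y + z) = (x + y) + z := by abel
      rw [h4] at h
      simpa using h
  have key2 : ∀ s : Finset V, s.card = 3 →
      ((insert (∑ v ∈ s, v) s : Finset V) : Set V) ∈ Quads V := by
    intro s hs
    refine ⟨insert (∑ v ∈ s, v) s, ?_, ?_, rfl⟩
    · rw [Finset.card_insert_of_notMem (key s hs), hs]
    · rw [Finset.sum_insert (key s hs), add_self_V K]
  refine ⟨?_, ?_, ?_⟩
  · rintro b ⟨s, hs, _, rfl⟩
    rw [Set.encard_coe_eq_coe_finsetCard, hs]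
  · obtain ⟨s, hs⟩ := Infinite.exists_subset_card_eq V 3
    obtain ⟨u, hu⟩ := Infinite.exists_notMem_finset (insert (∑ v ∈ s, v) s)
    obtain ⟨x, y, z, hxy, hxz, hyz, rfl⟩ := Finset.card_eq_three.1 hs
    have hux : u ≠ x := by
      rintro rfl
      apply hu
      simp
    have huy : u ≠ y := by
      rintro rfl
      apply hu
      simp
    have ht : ({x, y, u} : Finset V).card = 3 := by
      rw [Finset.card_eq_three]
      exact ⟨x, y, u, hxy, hux.symm, huy.symm, rfl⟩
    refine ⟨_, key2 _ hs, _, key2 _ ht, ?_⟩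
    intro h
    apply hu
    have h2 : u ∈ ((insert (∑ v ∈ ({x, y, u} : Finset V), v) ({x, y, u} : Finset V) : Finset V) :
        Set V) := by simp
    rw [← h] at h2
    exact_mod_cast h2
  · intro s hs
    refine ⟨_, ⟨key2 s hs, ?_⟩, ?_⟩
    · rw [Finset.coe_insert]
      exact Set.subset_insert _ _
    · rintro b ⟨⟨t, ht, ht0, rfl⟩, hst⟩
      have hst' : s ⊆ t := by exact_mod_cast hst
      have h1 : (t \ s).card = 1 := by
        rw [Finset.card_sdiff_of_subset hst', ht, hs]
      obtain ⟨u, hu⟩ := Finset.card_eq_one.1 h1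
      have h2 : t = insert u s := by
        rw [← Finset.sdiff_union_of_subset hst', hu]
        rfl
      have h3 : u ∉ s := by
        have : u ∈ t \ s := by rw [hu]; simp
        exact (Finset.mem_sdiff.1 this).2
      rw [h2, Finset.sum_insert h3] at ht0
      have h4 : u = ∑ v ∈ s, v := by
        rw [← neg_eq_self K (∑ v ∈ s, v)]
        exact eq_neg_of_add_eq_zero_left ht0
      rw [h2, h4]

theorem lines_transitive : AutTransitive 2 (Lines K V) := by
  intro x y hx hy
  have hx' : x 1 - x 0 ≠ 0 := sub_ne_zero.2 fun h => absurd (hx h) (by decide)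
  have hy' : y 1 - y 0 ≠ 0 := sub_ne_zero.2 fun h => absurd (hy h) (by decide)
  let f := (LinearEquiv.toSpanNonzeroSingleton K V _ hx').symm.trans
    (LinearEquiv.toSpanNonzeroSingleton K V _ hy')
  obtain ⟨A, hA⟩ := Submodule.exists_linearEquiv_restrict_eq f
  have hA1 : A (x 1 - x 0) = y 1 - y 0 := by
    have h1 := hA ⟨x 1 - x 0, Submodule.mem_span_singleton_self _⟩
    rw [← h1]
    have h2 : (LinearEquiv.toSpanNonzeroSingleton K V _ hx').symm
        ⟨x 1 - x 0, Submodule.mem_span_singleton_self _⟩ = 1 := by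
      rw [LinearEquiv.symm_apply_eq]
      apply Subtype.ext
      rw [LinearEquiv.toSpanNonzeroSingleton_one]
    show ((LinearEquiv.toSpanNonzeroSingleton K V _ hy')
      ((LinearEquiv.toSpanNonzeroSingleton K V _ hx').symm
        ⟨x 1 - x 0, Submodule.mem_span_singleton_self _⟩) : V) = _
    rw [h2, LinearEquiv.toSpanNonzeroSingleton_one]
  let g : Equiv.Perm V := ((Equiv.subRight (x 0)).trans A.toEquiv).trans (Equiv.addRight (y 0))
  have hg : ∀ v, g v = A (v - x 0) + y 0 := fun v => rfl
  have himg : ∀ u d : V, g '' line K u d = line K (g u) (A d) := by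
    intro u d
    ext w
    constructor
    · rintro ⟨_, ⟨t, rfl⟩, rfl⟩
      refine ⟨t, ?_⟩
      rw [hg, hg, ← map_smul, add_sub_right_comm, map_add]
      abel
    · rintro ⟨t, rfl⟩
      refine ⟨u + t • d, ⟨t, rfl⟩, ?_⟩
      rw [hg, hg, ← map_smul, add_sub_right_comm, map_add]
      abel
  refine ⟨g, ?_, ?_⟩
  · apply Set.Subset.antisymm
    · rintro _ ⟨_, ⟨u, d, hd, rfl⟩, rfl⟩
      refine ⟨g u, A d, ?_, himg u d⟩
      intro h
      exact hd (A.map_eq_zero_iff.1 h)
    · rintro _ ⟨u, d, hd, rfl⟩
      refine ⟨line K (g.symm u) (A.symm d), ⟨_, _, ?_, rfl⟩, ?_⟩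
      · intro h
        exact hd (A.symm.map_eq_zero_iff.1 h)
      · show g '' _ = _
        rw [himg, g.apply_symm_apply, A.apply_symm_apply]
  · intro i
    fin_cases i
    · show g (x 0) = y 0
      rw [hg, sub_self, map_zero, zero_add]
    · show g (x 1) = y 1
      rw [hg, hA1]
      abel

end

/-- The main theorem. -/
theorem main : ∃ k l : ℕ, 2 ≤ k ∧ 2 ≤ l ∧ k ≠ l ∧
    ∃ Ω : Type, Countable Ω ∧ Infinite Ω ∧ ∃ B C : Set (Set Ω),
      IsSteiner k B ∧ AutTransitive k B ∧ IsSteiner l C ∧
        ∀ g : Equiv.Perm Ω, Preserves g B → Preserves g C := by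
  have : Fintype (GaloisField 2 2) := Fintype.ofFinite _
  have hK : Fintype.card (GaloisField 2 2) = 4 := by
    rw [← Nat.card_eq_fintype_card, GaloisField.card 2 2 (by norm_num)]
    norm_num
  have : Infinite (ℕ →₀ GaloisField 2 2) := inferInstance
  have : Countable (ℕ →₀ GaloisField 2 2) := inferInstance
  exact ⟨2, 3, le_refl 2, by norm_num, by norm_num, ℕ →₀ GaloisField 2 2, inferInstance,
    inferInstance, Lines (GaloisField 2 2) _, Quads _, lines_steiner hK, lines_transitive,
    quads_steiner (GaloisField 2 2), fun g hg => preserves_quads hK hg⟩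

end Pool.Agent.Q317.ST
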