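import Mathlib

/-!
# Artin's induction theorem for rational valued functions, with control of the cyclic subgroups
-/

set_option autoImplicit false

namespace Pool.Agent.Q317.ST.Perm

open scoped Classical

variable {Q : Type} [Group Q] [Fintype Q]

/-- the number of the `x` with `x⁻¹ q x` in the subgroup generated by `h` -/
noncomputable def cP (h q : Q) : ℚ := ∑ x : Q, if x⁻¹ * q * x ∈ Subgroup.zpowers h then 1 else 0

theorem cP_conj (h q y : Q) : cP h (y⁻¹ * q * y) = cP h q := by
  unfold cP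
  refine Fintype.sum_equiv (Equiv.mulLeft y) _ _ fun x => ?_
  have e : x⁻¹ * (y⁻¹ * q * y) * x = ((Equiv.mulLeft y) x)⁻¹ * q * (Equiv.mulLeft y) x := by
    rw [Equiv.coe_mulLeft]
    group
  rw [e]

theorem cP_eq {q q' : Q} (hq : Subgroup.zpowers q = Subgroup.zpowers q') (h : Q) :
    cP h q = cP h q' := by
  unfold cP
  refine Finset.sum_congr rfl fun x _ => ?_
  have key : ∀ {a b : Q}, a ∈ Subgroup.zpowers b → x⁻¹ * b * x ∈ Subgroup.zpowers h →
      x⁻¹ * a * x ∈ Subgroup.zpowers h := by
    rintro _ b ⟨j, rfl⟩ hb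
    have e : x⁻¹ * b ^ j * x = (x⁻¹ * b * x) ^ j := by
      have := conj_zpow (a := x⁻¹) (b := b) (i := j)
      rw [inv_inv] at this
      exact this.symm
    simp only [e]
    exact Subgroup.zpow_mem _ hb j
  have h1 : q ∈ Subgroup.zpowers q' := by rw [← hq]; exact Subgroup.mem_zpowers q
  have h2 : q' ∈ Subgroup.zpowers q := by rw [hq]; exact Subgroup.mem_zpowers q'
  by_cases hx : x⁻¹ * q * x ∈ Subgroup.zpowers h
  · rw [if_pos hx, if_pos (key h2 hx)]
  · rw [if_neg hx, if_neg fun h3 => hx (key h1 h3)]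

theorem orderOf_conj (x q : Q) : orderOf (x⁻¹ * q * x) = orderOf q := by
  have h := orderOf_injective (MulAut.conj x⁻¹).toMonoidHom (MulAut.conj x⁻¹).injective q
  rw [← h]
  congr 1
  simp [MulAut.conj_apply]

theorem zpowers_eq_of_mem {a b : Q} (h : a ∈ Subgroup.zpowers b) (ho : orderOf a = orderOf b) :
    Subgroup.zpowers a = Subgroup.zpowers b := by
  have hle : Subgroup.zpowers a ≤ Subgroup.zpowers b := by
    rw [Subgroup.zpowers_le]
    exact h
  apply Subgroup.eq_of_le_of_card_ge hle
  rw [Nat.card_zpowers, Nat.card_zpowers, ho]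

/-- the number of the generators of the group generated by `h` -/
noncomputable def wt (h : Q) : ℚ := ∑ x : Q, if Subgroup.zpowers x = Subgroup.zpowers h then 1 else 0

theorem wt_pos (h : Q) : 0 < wt h := by
  unfold wt
  refine Finset.sum_pos' (fun x _ => by split_ifs <;> norm_num) ⟨h, Finset.mem_univ _, ?_⟩
  rw [if_pos rfl]
  exact one_pos

theorem wt_eq {a b : Q} (h : Subgroup.zpowers a = Subgroup.zpowers b) : wt a = wt b := by
  unfold wt
  rw [h]

theorem top_sum {n : ℕ} {ψ : Q → ℚ} (h1 : ∀ x q, ψ (x⁻¹ * q * x) = ψ q)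
    (h2 : ∀ q q', Subgroup.zpowers q = Subgroup.zpowers q' → ψ q = ψ q') {q : Q}
    (hq : orderOf q = n) :
    ∑ h : Q, (if orderOf h = n then ψ h / (wt h * Fintype.card Q) else 0) * cP h q = ψ q := by
  have hQ : (0 : ℚ) < Fintype.card Q := by exact_mod_cast Fintype.card_pos
  unfold cP
  simp only [Finset.mul_sum]
  rw [Finset.sum_comm]
  have key : ∀ x : Q, ∑ h : Q, (if orderOf h = n then ψ h / (wt h * Fintype.card Q) else 0) *
      (if x⁻¹ * q * x ∈ Subgroup.zpowers h then 1 else 0) = ψ q / Fintype.card Q := by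
    intro x
    obtain ⟨q', hq'⟩ : ∃ q', q' = x⁻¹ * q * x := ⟨_, rfl⟩
    have ho : orderOf q' = n := by rw [hq', orderOf_conj, hq]
    have hψ : ψ q' = ψ q := by rw [hq', h1]
    rw [← hq']
    have e : ∀ h : Q, (if orderOf h = n then ψ h / (wt h * Fintype.card Q) else 0) *
        (if q' ∈ Subgroup.zpowers h then 1 else 0) =
        (ψ q / (wt q' * Fintype.card Q)) *
          (if Subgroup.zpowers h = Subgroup.zpowers q' then 1 else 0) := by
      intro h
      by_cases hz : Subgroup.zpowers h = Subgroup.zpowers q'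
      · have o : orderOf h = n := by
          rw [← Nat.card_zpowers, hz, Nat.card_zpowers, ho]
        have m : q' ∈ Subgroup.zpowers h := by rw [hz]; exact Subgroup.mem_zpowers q'
        rw [if_pos o, if_pos m, if_pos hz, h2 h q' hz, wt_eq hz, hψ]
      · rw [if_neg hz, mul_zero]
        by_cases o : orderOf h = n
        · have m : q' ∉ Subgroup.zpowers h := fun m =>
            hz (zpowers_eq_of_mem m (ho.trans o.symm)).symm
          rw [if_neg m, mul_zero]
        · rw [if_neg o, zero_mul]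
    rw [Finset.sum_congr rfl fun h _ => e h, ← Finset.mul_sum]
    change ψ q / (wt q' * Fintype.card Q) * wt q' = _
    have := (wt_pos q').ne'
    field_simp
  rw [Finset.sum_congr rfl fun x _ => key x, Finset.sum_const, Finset.card_univ, nsmul_eq_mul]
  field_simp

theorem artinQ {B : Set Q} (hB1 : ∀ h ∈ B, ∀ h' ∈ Subgroup.zpowers h, h' ∈ B)
    (hB2 : ∀ h ∈ B, ∀ x, x * h * x⁻¹ ∈ B) : ∀ (n : ℕ) (ψ : Q → ℚ),
    (∀ x q, ψ (x⁻¹ * q * x) = ψ q) →
    (∀ q q', Subgroup.zpowers q = Subgroup.zpowers q' → ψ q = ψ q') →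
    (∀ q, ψ q ≠ 0 → q ∈ B ∧ orderOf q ≤ n) →
    ∃ c : Q → ℚ, (∀ q, ψ q = ∑ h : Q, c h * cP h q) ∧ ∀ h, c h ≠ 0 → h ∈ B := by
  intro n
  induction n with
  | zero =>
    intro ψ h1 h2 h3
    refine ⟨0, fun q => ?_, fun h hh => absurd rfl hh⟩
    by_contra hne
    have h4 := (h3 q (by simpa using hne)).2
    have := orderOf_pos q
    omega
  | succ n ih =>
    intro ψ h1 h2 h3
    let c₀ : Q → ℚ := fun h => if orderOf h = n + 1 then ψ h / (wt h * Fintype.card Q) else 0
    have hc₀ : ∀ h, c₀ h ≠ 0 → ψ h ≠ 0 ∧ orderOf h = n + 1 := by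
      intro h hh
      by_cases ho : orderOf h = n + 1
      · refine ⟨fun h4 => hh ?_, ho⟩
        simp only [c₀, if_pos ho, h4, zero_div]
      · exact absurd (if_neg ho) hh
    obtain ⟨c₁, e1, e2⟩ := ih (fun q => ψ q - ∑ h : Q, c₀ h * cP h q) (by
        intro x q
        simp only [cP_conj, h1]) (by
        intro q q' hqq
        simp only [cP_eq hqq, h2 q q' hqq]) (by
        intro q hq
        by_cases ho : orderOf q = n + 1
        · exact absurd (sub_eq_zero.2 (top_sum h1 h2 ho).symm) hq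
        · by_cases hψ : ψ q = 0
          · have h4 : ∃ h ∈ Finset.univ, c₀ h * cP h q ≠ 0 := by
              apply Finset.exists_ne_zero_of_sum_ne_zero
              intro h5
              apply hq
              simp only [h5, hψ, sub_zero]
            obtain ⟨h, -, h5⟩ := h4
            obtain ⟨h6, h7⟩ := hc₀ h (left_ne_zero_of_mul h5)
            have h8 : cP h q ≠ 0 := right_ne_zero_of_mul h5
            obtain ⟨x, -, h9⟩ := Finset.exists_ne_zero_of_sum_ne_zero h8
            have h10 : x⁻¹ * q * x ∈ Subgroup.zpowers h := by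
              by_contra h11
              exact h9 (if_neg h11)
            have h11 := hB1 h (h3 h h6).1 _ h10
            have h12 := hB2 _ h11 x
            have e : x * (x⁻¹ * q * x) * x⁻¹ = q := by group
            rw [e] at h12
            refine ⟨h12, ?_⟩
            have h13 : orderOf (x⁻¹ * q * x) ∣ orderOf h := orderOf_dvd_of_mem_zpowers h10
            rw [orderOf_conj, h7] at h13
            have := Nat.le_of_dvd (Nat.succ_pos n) h13
            omega
          · have h4 := h3 q hψ
            exact ⟨h4.1, by omega⟩)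
    refine ⟨fun h => c₀ h + c₁ h, fun q => ?_, fun h hh => ?_⟩
    · have h4 := e1 q
      simp only [add_mul, Finset.sum_add_distrib]
      linarith
    · by_cases h4 : c₁ h = 0
      · have h5 : c₀ h ≠ 0 := fun h5 => hh (by simp only [h4, h5, add_zero])
        exact (h3 h (hc₀ h h5).1).1
      · exact e2 h h4

/-- a common denominator -/
theorem exists_den (c : Q → ℚ) : ∃ D : ℕ, D ≠ 0 ∧ ∃ m : Q → ℤ, ∀ h, (D : ℚ) * c h = m h := by
  refine ⟨∏ h : Q, (c h).den, Finset.prod_ne_zero_iff.2 fun h _ => (c h).den_nz, ?_⟩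
  have key : ∀ h : Q, ∃ m : ℤ, ((∏ h : Q, (c h).den : ℕ) : ℚ) * c h = m := by
    intro h
    obtain ⟨t, ht⟩ := Finset.dvd_prod_of_mem (fun h : Q => (c h).den) (Finset.mem_univ h)
    refine ⟨t * (c h).num, ?_⟩
    rw [ht]
    push_cast
    have h1 : (c h) * ((c h).den : ℚ) = (c h).num := Rat.mul_den_eq_num (c h)
    rw [← h1]
    ring
  choose m hm using key
  exact ⟨m, hm⟩

end Pool.Agent.Q317.ST.Perm
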