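import Pool.Agent.Q317.ST.Gen3
import Pool.Agent.Q317.ST.PermA

/-!
# Functions of number fields that respect the relations between permutation characters
-/

set_option autoImplicit false

namespace Pool.Agent.Q317.ST.Perm

open scoped Classical
open IntermediateField Polynomial

attribute [-instance] DivisionRing.toRatAlgebra

variable {Ω : Type} [Field Ω] [Algebra ℚ Ω]

/-- The number of the embeddings `τ` of `K` in `Ω` that are the identity on `k` and satisfy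
`σ ∘ τ = τ`. -/
noncomputable def fix (k K : IntermediateField ℚ Ω) (σ : Ω ≃ₐ[ℚ] Ω) : ℕ :=
  Nat.card {τ : K →ₐ[ℚ] Ω // (∀ x : K, (x : Ω) ∈ k → τ x = x) ∧ ∀ x, σ (τ x) = τ x}

/-- `f`, a function on the finite extensions `K` of `k`, respects the relations between permutation
characters: if `∑ n_i π_i = 0` on the absolute Galois group of `k`, where `π_i (σ)` is the number of
the `k`-embeddings of `K_i` fixed by `σ`, then `∑ n_i f (K_i) = 0`. -/
def Respects (k : IntermediateField ℚ Ω) {A : Type} [AddCommGroup A]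
    (f : IntermediateField ℚ Ω → A) : Prop :=
  ∀ (ι : Type) [Fintype ι] (n : ι → ℤ) (K : ι → IntermediateField ℚ Ω),
    (∀ i, FiniteDimensional ℚ (K i) ∧ k ≤ K i) →
    (∀ σ ∈ k.fixingSubgroup, ∑ i, n i * (fix k (K i) σ : ℤ) = 0) → ∑ i, n i • f (K i) = 0

theorem exists_lift [hΩ : IsAlgClosure ℚ Ω] {K : IntermediateField ℚ Ω} (τ : K →ₐ[ℚ] Ω) :
    ∃ s : Ω ≃ₐ[ℚ] Ω, ∀ x : K, s x = τ x := by
  have hn := normalΩ (Ω := Ω)
  have hAlg := hΩ.isAlgebraic
  let φ : Ω →ₐ[ℚ] Ω := AlgHom.liftNormal τ Ω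
  have hφ : Function.Bijective φ := Algebra.IsAlgebraic.algHom_bijective φ
  refine ⟨AlgEquiv.ofBijective φ hφ, fun x => ?_⟩
  exact AlgHom.liftNormal_commutes τ Ω x

theorem fix_iff [IsAlgClosure ℚ Ω] {k K L : IntermediateField ℚ Ω} (hKL : K ≤ L)
    (hn : (GG L).Normal) {σ σ' : Ω ≃ₐ[ℚ] Ω} (h : ∀ v ∈ L, (σ v = v ↔ σ' v = v)) :
    fix k K σ = fix k K σ' := by
  have hG : IsGalois ℚ Ω := by
    have := normalΩ (Ω := Ω)
    exact ⟨⟩
  unfold fix
  refine Nat.card_congr (Equiv.subtypeEquivRight fun τ => and_congr_right fun _ => ?_)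
  refine forall_congr' fun x => ?_
  obtain ⟨s, hs⟩ := exists_lift τ
  rw [← hs x]
  exact h _ (map_mem hn s (hKL x.2))

theorem fix_conj {k K : IntermediateField ℚ Ω} {x : Ω ≃ₐ[ℚ] Ω} (hx : x ∈ GG k)
    (σ : Ω ≃ₐ[ℚ] Ω) : fix k K (x⁻¹ * σ * x) = fix k K σ := by
  unfold fix
  have hx' := (IntermediateField.mem_fixingSubgroup_iff _ _).1 hx
  have hxi := (IntermediateField.mem_fixingSubgroup_iff _ _).1 ((GG k).inv_mem hx)
  have i1 : ∀ v : Ω, x (x⁻¹ v) = v := fun v => by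
    rw [← AlgEquiv.mul_apply, mul_inv_cancel]; rfl
  have i2 : ∀ v : Ω, x⁻¹ (x v) = v := fun v => by
    rw [← AlgEquiv.mul_apply, inv_mul_cancel]; rfl
  refine Nat.card_congr ⟨fun τ => ⟨(x : Ω →ₐ[ℚ] Ω).comp τ.1, ?_, ?_⟩,
    fun τ => ⟨((x⁻¹ : Ω ≃ₐ[ℚ] Ω) : Ω →ₐ[ℚ] Ω).comp τ.1, ?_, ?_⟩, ?_, ?_⟩
  · intro y hy
    change x (τ.1 y) = y
    rw [τ.2.1 y hy, hx' _ hy]
  · intro y
    change σ (x (τ.1 y)) = x (τ.1 y)
    have h := τ.2.2 y
    rw [AlgEquiv.mul_apply, AlgEquiv.mul_apply] at h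
    have h3 := congrArg x h
    rw [i1] at h3
    exact h3
  · intro y hy
    change x⁻¹ (τ.1 y) = y
    rw [τ.2.1 y hy, hxi _ hy]
  · intro y
    change (x⁻¹ * σ * x) (x⁻¹ (τ.1 y)) = x⁻¹ (τ.1 y)
    rw [AlgEquiv.mul_apply, AlgEquiv.mul_apply, i1, τ.2.2 y]
  · intro τ
    apply Subtype.ext
    apply AlgHom.ext
    intro y
    exact i2 _
  · intro τ
    apply Subtype.ext
    apply AlgHom.ext
    intro y
    exact i1 _

theorem fix_eq_ind [IsAlgClosure ℚ Ω] {k K : IntermediateField ℚ Ω} [FiniteDimensional ℚ K]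
    (hkK : k ≤ K) {σ : Ω ≃ₐ[ℚ] Ω} (hσ : σ ∈ GG k) :
    (fix k K σ : ℂ) = ind (GG k) (GG K) (fun _ => 1) ⟨σ, hσ⟩ := by
  have hG : IsGalois ℚ Ω := by
    have := normalΩ (Ω := Ω)
    exact ⟨⟩
  have hfi : (GG K).FiniteIndex := ⟨by
    rw [← IntermediateField.finrank_eq_fixingSubgroup_index]
    exact Module.finrank_pos.ne'⟩
  have hfin : Finite (GG k ⧸ (GG K).subgroupOf (GG k)) := inferInstance
  have := Fintype.ofFinite (GG k ⧸ (GG K).subgroupOf (GG k))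
  have hle : GG K ≤ GG k := fixingSubgroup_le hkK
  have e : Nat.card {x : GG k ⧸ (GG K).subgroupOf (GG k) //
      ((x.out : GG k) : Ω ≃ₐ[ℚ] Ω)⁻¹ * σ * ((x.out : GG k) : Ω ≃ₐ[ℚ] Ω) ∈ GG K} =
      fix k K σ := by
    unfold fix
    refine Nat.card_congr (Equiv.ofBijective (fun x =>
      ⟨((x.1.out : GG k) : Ω ≃ₐ[ℚ] Ω).toAlgHom.comp K.val, ?_, ?_⟩) ⟨?_, ?_⟩)
    · intro y hy
      exact (IntermediateField.mem_fixingSubgroup_iff _ _).1 (x.1.out : GG k).2 _ hy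
    · intro y
      have h := (IntermediateField.mem_fixingSubgroup_iff _ _).1 x.2 y y.2
      change σ (((x.1.out : GG k) : Ω ≃ₐ[ℚ] Ω) y) = ((x.1.out : GG k) : Ω ≃ₐ[ℚ] Ω) y
      rw [AlgEquiv.mul_apply, AlgEquiv.mul_apply] at h
      have h2 := congrArg ((x.1.out : GG k) : Ω ≃ₐ[ℚ] Ω) h
      rw [← AlgEquiv.mul_apply, mul_inv_cancel] at h2
      exact h2
    · intro x y hxy
      have h1 := congrArg Subtype.val hxy
      apply Subtype.ext
      have hx := QuotientGroup.out_eq' x.1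
      have hy := QuotientGroup.out_eq' y.1
      rw [← hx, ← hy, QuotientGroup.eq]
      change ((x.1.out : GG k) : Ω ≃ₐ[ℚ] Ω)⁻¹ * ((y.1.out : GG k) : Ω ≃ₐ[ℚ] Ω) ∈ GG K
      rw [IntermediateField.mem_fixingSubgroup_iff]
      intro v hv
      have h2 : ((x.1.out : GG k) : Ω ≃ₐ[ℚ] Ω) v = ((y.1.out : GG k) : Ω ≃ₐ[ℚ] Ω) v :=
        congrArg (fun t : K →ₐ[ℚ] Ω => t ⟨v, hv⟩) h1
      rw [AlgEquiv.mul_apply, ← h2, ← AlgEquiv.mul_apply, inv_mul_cancel]
      rfl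
    · rintro ⟨τ, h1, h2⟩
      obtain ⟨s, hs⟩ := exists_lift τ
      have hsk : s ∈ GG k := by
        rw [IntermediateField.mem_fixingSubgroup_iff]
        intro v hv
        have h3 := hs ⟨v, hkK hv⟩
        rw [h1 ⟨v, hkK hv⟩ hv] at h3
        exact h3
      obtain ⟨h, hh⟩ := QuotientGroup.mk_out_eq_mul ((GG K).subgroupOf (GG k)) (⟨s, hsk⟩ : GG k)
      have hv : ∀ v ∈ K, (((QuotientGroup.mk (⟨s, hsk⟩ : GG k) :
          GG k ⧸ (GG K).subgroupOf (GG k)).out : GG k) : Ω ≃ₐ[ℚ] Ω) v = s v := by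
        intro v hv
        rw [hh]
        change (s * ((h : GG k) : Ω ≃ₐ[ℚ] Ω)) v = s v
        have h5 : ((h : GG k) : Ω ≃ₐ[ℚ] Ω) v = v :=
          (IntermediateField.mem_fixingSubgroup_iff _ _).1 h.2 v hv
        rw [AlgEquiv.mul_apply, h5]
      refine ⟨⟨QuotientGroup.mk (⟨s, hsk⟩ : GG k), ?_⟩, ?_⟩
      · rw [IntermediateField.mem_fixingSubgroup_iff]
        intro v hv'
        rw [AlgEquiv.mul_apply, AlgEquiv.mul_apply, hv v hv']
        have h4 : σ (s v) = s v := by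
          have := h2 ⟨v, hv'⟩
          rw [← hs] at this
          exact this
        rw [h4, ← hv v hv', ← AlgEquiv.mul_apply, inv_mul_cancel]
        rfl
      · apply Subtype.ext
        apply AlgHom.ext
        intro x
        exact (hv x x.2).trans (hs x)
  rw [← e, Nat.card_eq_fintype_card, Fintype.card_subtype]
  unfold ind
  rw [finsum_eq_sum_of_fintype, Finset.card_filter, Nat.cast_sum]
  refine Finset.sum_congr rfl fun x _ => ?_
  split_ifs
  · exact Nat.cast_one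
  · exact Nat.cast_zero

end Pool.Agent.Q317.ST.Perm
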