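import Pool.Agent.Q317.ST.Perm

/-!
# The main theorem on functions that respect the relations between permutation characters
-/

set_option autoImplicit false

namespace Pool.Agent.Q317.ST.Perm

open scoped Classical
open IntermediateField Polynomial

attribute [-instance] DivisionRing.toRatAlgebra

variable {Ω : Type} [Field Ω] [Algebra ℚ Ω]

theorem main [hΩ : IsAlgClosure ℚ Ω] {k : IntermediateField ℚ Ω} [hk : FiniteDimensional ℚ k]
    {A : Type} [AddCommGroup A] {f : IntermediateField ℚ Ω → A} (hf : Respects k f)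
    {J : Type} [Finite J] (E : J → Type) [∀ j, Field (E j)] (hE : ∀ j, CharZero (E j))
    (hnE : ∀ j, StarkNumbers.NonSq (E j))
    (h0 : ∀ F : IntermediateField ℚ Ω, FiniteDimensional ℚ F → k ≤ F → IsEmpty (F →+* ℝ) →
      (∀ j, IsEmpty (F →+* E j)) → f F = 0)
    (ι : Type) [Fintype ι] (n : ι → ℤ) (K : ι → IntermediateField ℚ Ω)
    (hK : ∀ i, FiniteDimensional ℚ (K i) ∧ k ≤ K i)
    (hcc : ∀ c ∈ GG k, G2.IsCC c → ∑ i, n i * (fix k (K i) c : ℤ) = 0) :
    ∃ D : ℕ, D ≠ 0 ∧ D • ∑ i, n i • f (K i) = 0 := by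
  have hnΩ := normalΩ (Ω := Ω)
  have hG : IsGalois ℚ Ω := ⟨⟩
  have hAlg := hΩ.isAlgebraic
  obtain ⟨ι₀⟩ := exists_emb (Ω := Ω)
  obtain ⟨c, hc⟩ := exists_conj ι₀
  have hfK : ∀ i, FiniteDimensional ℚ (K i) := fun i => (hK i).1
  have hfs : FiniteDimensional ℚ ↥(⨆ i, K i) := inferInstance
  obtain ⟨L, hL1, fL, nL⟩ := StarkNumbers.exists_normal (k ⊔ ⨆ i, K i)
  have hkL : k ≤ L := le_sup_left.trans hL1
  have hKL : ∀ i, K i ≤ L := fun i => (le_iSup K i).trans (le_sup_right.trans hL1)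
  have hGL : IsGalois ℚ L := ⟨⟩
  have hNL : (GG L).Normal := IsGalois.fixingSubgroup_normal_of_isGalois L
  choose a b ha hb hab using hnE
  obtain ⟨L', fL', nL', hLL', -, hsq, hpat⟩ := pattern2 hc L (Sum.elim a b)
  have hGL' : IsGalois ℚ L' := ⟨⟩
  have hU : (GG L').Normal := IsGalois.fixingSubgroup_normal_of_isGalois L'
  have hkL' : k ≤ L' := hkL.trans hLL'
  choose w hwL hw2 using hsq
  set U := GG L' with hUdef
  have hUG : U ≤ GG k := fixingSubgroup_le hkL'
  have hUfi : U.FiniteIndex := ⟨by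
    rw [hUdef, ← IntermediateField.finrank_eq_fixingSubgroup_index]
    exact Module.finrank_pos.ne'⟩
  have hU' : (U.subgroupOf (GG k)).Normal := inferInstance
  have : Finite (GG k ⧸ U.subgroupOf (GG k)) := inferInstance
  have iF := Fintype.ofFinite (GG k ⧸ U.subgroupOf (GG k))
  -- representatives
  let o : (GG k ⧸ U.subgroupOf (GG k)) → (Ω ≃ₐ[ℚ] Ω) := fun q => ((q.out : GG k) : Ω ≃ₐ[ℚ] Ω)
  have ok : ∀ q, o q ∈ GG k := fun q => (q.out : GG k).2
  have ov : ∀ (g : GG k) (v : Ω), v ∈ L' →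
      o (QuotientGroup.mk g : GG k ⧸ U.subgroupOf (GG k)) v = (g : Ω ≃ₐ[ℚ] Ω) v := by
    intro g v hv
    obtain ⟨h, hh⟩ := QuotientGroup.mk_out_eq_mul (U.subgroupOf (GG k)) g
    change ((QuotientGroup.mk g : GG k ⧸ U.subgroupOf (GG k)).out : Ω ≃ₐ[ℚ] Ω) v = _
    rw [hh]
    change ((g : Ω ≃ₐ[ℚ] Ω) * ((h : GG k) : Ω ≃ₐ[ℚ] Ω)) v = _
    have h5 : ((h : GG k) : Ω ≃ₐ[ℚ] Ω) v = v :=
      (IntermediateField.mem_fixingSubgroup_iff _ _).1 h.2 v hv
    rw [AlgEquiv.mul_apply, h5]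
  have omk : ∀ q : GG k ⧸ U.subgroupOf (GG k), (QuotientGroup.mk (q.out : GG k)) = q :=
    fun q => QuotientGroup.out_eq' q
  have opow : ∀ (q : GG k ⧸ U.subgroupOf (GG k)) (m : ℤ) (v : Ω), v ∈ L' → o q v = v →
      o (q ^ m) v = v := by
    intro q m v hv hq
    have h1 : q ^ m = QuotientGroup.mk ((q.out : GG k) ^ m) := by
      rw [QuotientGroup.mk_zpow, omk]
    rw [h1, ov _ _ hv]
    have h4 : o q ∈ MulAction.stabilizer (Ω ≃ₐ[ℚ] Ω) v := hq
    have h5 := Subgroup.zpow_mem _ h4 m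
    exact h5
  -- the fixed fields
  let H : (GG k ⧸ U.subgroupOf (GG k)) → Subgroup (Ω ≃ₐ[ℚ] Ω) := fun q => cyc U (o q)
  have hUH : ∀ q, U ≤ H q := fun q => le_cyc _ _
  have hHG : ∀ q, H q ≤ GG k := fun q => cyc_le hUG (ok q)
  let F : (GG k ⧸ U.subgroupOf (GG k)) → IntermediateField ℚ Ω := fun q =>
    IntermediateField.fixedField (H q)
  have hGF : ∀ q, GG (F q) = H q := by
    intro q
    have hopen : IsOpen (H q : Set (Ω ≃ₐ[ℚ] Ω)) :=
      Subgroup.isOpen_mono (hUH q) (IntermediateField.fixingSubgroup_isOpen L')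
    exact InfiniteGalois.fixingSubgroup_fixedField ⟨H q, Subgroup.isClosed_of_isOpen _ hopen⟩
  have hFL' : ∀ q, F q ≤ L' := by
    intro q
    rw [← InfiniteGalois.fixedField_fixingSubgroup L']
    exact IntermediateField.fixedField_le (hUH q)
  have hkF : ∀ q, k ≤ F q := by
    intro q
    rw [← InfiniteGalois.fixedField_fixingSubgroup k]
    exact IntermediateField.fixedField_le (hHG q)
  have hfF : ∀ q, FiniteDimensional ℚ (F q) := fun q => FiniteDimensional.of_injective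
    (inclusion (hFL' q)).toLinearMap (inclusion_injective (hFL' q))
  have memF : ∀ q v, v ∈ F q ↔ v ∈ L' ∧ o q v = v := by
    intro q v
    constructor
    · intro hv
      refine ⟨hFL' q hv, ?_⟩
      exact (IntermediateField.mem_fixedField_iff _ _).1 hv _ (mem_cyc _ _)
    · rintro ⟨hv, h1⟩
      rw [IntermediateField.mem_fixedField_iff]
      intro g hg
      obtain ⟨m, u, hu, rfl⟩ := mem_cyc_iff.1 hg
      rw [AlgEquiv.mul_apply, (IntermediateField.mem_fixingSubgroup_iff _ _).1 hu v hv]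
      have h4 : o q ∈ MulAction.stabilizer (Ω ≃ₐ[ℚ] Ω) v := h1
      exact Subgroup.zpow_mem _ h4 m
  let B : Set (GG k ⧸ U.subgroupOf (GG k)) :=
    {q | IsEmpty (F q →+* ℝ) ∧ ∀ j, IsEmpty (F q →+* E j)}
  have hBmono : ∀ q q' : GG k ⧸ U.subgroupOf (GG k), (∃ r : F q →+* F q', True) → q ∈ B → q' ∈ B := by
    rintro q q' ⟨r, -⟩ ⟨h1, h2⟩
    exact ⟨⟨fun t => h1.false (t.comp r)⟩, fun j => ⟨fun t => (h2 j).false (t.comp r)⟩⟩
  have hB1 : ∀ h ∈ B, ∀ h' ∈ Subgroup.zpowers h, h' ∈ B := by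
    rintro q hq _ ⟨m, rfl⟩
    refine hBmono q _ ⟨(inclusion (?_ : F q ≤ F (q ^ m))).toRingHom, trivial⟩ hq
    intro v hv
    obtain ⟨h1, h2⟩ := (memF q v).1 hv
    exact (memF _ v).2 ⟨h1, opow q m v h1 h2⟩
  have hB2 : ∀ h ∈ B, ∀ x, x * h * x⁻¹ ∈ B := by
    intro q hq x
    have key : ∀ v ∈ F q, o x v ∈ F (x * q * x⁻¹) := by
      intro v hv
      obtain ⟨h1, h2⟩ := (memF q v).1 hv
      have h3 : o x v ∈ L' := map_mem hU _ h1
      refine (memF _ _).2 ⟨h3, ?_⟩
      have h4 : x * q * x⁻¹ = QuotientGroup.mk ((x.out : GG k) * (q.out : GG k) *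
          (x.out : GG k)⁻¹) := by
        rw [QuotientGroup.mk_mul, QuotientGroup.mk_mul, QuotientGroup.mk_inv, omk, omk]
      rw [h4, ov _ _ h3]
      change (o x * o q * (o x)⁻¹) (o x v) = o x v
      rw [AlgEquiv.mul_apply, AlgEquiv.mul_apply]
      have h5 : (o x)⁻¹ (o x v) = v := by
        rw [← AlgEquiv.mul_apply, inv_mul_cancel]; rfl
      rw [h5, h2]
    refine hBmono q _ ⟨{ toFun := fun v => ⟨o x v, key v v.2⟩
                         map_one' := Subtype.ext (map_one (o x))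
                         map_mul' := fun _ _ => Subtype.ext (map_mul (o x) _ _)
                         map_zero' := Subtype.ext (map_zero (o x))
                         map_add' := fun _ _ => Subtype.ext (map_add (o x) _ _) }, trivial⟩ hq
  -- the function
  let ψ : (GG k ⧸ U.subgroupOf (GG k)) → ℚ := fun q =>
    ((∑ i, n i * (fix k (K i) (o q) : ℤ) : ℤ) : ℚ)
  have hfixL' : ∀ (i : ι) (σ σ' : Ω ≃ₐ[ℚ] Ω), (∀ v ∈ L', (σ v = v ↔ σ' v = v)) →
      fix k (K i) σ = fix k (K i) σ' := fun i σ σ' h => fix_iff ((hKL i).trans hLL') hU h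
  have h1 : ∀ x q, ψ (x⁻¹ * q * x) = ψ q := by
    intro x q
    change ((∑ i, n i * (fix k (K i) (o (x⁻¹ * q * x)) : ℤ) : ℤ) : ℚ) =
      ((∑ i, n i * (fix k (K i) (o q) : ℤ) : ℤ) : ℚ)
    congr 1
    refine Finset.sum_congr rfl fun i _ => ?_
    rw [← fix_conj (ok x) (o q)]
    congr 2
    apply hfixL'
    intro v hv
    have h4 : x⁻¹ * q * x = QuotientGroup.mk ((x.out : GG k)⁻¹ * (q.out : GG k) *
        (x.out : GG k)) := by
      rw [QuotientGroup.mk_mul, QuotientGroup.mk_mul, QuotientGroup.mk_inv, omk, omk]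
    rw [h4, ov _ _ hv]
    rfl
  have h2 : ∀ q q', Subgroup.zpowers q = Subgroup.zpowers q' → ψ q = ψ q' := by
    intro q q' hqq
    change ((∑ i, n i * (fix k (K i) (o q) : ℤ) : ℤ) : ℚ) =
      ((∑ i, n i * (fix k (K i) (o q') : ℤ) : ℤ) : ℚ)
    congr 1
    refine Finset.sum_congr rfl fun i _ => ?_
    congr 2
    apply hfixL'
    intro v hv
    constructor
    · intro h
      have : q' ∈ Subgroup.zpowers q := by rw [hqq]; exact Subgroup.mem_zpowers q'
      obtain ⟨m, hm⟩ := this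
      rw [← hm]
      exact opow q m v hv h
    · intro h
      have : q ∈ Subgroup.zpowers q' := by rw [← hqq]; exact Subgroup.mem_zpowers q
      obtain ⟨m, hm⟩ := this
      rw [← hm]
      exact opow q' m v hv h
  have h3 : ∀ q, ψ q ≠ 0 → q ∈ B := by
    intro q hq
    by_contra hqB
    apply hq
    by_cases hreal : IsEmpty (F q →+* ℝ)
    · exfalso
      apply hqB
      refine ⟨hreal, fun j => ⟨fun τ => ?_⟩⟩
      obtain ⟨w, hw1, hw2, hw3⟩ := StarkNumbers.fixed_root (hwL (Sum.inl j)) (hwL (Sum.inr j))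
        (hw2 (Sum.inl j)) (hw2 (Sum.inr j)) (o q)
      simp only [Sum.elim_inl, Sum.elim_inr] at hw3
      have hwF : w ∈ F q := (memF q w).2 ⟨hw1, hw2⟩
      have := hE j
      have hq : ∀ (r : ℚ) (_ : w ^ 2 = algebraMap ℚ Ω r), (τ ⟨w, hwF⟩) ^ 2 = (r : E j) := by
        intro r hr
        rw [← map_pow]
        have h5 : (⟨w, hwF⟩ : F q) ^ 2 = algebraMap ℚ (F q) r := Subtype.ext hr
        rw [h5]
        exact congrArg (fun k : ℚ →+* E j => k r)
          (Subsingleton.elim (τ.comp (algebraMap ℚ (F q))) (Rat.castHom (E j)))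
      rcases hw3 with h5 | h5 | h5
      · exact ha j _ (hq _ h5)
      · exact hb j _ (hq _ h5)
      · exact hab j _ (hq _ h5)
    · rw [not_isEmpty_iff] at hreal
      obtain ⟨τ⟩ := hreal
      obtain ⟨s, hs⟩ := exists_ext ι₀ (F q) τ
      have hccF : s⁻¹ * c * s ∈ GG (F q) := by
        rw [IntermediateField.mem_fixingSubgroup_iff]
        intro x hx
        have h2 : c (s x) = s x := (real_iff hc (s x)).2 ⟨τ ⟨x, hx⟩, hs x hx⟩
        rw [AlgEquiv.mul_apply, AlgEquiv.mul_apply, h2, ← AlgEquiv.mul_apply, inv_mul_cancel]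
        rfl
      have hccH : s⁻¹ * c * s ∈ H q := by rw [← hGF]; exact hccF
      have hcck : s⁻¹ * c * s ∈ GG k := hHG q hccH
      have hIs : G2.IsCC (s⁻¹ * c * s) := G2.IsCC.of_conj ⟨ι₀, hc⟩
      obtain ⟨m, u, hu, h2⟩ := mem_cyc_iff.1 hccH
      have h6 := hpat (s * o q * s⁻¹) m (s * u * s⁻¹) (hU.conj_mem u hu s) (by
        rw [conj_zpow]
        have h3 : c = s * ((o q) ^ m * u) * s⁻¹ := by
          rw [h2]; group
        rw [h3]
        group)
      have h9 : ∀ v ∈ L, o q v = (s⁻¹ * c * s) v := by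
        intro v hv
        have hsw : s v ∈ L := map_mem hNL s hv
        have h10 := h6 (s v) hsw
        have h12 : ∀ v : Ω, s⁻¹ (s v) = v := fun v => by
          rw [← AlgEquiv.mul_apply, inv_mul_cancel]; rfl
        rw [AlgEquiv.mul_apply, AlgEquiv.mul_apply, ← h10, AlgEquiv.mul_apply,
          AlgEquiv.mul_apply, h12, h12]
      have h13 := hcc _ hcck hIs
      change ((∑ i, n i * (fix k (K i) (o q) : ℤ) : ℤ) : ℚ) = 0
      rw [← Int.cast_zero, ← h13]
      congr 1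
      refine Finset.sum_congr rfl fun i _ => ?_
      congr 2
      apply fix_iff (hKL i) hNL
      intro v hv
      rw [h9 v hv]
  obtain ⟨cc, e1, e2⟩ := artinQ hB1 hB2 (Fintype.card (GG k ⧸ U.subgroupOf (GG k))) ψ h1 h2
    (fun q hq => ⟨h3 q hq, orderOf_le_card_univ⟩)
  obtain ⟨D, hD, m, hm⟩ := exists_den cc
  -- the relation
  have hcP : ∀ (h q : GG k ⧸ U.subgroupOf (GG k)),
      cP h q = (U.relIndex (H h) : ℚ) * (fix k (F h) (o q) : ℚ) := by
    intro h q
    have hcl : IsCl (GG (F h)) (fun _ : GG (F h) => (1 : ℂ)) := fun _ _ => rfl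
    have hle1 : GG (F h) ≤ GG k := by rw [hGF]; exact hHG h
    have hle2 : U ≤ GG (F h) := by rw [hGF]; exact hUH h
    have e3 := relIndex_mul_ind hle1 hle2 hcl ⟨o q, ok q⟩
    rw [← fix_eq_ind (hkF h) (ok q), hGF] at e3
    have e4 : ((U.relIndex (H h) : ℚ) * (fix k (F h) (o q) : ℚ) : ℂ) = ((cP h q : ℚ) : ℂ) := by
      have e5 : ((U.relIndex (H h) : ℚ) * (fix k (F h) (o q) : ℚ) : ℂ) =
        (U.relIndex (H h) : ℂ) * (fix k (F h) (o q) : ℂ) := by push_cast; rfl
      rw [e5, e3]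
      unfold cP
      rw [Rat.cast_sum]
      refine Finset.sum_congr rfl fun x _ => ?_
      have iff1 : (o x)⁻¹ * o q * o x ∈ H h ↔ x⁻¹ * q * x ∈ Subgroup.zpowers h := by
        have e6 : (QuotientGroup.mk ((x.out : GG k)⁻¹ * (q.out : GG k) * (x.out : GG k)) :
            GG k ⧸ U.subgroupOf (GG k)) = x⁻¹ * q * x := by
          rw [QuotientGroup.mk_mul, QuotientGroup.mk_mul, QuotientGroup.mk_inv, omk, omk]
        constructor
        · intro h5
          obtain ⟨m, u, hu, h6⟩ := mem_cyc_iff.1 h5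
          refine ⟨m, ?_⟩
          change h ^ m = _
          rw [← e6, ← omk h, ← QuotientGroup.mk_zpow, QuotientGroup.eq]
          change (o h ^ m)⁻¹ * ((o x)⁻¹ * o q * o x) ∈ U
          rw [← h6, inv_mul_cancel_left]
          exact hu
        · rintro ⟨m, hm⟩
          change h ^ m = _ at hm
          rw [← e6, ← omk h, ← QuotientGroup.mk_zpow, QuotientGroup.eq] at hm
          change (o h ^ m)⁻¹ * ((o x)⁻¹ * o q * o x) ∈ U at hm
          exact mem_cyc_iff.2 ⟨m, _, hm, mul_inv_cancel_left _ _⟩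
      unfold ext0
      by_cases h7 : (o x)⁻¹ * o q * o x ∈ H h
      · have h7' : ((x.out : GG k) : Ω ≃ₐ[ℚ] Ω)⁻¹ * ((⟨o q, ok q⟩ : GG k) : Ω ≃ₐ[ℚ] Ω) *
          ((x.out : GG k) : Ω ≃ₐ[ℚ] Ω) ∈ H h := h7
        rw [dif_pos h7', if_pos (iff1.1 h7), Rat.cast_one]
      · have h7' : ((x.out : GG k) : Ω ≃ₐ[ℚ] Ω)⁻¹ * ((⟨o q, ok q⟩ : GG k) : Ω ≃ₐ[ℚ] Ω) *
          ((x.out : GG k) : Ω ≃ₐ[ℚ] Ω) ∉ H h := h7
        rw [dif_neg h7', if_neg (fun h8 => h7 (iff1.2 h8)), Rat.cast_zero]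
    exact_mod_cast e4.symm
  refine ⟨D, hD, ?_⟩
  have hrel := hf (ι ⊕ (GG k ⧸ U.subgroupOf (GG k)))
    (Sum.elim (fun i => (D : ℤ) * n i) (fun h => -(m h * (U.relIndex (H h) : ℤ))))
    (Sum.elim K F) (by
      rintro (i | h)
      · exact hK i
      · exact ⟨hfF h, hkF h⟩) (by
      intro σ hσ
      rw [Fintype.sum_sum_type]
      simp only [Sum.elim_inl, Sum.elim_inr]
      obtain ⟨q, hq⟩ : ∃ q : GG k ⧸ U.subgroupOf (GG k), q = QuotientGroup.mk ⟨σ, hσ⟩ := ⟨_, rfl⟩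
      have hσq : ∀ K' : IntermediateField ℚ Ω, K' ≤ L' → fix k K' σ = fix k K' (o q) := by
        intro K' hK'
        apply fix_iff hK' hU
        intro v hv
        rw [hq, ov _ _ hv]
      have e3 := e1 q
      have e4 : ((D : ℤ) : ℚ) * ψ q = ∑ h, ((m h * (U.relIndex (H h) : ℤ) : ℤ) : ℚ) *
          (fix k (F h) (o q) : ℚ) := by
        rw [e3, Finset.mul_sum]
        refine Finset.sum_congr rfl fun h _ => ?_
        rw [hcP, Int.cast_natCast, ← mul_assoc, hm h]
        push_cast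
        ring
      have e5 : (∑ i, (D : ℤ) * n i * (fix k (K i) σ : ℤ)) =
          ∑ h, (m h * (U.relIndex (H h) : ℤ)) * (fix k (F h) σ : ℤ) := by
        have e6 : ((∑ i, (D : ℤ) * n i * (fix k (K i) σ : ℤ) : ℤ) : ℚ) =
            ((∑ h, (m h * (U.relIndex (H h) : ℤ)) * (fix k (F h) σ : ℤ) : ℤ) : ℚ) := by
          have e7 : ((∑ i, (D : ℤ) * n i * (fix k (K i) σ : ℤ) : ℤ) : ℚ) =
              ((D : ℤ) : ℚ) * ψ q := by
            change _ = ((D : ℤ) : ℚ) * ((∑ i, n i * (fix k (K i) (o q) : ℤ) : ℤ) : ℚ)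
            rw [← Int.cast_mul, Finset.mul_sum]
            congr 1
            refine Finset.sum_congr rfl fun i _ => ?_
            rw [hσq _ ((hKL i).trans hLL'), mul_assoc]
          rw [e7, e4]
          push_cast
          refine Finset.sum_congr rfl fun h _ => ?_
          rw [hσq _ (hFL' h)]
        exact_mod_cast e6
      simp only [neg_mul, Finset.sum_neg_distrib]
      rw [e5, add_neg_cancel])
  rw [Fintype.sum_sum_type] at hrel
  simp only [Sum.elim_inl, Sum.elim_inr] at hrel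
  have hz : ∀ h, -(m h * (U.relIndex (H h) : ℤ)) • f (F h) = 0 := by
    intro h
    by_cases hch : cc h = 0
    · have : m h = 0 := by
        have h5 := hm h
        rw [hch, mul_zero] at h5
        exact_mod_cast h5.symm
      rw [this, zero_mul, neg_zero, zero_smul]
    · obtain ⟨b1, b2⟩ := e2 h hch
      rw [h0 (F h) (hfF h) (hkF h) b1 b2, smul_zero]
  rw [Finset.sum_eq_zero fun h _ => hz h, add_zero] at hrel
  rw [← hrel, Finset.smul_sum]
  refine Finset.sum_congr rfl fun i _ => ?_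
  rw [mul_smul, natCast_zsmul]

end Pool.Agent.Q317.ST.Perm
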