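import Pool.Agent.Q317.ST.Perm2

/-!
# Real places
-/

set_option autoImplicit false

namespace Pool.Agent.Q317.ST.Perm

open scoped Classical
open IntermediateField Polynomial

attribute [-instance] DivisionRing.toRatAlgebra

variable {Ω : Type} [Field Ω] [Algebra ℚ Ω]

/-- the number of the embeddings of `K` in `ℝ` that extend the embedding `v` of `k` -/
noncomputable def realOver (k K : IntermediateField ℚ Ω) (v : k →+* ℝ) : ℕ :=
  Nat.card {ρ : K →+* ℝ // ∀ (x : K) (hx : (x : Ω) ∈ k), ρ x = v ⟨x, hx⟩}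

theorem fix_cc [IsAlgClosure ℚ Ω] {k K : IntermediateField ℚ Ω} {ι : Ω →+* ℂ}
    {c : Ω ≃ₐ[ℚ] Ω} (hc : ∀ x, ι (c x) = starRingEnd ℂ (ι x)) (v : k →+* ℝ)
    (hv : ∀ x : k, ι x = v x) : fix k K c = realOver k K v := by
  unfold fix realOver
  have hre : ∀ (τ : {τ : K →ₐ[ℚ] Ω // (∀ x : K, (x : Ω) ∈ k → τ x = x) ∧
      ∀ x, c (τ x) = τ x}) (x : K), ι (τ.1 x) = ((ι (τ.1 x)).re : ℂ) := by
    intro τ x
    obtain ⟨r, hr⟩ := (real_iff hc (τ.1 x)).1 (τ.2.2 x)
    rw [hr, Complex.ofReal_re]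
  refine Nat.card_congr (Equiv.ofBijective (fun τ => ⟨{
      toFun := fun x => (ι (τ.1 x)).re
      map_one' := by simp
      map_mul' := fun x y => by
        have h1 := hre τ x
        have h2 := hre τ y
        rw [map_mul, map_mul, h1, h2, ← Complex.ofReal_mul, Complex.ofReal_re, Complex.ofReal_re,
          Complex.ofReal_re]
      map_zero' := by simp
      map_add' := fun x y => by simp }, ?_⟩) ⟨?_, ?_⟩)
  · intro x hx
    change (ι (τ.1 x)).re = v ⟨x, hx⟩
    rw [τ.2.1 x hx]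
    have := hv ⟨x, hx⟩
    change ι (x : Ω) = _ at this
    rw [this, Complex.ofReal_re]
  · intro τ τ' h
    apply Subtype.ext
    apply AlgHom.ext
    intro x
    apply ι.injective
    rw [hre τ x, hre τ' x]
    have h1 := congrArg (fun t : {ρ : K →+* ℝ // ∀ (x : K) (hx : (x : Ω) ∈ k), ρ x = v ⟨x, hx⟩} =>
      t.1 x) h
    exact congrArg Complex.ofReal h1
  · rintro ⟨ρ, hρ⟩
    obtain ⟨s, hs⟩ := exists_ext ι K ρ
    refine ⟨⟨s.toAlgHom.comp K.val, ?_, ?_⟩, ?_⟩
    · intro x hx
      change s x = x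
      apply ι.injective
      rw [hs x x.2]
      have h1 := hρ x hx
      have h2 := hv ⟨x, hx⟩
      change ι (x : Ω) = _ at h2
      rw [h2]
      exact congrArg Complex.ofReal h1
    · intro x
      change c (s x) = s x
      exact (real_iff hc (s x)).2 ⟨ρ x, hs x x.2⟩
    · apply Subtype.ext
      apply RingHom.ext
      intro x
      change (ι (s x)).re = ρ x
      rw [hs x x.2, Complex.ofReal_re]

/-- every complex conjugation over `k` belongs to a real embedding of `k` -/
theorem exists_real [IsAlgClosure ℚ Ω] {k : IntermediateField ℚ Ω} {c : Ω ≃ₐ[ℚ] Ω} (hck : c ∈ GG k) {ι : Ω →+* ℂ}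
    (hc : ∀ x, ι (c x) = starRingEnd ℂ (ι x)) : ∃ v : k →+* ℝ, ∀ x : k, ι x = v x := by
  have hre : ∀ x : k, ι x = ((ι x).re : ℂ) := by
    intro x
    obtain ⟨r, hr⟩ := (real_iff hc (x : Ω)).1
      ((IntermediateField.mem_fixingSubgroup_iff _ _).1 hck x x.2)
    rw [hr, Complex.ofReal_re]
  refine ⟨{ toFun := fun x => (ι x).re
            map_one' := by simp
            map_mul' := fun x y => by
              have h1 := hre x
              have h2 := hre y
              rw [MulMemClass.coe_mul, map_mul, h1, h2, ← Complex.ofReal_mul, Complex.ofReal_re,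
                Complex.ofReal_re, Complex.ofReal_re]
            map_zero' := by simp
            map_add' := fun x y => by simp }, hre⟩

/-- every real embedding of `k` belongs to a complex conjugation over `k` -/
theorem exists_cc [IsAlgClosure ℚ Ω] {k : IntermediateField ℚ Ω} (v : k →+* ℝ) :
    ∃ (ι : Ω →+* ℂ) (c : Ω ≃ₐ[ℚ] Ω), c ∈ GG k ∧ (∀ x, ι (c x) = starRingEnd ℂ (ι x)) ∧
      ∀ x : k, ι x = v x := by
  obtain ⟨ι₀⟩ := exists_emb (Ω := Ω)
  obtain ⟨s, hs⟩ := exists_ext ι₀ k v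
  let ι : Ω →+* ℂ := ι₀.comp (s : Ω →+* Ω)
  obtain ⟨c, hc⟩ := exists_conj ι
  have hv : ∀ x : k, ι x = v x := fun x => hs x x.2
  refine ⟨ι, c, ?_, hc, hv⟩
  rw [IntermediateField.mem_fixingSubgroup_iff]
  intro x hx
  exact (real_iff hc x).2 ⟨v ⟨x, hx⟩, hv ⟨x, hx⟩⟩

theorem respects_real [IsAlgClosure ℚ Ω] {k : IntermediateField ℚ Ω} (v : k →+* ℝ) :
    Respects k (fun K => (realOver k K v : ℤ)) := by
  intro ι _ n K hK h
  obtain ⟨ι₀, c, hck, hc, hv⟩ := exists_cc v
  have h1 := h c hck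
  simp only [fix_cc hc v hv] at h1
  exact h1

/-- the main theorem in terms of the real embeddings -/
theorem main_real [hΩ : IsAlgClosure ℚ Ω] {k : IntermediateField ℚ Ω} [hk : FiniteDimensional ℚ k]
    {A : Type} [AddCommGroup A] {f : IntermediateField ℚ Ω → A} (hf : Respects k f)
    {J : Type} [Finite J] (E : J → Type) [∀ j, Field (E j)] (hE : ∀ j, CharZero (E j))
    (hnE : ∀ j, StarkNumbers.NonSq (E j))
    (h0 : ∀ F : IntermediateField ℚ Ω, FiniteDimensional ℚ F → k ≤ F → IsEmpty (F →+* ℝ) →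
      (∀ j, IsEmpty (F →+* E j)) → f F = 0)
    (ι : Type) [Fintype ι] (n : ι → ℤ) (K : ι → IntermediateField ℚ Ω)
    (hK : ∀ i, FiniteDimensional ℚ (K i) ∧ k ≤ K i)
    (hr : ∀ v : k →+* ℝ, ∑ i, n i * (realOver k (K i) v : ℤ) = 0) :
    ∃ D : ℕ, D ≠ 0 ∧ D • ∑ i, n i • f (K i) = 0 := by
  refine main hf E hE hnE h0 ι n K hK ?_
  rintro c hck ⟨ι₀, hc⟩
  obtain ⟨v, hv⟩ := exists_real hck hc
  simp only [fix_cc hc v hv]
  exact hr v

theorem finite_real (k : IntermediateField ℚ Ω) [hk : FiniteDimensional ℚ k] :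
    Finite (k →+* ℝ) := by
  let i1 : Algebra ℚ ℝ := DivisionRing.toRatAlgebra
  have : Finite (k →ₐ[ℚ] ℝ) := inferInstance
  refine Finite.of_injective (fun f : k →+* ℝ => ({ f with
    commutes' := fun q => congrArg (fun g : ℚ →+* ℝ => g q)
      (Subsingleton.elim (f.comp (algebraMap ℚ k)) (algebraMap ℚ ℝ)) } : k →ₐ[ℚ] ℝ)) ?_
  intro f g h
  apply RingHom.ext
  intro x
  exact congrArg (fun t : k →ₐ[ℚ] ℝ => t x) h

/-- **Theorem.** An integer valued function that respects the relations and vanishes on the totally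
complex fields without embeddings in the `E j` is a linear combination of the numbers of real
places. -/
theorem exists_lam [hΩ : IsAlgClosure ℚ Ω] {k : IntermediateField ℚ Ω} [hk : FiniteDimensional ℚ k]
    {f : IntermediateField ℚ Ω → ℤ} (hf : Respects k f)
    {J : Type} [Finite J] (E : J → Type) [∀ j, Field (E j)] (hE : ∀ j, CharZero (E j))
    (hnE : ∀ j, StarkNumbers.NonSq (E j))
    (h0 : ∀ F : IntermediateField ℚ Ω, FiniteDimensional ℚ F → k ≤ F → IsEmpty (F →+* ℝ) →
      (∀ j, IsEmpty (F →+* E j)) → f F = 0) :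
    ∃ lam : (k →+* ℝ) → ℚ, ∀ K : IntermediateField ℚ Ω, FiniteDimensional ℚ K → k ≤ K →
      (f K : ℚ) = ∑ᶠ v, lam v * (realOver k K v : ℚ) := by
  have := finite_real k
  have := Fintype.ofFinite (k →+* ℝ)
  let S := {K : IntermediateField ℚ Ω // FiniteDimensional ℚ K ∧ k ≤ K}
  let R : (S →₀ ℚ) →ₗ[ℚ] ((k →+* ℝ) → ℚ) :=
    Finsupp.linearCombination ℚ fun K v => (realOver k K.1 v : ℚ)
  let Φ : (S →₀ ℚ) →ₗ[ℚ] ℚ := Finsupp.linearCombination ℚ fun K => (f K.1 : ℚ)
  have hker : Φ ∈ (LinearMap.ker R).dualAnnihilator := by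
    rw [Submodule.mem_dualAnnihilator]
    intro x hx
    rw [LinearMap.mem_ker] at hx
    obtain ⟨D, hD, hm⟩ : ∃ D : ℕ, D ≠ 0 ∧ ∀ K : S, ∃ m : ℤ, (D : ℚ) * x K = m := by
      refine ⟨∏ K ∈ x.support, (x K).den, Finset.prod_ne_zero_iff.2 fun K _ => (x K).den_nz, ?_⟩
      intro K
      by_cases hK : K ∈ x.support
      · obtain ⟨t, ht⟩ := Finset.dvd_prod_of_mem (fun K => (x K).den) hK
        refine ⟨t * (x K).num, ?_⟩
        rw [ht]
        push_cast
        have h1 : (x K) * ((x K).den : ℚ) = (x K).num := Rat.mul_den_eq_num (x K)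
        rw [← h1]
        ring
      · rw [Finsupp.notMem_support_iff] at hK
        exact ⟨0, by rw [hK, mul_zero, Int.cast_zero]⟩
    choose m hm using hm
    obtain ⟨D', hD', h1⟩ := main_real hf E hE hnE h0 x.support (fun K => m K.1) (fun K => K.1.1)
      (fun K => K.1.2) (by
        intro v
        have h2 := congrFun hx v
        simp only [R, Finsupp.linearCombination_apply, Finsupp.sum, Finset.sum_apply, Pi.smul_apply,
          smul_eq_mul, Pi.zero_apply] at h2
        have h3 : ((∑ K : x.support, m K.1 * (realOver k K.1.1 v : ℤ) : ℤ) : ℚ) = 0 := by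
          push_cast
          rw [Finset.sum_coe_sort x.support (fun K => (m K : ℚ) * (realOver k K.1 v : ℚ))]
          rw [Finset.sum_congr rfl fun K _ => by rw [← hm K, mul_assoc], ← Finset.mul_sum, h2,
            mul_zero]
        exact_mod_cast h3)
    have h4 : ∑ K : x.support, m K.1 * f K.1.1 = 0 := by
      rcases smul_eq_zero.1 h1 with h | h
      · exact absurd h hD'
      · exact h
    have h5 : ((∑ K : x.support, m K.1 * f K.1.1 : ℤ) : ℚ) = (D : ℚ) * Φ x := by
      simp only [Φ, Finsupp.linearCombination_apply, Finsupp.sum, smul_eq_mul]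
      push_cast
      rw [Finset.sum_coe_sort x.support (fun K => (m K : ℚ) * (f K.1 : ℚ)), Finset.mul_sum]
      refine Finset.sum_congr rfl fun K _ => ?_
      rw [← hm K, mul_assoc]
    rw [h4, Int.cast_zero] at h5
    rcases mul_eq_zero.1 h5.symm with h | h
    · exact absurd (by exact_mod_cast h) hD
    · exact h
  rw [← LinearMap.range_dualMap_eq_dualAnnihilator_ker] at hker
  obtain ⟨g, hg⟩ := hker
  refine ⟨fun v => g (Pi.single v 1), fun K h1 h2 => ?_⟩
  have h3 := congrArg (fun t : (S →₀ ℚ) →ₗ[ℚ] ℚ => t (Finsupp.single ⟨K, h1, h2⟩ 1)) hg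
  simp only [LinearMap.dualMap_apply, R, Φ, Finsupp.linearCombination_single, one_smul] at h3
  rw [← h3, finsum_eq_sum_of_fintype]
  have h4 : (fun v => (realOver k K v : ℚ)) =
      ∑ v, (realOver k K v : ℚ) • (Pi.single v 1 : (k →+* ℝ) → ℚ) := by
    funext w
    rw [Finset.sum_apply, Finset.sum_eq_single w]
    · simp
    · intro v _ hv
      simp [Pi.single_eq_of_ne hv.symm]
    · intro h
      exact absurd (Finset.mem_univ w) h
  rw [h4, map_sum]
  refine Finset.sum_congr rfl fun v _ => ?_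
  rw [map_smul, smul_eq_mul, mul_comm]

end Pool.Agent.Q317.ST.Perm
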