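import Pool.Agent.Q317.ST.Perm3
import Pool.Agent.Q317.ST.Emb2

/-!
# Quadratic extensions
-/

set_option autoImplicit false

namespace Pool.Agent.Q317.ST.Perm

open scoped Classical
open IntermediateField Polynomial

attribute [-instance] DivisionRing.toRatAlgebra

variable {Ω : Type} [Field Ω] [Algebra ℚ Ω]

theorem sq_cases {a b : Ω} (h : a ^ 2 = b ^ 2) : a = b ∨ a = -b := by
  have h1 : (a - b) * (a + b) = 0 := by linear_combination h
  rcases mul_eq_zero.1 h1 with h | h
  · exact Or.inl (sub_eq_zero.1 h)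
  · exact Or.inr (eq_neg_of_add_eq_zero_left h)

theorem exists_flip [IsAlgClosure ℚ Ω] {K : IntermediateField ℚ Ω} {w : Ω} (hw : w ^ 2 ∈ K)
    (hwK : w ∉ K) : ∃ t ∈ GG K, t w = -w := by
  have hG : IsGalois ℚ Ω := by
    have := normalΩ (Ω := Ω)
    exact ⟨⟩
  have h1 : ∃ t ∈ GG K, t w ≠ w := by
    by_contra h
    push Not at h
    apply hwK
    rw [← InfiniteGalois.fixedField_fixingSubgroup K, IntermediateField.mem_fixedField_iff]
    exact h
  obtain ⟨t, ht, h2⟩ := h1
  refine ⟨t, ht, ?_⟩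
  have h3 : (t w) ^ 2 = w ^ 2 := by
    rw [← map_pow]
    exact (IntermediateField.mem_fixingSubgroup_iff _ _).1 ht _ hw
  exact (sq_cases h3).resolve_left h2

/-- the element `w` of the field generated by `K` and `w` -/
noncomputable def gw (K : IntermediateField ℚ Ω) (w : Ω) : ↥(K ⊔ ℚ⟮w⟯) :=
  ⟨w, (le_sup_right : ℚ⟮w⟯ ≤ K ⊔ ℚ⟮w⟯) (mem_adjoin_simple_self ℚ w)⟩

theorem fix_sqrt [IsAlgClosure ℚ Ω] {k K : IntermediateField ℚ Ω} (hkK : k ≤ K) {w : Ω}
    (hw : w ^ 2 ∈ k) (hwK : w ∉ K) (σ : Ω ≃ₐ[ℚ] Ω) :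
    fix k (K ⊔ ℚ⟮w⟯) σ = if σ w = w then 2 * fix k K σ else 0 := by
  have hle : K ≤ K ⊔ ℚ⟮w⟯ := le_sup_left
  have hsgn : ∀ τ : {τ : ↥(K ⊔ ℚ⟮w⟯) →ₐ[ℚ] Ω // (∀ x : ↥(K ⊔ ℚ⟮w⟯), (x : Ω) ∈ k → τ x = x) ∧
      ∀ x, σ (τ x) = τ x}, τ.1 (gw K w) = w ∨ τ.1 (gw K w) = -w := by
    intro τ
    apply sq_cases
    rw [← map_pow]
    exact τ.2.1 ((gw K w) ^ 2) hw
  by_cases hσ : σ w = w
  · rw [if_pos hσ]
    obtain ⟨t, ht, htw⟩ := exists_flip (hkK hw) hwK
    have ht' := (IntermediateField.mem_fixingSubgroup_iff _ _).1 ht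
    have h0 : w ≠ 0 := by
      rintro rfl
      exact hwK K.zero_mem
    have hchar : CharZero Ω := charZero_of_injective_algebraMap (algebraMap ℚ Ω).injective
    have hne : w ≠ -w := by
      intro h
      apply h0
      have h1 : (2 : Ω) * w = 0 := by linear_combination h
      exact (mul_eq_zero.1 h1).resolve_left two_ne_zero
    have e : {τ : ↥(K ⊔ ℚ⟮w⟯) →ₐ[ℚ] Ω // (∀ x : ↥(K ⊔ ℚ⟮w⟯), (x : Ω) ∈ k → τ x = x) ∧
        ∀ x, σ (τ x) = τ x} ≃ Bool × {τ : K →ₐ[ℚ] Ω // (∀ x : K, (x : Ω) ∈ k → τ x = x) ∧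
        ∀ x, σ (τ x) = τ x} := by
      refine Equiv.ofBijective (fun τ => (decide (τ.1 (gw K w) = w),
        ⟨τ.1.comp (inclusion hle), fun x hx => τ.2.1 (inclusion hle x) hx,
          fun x => τ.2.2 (inclusion hle x)⟩)) ⟨?_, ?_⟩
      · intro τ τ' h
        obtain ⟨h1, h2⟩ := Prod.mk.inj h
        apply Subtype.ext
        have h3 : τ.1 (gw K w) = τ'.1 (gw K w) := by
          rw [decide_eq_decide] at h1
          rcases hsgn τ with h4 | h4
          · rw [h4, h1.1 h4]
          · rcases hsgn τ' with h5 | h5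
            · rw [h1.2 h5, h5]
            · rw [h4, h5]
        have h4 : τ.1.toRingHom = τ'.1.toRingHom := by
          refine hom_ext_sup _ _ ?_ h3
          have h5 := congrArg Subtype.val h2
          apply RingHom.ext
          intro x
          exact congrArg (fun t : K →ₐ[ℚ] Ω => t x) h5
        apply AlgHom.ext
        intro x
        exact congrArg (fun t : ↥(K ⊔ ℚ⟮w⟯) →+* Ω => t x) h4
      · rintro ⟨b, τ₀, h1, h2⟩
        obtain ⟨s, hs⟩ := exists_lift τ₀
        have hsw : s w = w ∨ s w = -w := by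
          apply sq_cases
          rw [← map_pow]
          have h3 := hs ⟨w ^ 2, hkK hw⟩
          rw [h1 ⟨w ^ 2, hkK hw⟩ hw] at h3
          exact h3
        obtain ⟨u, hu, huw⟩ : ∃ u : Ω ≃ₐ[ℚ] Ω, (∀ x : K, u x = τ₀ x) ∧
            u w = if b = true then w else -w := by
          have hst : ∀ x : K, (s * t) x = τ₀ x := by
            intro x
            rw [AlgEquiv.mul_apply, ht' x x.2]
            exact hs x
          have hstw : (s * t) w = -(s w) := by rw [AlgEquiv.mul_apply, htw, map_neg]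
          cases b
          · rcases hsw with h | h
            · exact ⟨s * t, hst, by rw [hstw, h]; rfl⟩
            · exact ⟨s, hs, by rw [h]; rfl⟩
          · rcases hsw with h | h
            · exact ⟨s, hs, by rw [h]; rfl⟩
            · exact ⟨s * t, hst, by rw [hstw, h, neg_neg]; rfl⟩
        have huσ : u⁻¹ * σ * u ∈ GG (K ⊔ ℚ⟮w⟯) := by
          have i2 : ∀ v : Ω, u⁻¹ (u v) = v := fun v => by
            rw [← AlgEquiv.mul_apply, inv_mul_cancel]; rfl
          rw [mem_GG_adjoin, IntermediateField.mem_fixingSubgroup_iff]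
          constructor
          · intro x hx
            rw [AlgEquiv.mul_apply, AlgEquiv.mul_apply]
            have h3 : σ (u x) = u x := by
              have h4 := h2 ⟨x, hx⟩
              rw [← hu ⟨x, hx⟩] at h4
              exact h4
            rw [h3, i2]
          · rw [AlgEquiv.mul_apply, AlgEquiv.mul_apply]
            have h3 : σ (u w) = u w := by
              rw [huw]
              split_ifs
              · exact hσ
              · rw [map_neg, hσ]
            rw [h3, i2]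
        refine ⟨⟨u.toAlgHom.comp (K ⊔ ℚ⟮w⟯).val, ?_, ?_⟩, ?_⟩
        · intro x hx
          have h3 := hu ⟨x, hkK hx⟩
          rw [h1 ⟨x, hkK hx⟩ hx] at h3
          exact h3
        · intro x
          change σ (u x) = u x
          have h3 := (IntermediateField.mem_fixingSubgroup_iff _ _).1 huσ x x.2
          rw [AlgEquiv.mul_apply, AlgEquiv.mul_apply] at h3
          have h4 := congrArg u h3
          rw [← AlgEquiv.mul_apply, mul_inv_cancel] at h4
          exact h4
        · apply Prod.ext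
          · change decide (u w = w) = b
            rw [huw]
            cases b
            · simpa using hne.symm
            · simp
          · apply Subtype.ext
            apply AlgHom.ext
            intro x
            exact hu x
    unfold fix
    rw [Nat.card_congr e, Nat.card_prod]
    congr 1
    rw [Nat.card_eq_fintype_card, Fintype.card_bool]
  · rw [if_neg hσ]
    unfold fix
    have : IsEmpty {τ : ↥(K ⊔ ℚ⟮w⟯) →ₐ[ℚ] Ω // (∀ x : ↥(K ⊔ ℚ⟮w⟯), (x : Ω) ∈ k → τ x = x) ∧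
      ∀ x, σ (τ x) = τ x} := by
      refine ⟨fun τ => hσ ?_⟩
      have h1 := τ.2.2 (gw K w)
      rcases hsgn τ with h | h
      · rw [h] at h1
        exact h1
      · rw [h, map_neg] at h1
        exact neg_injective h1
    exact Nat.card_of_isEmpty

/-- the real embeddings of quadratic extensions -/
theorem realOver_sqrt [IsAlgClosure ℚ Ω] {k K : IntermediateField ℚ Ω} (hkK : k ≤ K) {w : Ω}
    (hw : w ^ 2 ∈ k) (h0 : w ≠ 0) (hwK : w ∉ K) (v : k →+* ℝ) :
    realOver k (K ⊔ ℚ⟮w⟯) v = if 0 < v ⟨w ^ 2, hw⟩ then 2 * realOver k K v else 0 := by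
  obtain ⟨ι, c, hck, hc, hv⟩ := exists_cc v
  rw [← fix_cc hc v hv, ← fix_cc hc v hv, fix_sqrt hkK hw hwK c]
  have h1 : ι w ^ 2 = (v ⟨w ^ 2, hw⟩ : ℂ) := by
    rw [← map_pow]
    exact hv ⟨w ^ 2, hw⟩
  by_cases hpos : 0 < v ⟨w ^ 2, hw⟩
  · rw [if_pos hpos, if_pos (real_sqrt_pos hc hpos h1)]
  · rw [if_neg hpos, if_neg]
    intro h
    obtain ⟨r, hr⟩ := (real_iff hc w).1 h
    rw [hr] at h1
    have h2 : r ^ 2 = v ⟨w ^ 2, hw⟩ := by exact_mod_cast h1
    have hr0 : r ≠ 0 := by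
      rintro rfl
      apply h0
      apply ι.injective
      rw [hr, map_zero, Complex.ofReal_zero]
    apply hpos
    rw [← h2]
    positivity

theorem realOver_pos {k K : IntermediateField ℚ Ω} {w : Ω}
    (hw : w ^ 2 ∈ k) (h0 : w ≠ 0) (hwK : w ∈ K) (v : k →+* ℝ) (h : realOver k K v ≠ 0) :
    0 < v ⟨w ^ 2, hw⟩ := by
  unfold realOver at h
  obtain ⟨⟨ρ, hρ⟩⟩ := (Nat.card_ne_zero.1 h).1
  have h1 := hρ (⟨w, hwK⟩ ^ 2) hw
  rw [map_pow] at h1
  have h2 : (⟨(((⟨w, hwK⟩ : K) ^ 2 : K) : Ω), hw⟩ : k) = ⟨w ^ 2, hw⟩ := rfl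
  have h3 : ρ ⟨w, hwK⟩ ≠ 0 := by
    intro h
    apply h0
    have := ρ.injective (h.trans (map_zero ρ).symm)
    exact congrArg Subtype.val this
  rw [← h2, ← h1]
  positivity

end Pool.Agent.Q317.ST.Perm
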