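import Pool.Agent.Q317.ST.NF

/-!
# Systems of numbers attached to Artin characters of number fields
-/

set_option autoImplicit false

namespace Pool.Agent.Q317.ST

open scoped Classical
open IntermediateField Polynomial

attribute [-instance] DivisionRing.toRatAlgebra

/-- the composition of a complex function with an automorphism of `ℂ` -/
def tw {X : Type} (σ : ℂ ≃+* ℂ) (χ : X → ℂ) : X → ℂ := fun g => σ (χ g)

section

variable {Γ : Type} [Group Γ]

theorem tw_ind {G H : Subgroup Γ} (σ : ℂ ≃+* ℂ) (χ : H → ℂ) :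
    tw σ (ind G H χ) = ind G H (tw σ χ) := by
  funext g
  unfold tw ind
  have h1 := AddEquiv.map_finsum σ.toAddEquiv (fun x : G ⧸ H.subgroupOf G =>
    if h : ((x.out : G) : Γ)⁻¹ * g * ((x.out : G) : Γ) ∈ H then χ ⟨_, h⟩ else 0)
  refine h1.trans (finsum_congr fun x => ?_)
  split_ifs with h
  · rfl
  · exact map_zero σ

theorem tw_add {X : Type} (σ : ℂ ≃+* ℂ) (χ₁ χ₂ : X → ℂ) : tw σ (χ₁ + χ₂) = tw σ χ₁ + tw σ χ₂ := by
  funext g
  exact map_add σ _ _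

theorem IsCharOf.tw {G U : Subgroup Γ} {χ : G → ℂ} (h : IsCharOf χ U) (σ : ℂ ≃+* ℂ) :
    IsCharOf (tw σ χ) U := by
  obtain ⟨n, ρ, h1, h2⟩ := h
  refine ⟨n, ((σ : ℂ →+* ℂ).mapMatrix : Matrix (Fin n) (Fin n) ℂ →+* _).toMonoidHom.comp ρ, ?_, ?_⟩
  · intro g hg
    simp [h1 g hg]
  · intro g
    change σ (χ g) = _
    rw [h2 g]
    simp [Matrix.trace, Matrix.diag]

namespace Aff

variable {ℓ : ℕ} {G H N : Subgroup Γ} (a : Aff ℓ G H N)

/-- the linear character of `N` attached to `q`, as a homomorphism -/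
noncomputable def θm (ψ : AddChar (ZMod ℓ) ℂ) (q : (ZMod ℓ)ˣ) : N →* ℂ where
  toFun := a.θ ψ q
  map_one' := by
    have h1 : (⟨((1 : N) : Γ), a.nle (1 : N).2⟩ : G) = 1 := rfl
    unfold θ
    rw [h1, a.one, mul_zero, AddChar.map_zero_eq_one]
  map_mul' g h := by
    have h1 : (⟨((g * h : N) : Γ), a.nle (g * h : N).2⟩ : G) =
      ⟨g, a.nle g.2⟩ * ⟨h, a.nle h.2⟩ := rfl
    have h2 : a.u ⟨g, a.nle g.2⟩ = 1 := (a.memN _).1 g.2
    unfold θ
    rw [h1, a.mul, h2, Units.val_one, one_mul, mul_add, AddChar.map_add_eq_mul]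

include a in
theorem finH [Fact ℓ.Prime] : Finite (G ⧸ H.subgroupOf G) := Finite.of_equiv _ a.e.symm

include a in
theorem finN [Fact ℓ.Prime] : Finite (G ⧸ N.subgroupOf G) := Finite.of_equiv _ a.eN.symm

/-- the characters of `H` and `N` in the relation -/
noncomputable def ξH (χ : G → ℂ) : H → ℂ := fun h => χ ⟨h, a.hle h.2⟩

/-- the characters of `H` and `N` in the relation -/
noncomputable def ξN (ψ : AddChar (ZMod ℓ) ℂ) (χ : G → ℂ) (q : (ZMod ℓ)ˣ) : N → ℂ :=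
  fun n => χ ⟨n, a.nle n.2⟩ * a.θm ψ q n

theorem rel [Fact ℓ.Prime] {ψ : AddChar (ZMod ℓ) ℂ} (hψ : ψ.IsPrimitive) {χ : G → ℂ}
    (hχ : IsCl G χ) : ind G H (a.ξH χ) = χ +
      ∑ q : (ZMod ℓ)ˣ ⧸ a.u.range, ind G N (a.ξN ψ χ q.out) := by
  funext g
  rw [Pi.add_apply, Finset.sum_apply]
  exact a.relation hψ hχ g

theorem charH {U : Subgroup Γ} {χ : G → ℂ} (h : IsCharOf χ U) : IsCharOf (a.ξH χ) U :=
  h.res a.hle

theorem charN {U : Subgroup Γ} (ψ : AddChar (ZMod ℓ) ℂ) (q : (ZMod ℓ)ˣ) (hU : U ≤ H) {χ : G → ℂ}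
    (h : IsCharOf χ U) : IsCharOf (a.ξN ψ χ q) U := by
  refine IsCharOf.mul_lin (h.res a.nle) (a.θm ψ q) ?_
  intro g hg
  change a.θ ψ q g = 1
  unfold θ
  rw [(a.memH ⟨g, a.nle g.2⟩).1 (hU hg), mul_zero, AddChar.map_zero_eq_one]

end Aff

end

variable (Ω : Type) [Field Ω] [Algebra ℚ Ω]

/-- Numbers `A_S(χ, φ_S)` for the finite extensions `K` of `ℚ` in `Ω`, with the known formal properties.
`Choice K` is the set of triples `(L, S, φ_S)`: `L ⊆ Ω` is a finite Galois extension of `K`, `S` a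
finite set of places of `K` containing the archimedean ones and `φ_S` a `Gal(L/K)`-isomorphism
`ℚ ⊗ X_{L,S} → ℚ ⊗ O_{L,S}^×`. The characters of `Gal(L/K)` are the functions `χ` on the absolute
Galois group of `K` with `IsCharOf χ (GG L)`. -/
structure StarkNumbers where
  /-- the triples `(L, S, φ_S)` for the base field `K` -/
  Choice : IntermediateField ℚ Ω → Type
  /-- the field `L` -/
  top : ∀ {K : IntermediateField ℚ Ω}, Choice K → IntermediateField ℚ Ω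
  /-- the number `A_S(χ, φ_S)` -/
  A : ∀ {K : IntermediateField ℚ Ω}, Choice K → (GG K → ℂ) → ℂˣ
  /-- `K` is a subfield of `L` -/
  le_top : ∀ {K : IntermediateField ℚ Ω} (κ : Choice K), K ≤ top κ
  /-- `L` is a number field -/
  finite : ∀ {K : IntermediateField ℚ Ω} (κ : Choice K), FiniteDimensional ℚ (top κ)
  /-- there are choices for each `L` that is a Galois extension of `ℚ` -/
  exists_choice : ∀ K L : IntermediateField ℚ Ω, K ≤ L → FiniteDimensional ℚ L → Normal ℚ L →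
    ∃ κ : Choice K, top κ = L
  /-- `A_S(χ₁ + χ₂, φ_S) = A_S(χ₁, φ_S) A_S(χ₂, φ_S)` -/
  add : ∀ {K : IntermediateField ℚ Ω} (κ : Choice K) (χ₁ χ₂ : GG K → ℂ),
    IsCharOf χ₁ (GG (top κ)) → IsCharOf χ₂ (GG (top κ)) → A κ (χ₁ + χ₂) = A κ χ₁ * A κ χ₂
  /-- A choice `(L, S, φ_S)` for `K` gives a choice `(L, S', φ_S)` for each field `K'` between `K` and
  `L`, and `A_S(Ind χ, φ_S) = A_{S'}(χ, φ_S)`. -/
  induced : ∀ {K K' : IntermediateField ℚ Ω} (_ : K ≤ K') (κ : Choice K) (_ : K' ≤ top κ),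
    ∃ κ' : Choice K', top κ' = top κ ∧
      ∀ χ : GG K' → ℂ, IsCharOf χ (GG (top κ)) → A κ (ind (GG K) (GG K') χ) = A κ' χ
  /-- `σ(A_S(χ, φ_S)) / A_S(σ ∘ χ, φ_S)` does not depend on the choice. -/
  indep : ∀ {K : IntermediateField ℚ Ω} (κ κ' : Choice K) (χ : GG K → ℂ) (σ : ℂ ≃+* ℂ),
    IsCharOf χ (GG (top κ)) → IsCharOf χ (GG (top κ')) →
      σ (A κ χ) / A κ (tw σ χ) = σ (A κ' χ) / A κ' (tw σ χ)

namespace StarkNumbers

variable {Ω} (N : StarkNumbers Ω)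

/-- Stark's conjecture for the base field `K`: for all Galois extensions `L` of `K`, all `S`, all
`φ_S`, all characters `χ` of `Gal(L/K)` and all automorphisms `σ` of `ℂ`. -/
def StarkFor (K : IntermediateField ℚ Ω) : Prop :=
  ∀ (κ : N.Choice K) (χ : GG K → ℂ), IsCharOf χ (GG (N.top κ)) →
    ∀ σ : ℂ ≃+* ℂ, σ (N.A κ χ) = N.A κ (tw σ χ)

variable {N}

/-- the assertion for one character -/
def Good {K : IntermediateField ℚ Ω} (κ : N.Choice K) (σ : ℂ ≃+* ℂ) (χ : GG K → ℂ) : Prop :=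
  σ (N.A κ χ) = N.A κ (tw σ χ)

theorem Good.add {K : IntermediateField ℚ Ω} {κ : N.Choice K} {σ : ℂ ≃+* ℂ} {χ₁ χ₂ : GG K → ℂ}
    (h1 : IsCharOf χ₁ (GG (N.top κ))) (h2 : IsCharOf χ₂ (GG (N.top κ)))
    (g1 : Good κ σ χ₁) (g2 : Good κ σ χ₂) : Good κ σ (χ₁ + χ₂) := by
  unfold Good at *
  rw [tw_add, N.add κ _ _ h1 h2, N.add κ _ _ (h1.tw σ) (h2.tw σ), Units.val_mul, Units.val_mul,
    map_mul, g1, g2]

theorem Good.of_add {K : IntermediateField ℚ Ω} {κ : N.Choice K} {σ : ℂ ≃+* ℂ} {χ₁ χ₂ : GG K → ℂ}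
    (h1 : IsCharOf χ₁ (GG (N.top κ))) (h2 : IsCharOf χ₂ (GG (N.top κ)))
    (g : Good κ σ (χ₁ + χ₂)) (g2 : Good κ σ χ₂) : Good κ σ χ₁ := by
  unfold Good at *
  rw [tw_add, N.add κ _ _ h1 h2, N.add κ _ _ (h1.tw σ) (h2.tw σ), Units.val_mul, Units.val_mul,
    map_mul, g2] at g
  exact mul_right_cancel₀ (Units.ne_zero _) g

theorem Good.zero {K : IntermediateField ℚ Ω} {κ : N.Choice K} {σ : ℂ ≃+* ℂ} :
    Good κ σ (0 : GG K → ℂ) := by
  have h0 : N.A κ (0 : GG K → ℂ) = 1 := by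
    have h1 := N.add κ 0 0 IsCharOf.zero IsCharOf.zero
    rw [add_zero] at h1
    exact left_eq_mul.1 h1
  have h2 : tw σ (0 : GG K → ℂ) = 0 := by
    funext g
    exact map_zero σ
  unfold Good
  rw [h2, h0, Units.val_one, map_one]

theorem Good.sum {K : IntermediateField ℚ Ω} {κ : N.Choice K} {σ : ℂ ≃+* ℂ} {ι : Type}
    (s : Finset ι) (χ : ι → GG K → ℂ) (h : ∀ i ∈ s, IsCharOf (χ i) (GG (N.top κ)))
    (g : ∀ i ∈ s, Good κ σ (χ i)) : Good κ σ (∑ i ∈ s, χ i) := by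
  induction s using Finset.induction_on with
  | empty => simpa using Good.zero
  | insert a s ha ih =>
    rw [Finset.sum_insert ha]
    exact Good.add (h a (Finset.mem_insert_self _ _))
      (IsCharOf.sum s χ fun i hi => h i (Finset.mem_insert_of_mem hi))
      (g a (Finset.mem_insert_self _ _))
      (ih (fun i hi => h i (Finset.mem_insert_of_mem hi))
        fun i hi => g i (Finset.mem_insert_of_mem hi))

theorem Good.change {K : IntermediateField ℚ Ω} {κ κ' : N.Choice K} {σ : ℂ ≃+* ℂ} {χ : GG K → ℂ}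
    (h : IsCharOf χ (GG (N.top κ))) (h' : IsCharOf χ (GG (N.top κ'))) (g : Good κ' σ χ) :
    Good κ σ χ := by
  unfold Good at *
  have h1 := N.indep κ κ' χ σ h h'
  rw [g, div_self (Units.ne_zero _), div_eq_one_iff_eq (Units.ne_zero _)] at h1
  exact h1

/-- induction -/
theorem Good.ind {K K' : IntermediateField ℚ Ω} (hK : N.StarkFor K') (hle : K ≤ K')
    (κ : N.Choice K) (hL : K' ≤ N.top κ) (σ : ℂ ≃+* ℂ) {χ : GG K' → ℂ}
    (h : IsCharOf χ (GG (N.top κ))) : Good κ σ (ind (GG K) (GG K') χ) := by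
  obtain ⟨κ', h1, h2⟩ := N.induced hle κ hL
  unfold Good
  rw [tw_ind, h2 χ h, h2 _ (h.tw σ)]
  exact hK κ' χ (by rw [h1]; exact h) σ

theorem exists_normal [IsAlgClosure ℚ Ω] (M : IntermediateField ℚ Ω) [FiniteDimensional ℚ M] :
    ∃ L : IntermediateField ℚ Ω, M ≤ L ∧ FiniteDimensional ℚ L ∧ Normal ℚ L := by
  have hΩ : Normal ℚ Ω := by
    have := (inferInstance : IsAlgClosure ℚ Ω).isAlgClosed
    have := (inferInstance : IsAlgClosure ℚ Ω).isAlgebraic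
    exact IsAlgClosure.normal ℚ Ω
  exact ⟨_, le_normalClosure M, normalClosure.is_finiteDimensional _ _ _,
    normalClosure.normal _ _ _⟩

theorem exists_big {K : IntermediateField ℚ Ω} [IsAlgClosure ℚ Ω] (κ : N.Choice K)
    (M : IntermediateField ℚ Ω) [FiniteDimensional ℚ M] :
    ∃ κ' : N.Choice K, N.top κ ≤ N.top κ' ∧ M ≤ N.top κ' ∧ (GG (N.top κ')).Normal := by
  have := N.finite κ
  have hΩ : Normal ℚ Ω := by
    have := (inferInstance : IsAlgClosure ℚ Ω).isAlgClosed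
    have := (inferInstance : IsAlgClosure ℚ Ω).isAlgebraic
    exact IsAlgClosure.normal ℚ Ω
  obtain ⟨L, hle, hf, hn⟩ := exists_normal (N.top κ ⊔ M)
  have h1 : N.top κ ≤ L := le_sup_left.trans hle
  have h2 : M ≤ L := le_sup_right.trans hle
  obtain ⟨κ', h⟩ := N.exists_choice K L ((N.le_top κ).trans h1) hf hn
  refine ⟨κ', by rw [h]; exact h1, by rw [h]; exact h2, ?_⟩
  rw [h]
  have : IsGalois ℚ Ω := ⟨⟩
  have : IsGalois ℚ L := ⟨⟩
  exact IsGalois.fixingSubgroup_normal_of_isGalois L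

theorem good_of_rel {K H N' : IntermediateField ℚ Ω} {ℓ : ℕ} [Fact ℓ.Prime]
    (a : Aff ℓ (GG K) (GG H) (GG N')) (hH : K ≤ H) (hN : K ≤ N') (h1 : N.StarkFor H)
    (h2 : N.StarkFor N') (κ : N.Choice K) (hκH : H ≤ N.top κ) (hκN : N' ≤ N.top κ)
    (hn : (GG (N.top κ)).Normal) (σ : ℂ ≃+* ℂ) {χ : GG K → ℂ} (h : IsCharOf χ (GG (N.top κ))) :
    Good κ σ χ := by
  have hU : GG (N.top κ) ≤ GG H := fixingSubgroup_le hκH
  have hV : GG (N.top κ) ≤ GG N' := fixingSubgroup_le hκN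
  have := a.finH
  have := a.finN
  have key := a.rel (ZMod.isPrimitive_stdAddChar ℓ) h.isCl
  have g1 : Good κ σ (Pool.Agent.Q317.ST.ind (GG K) (GG H) (a.ξH χ)) :=
    Good.ind h1 hH κ hκH σ (a.charH h)
  have g2 : ∀ q : (ZMod ℓ)ˣ ⧸ a.u.range,
      Good κ σ (Pool.Agent.Q317.ST.ind (GG K) (GG N') (a.ξN ZMod.stdAddChar χ q.out)) := fun q =>
    Good.ind h2 hN κ hκN σ (a.charN _ _ hU h)
  have c2 : ∀ q : (ZMod ℓ)ˣ ⧸ a.u.range, IsCharOf
      (Pool.Agent.Q317.ST.ind (GG K) (GG N') (a.ξN ZMod.stdAddChar χ q.out)) (GG (N.top κ)) :=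
    fun q => (a.charN _ _ hU h).induced a.nle hn hV
  rw [key] at g1
  exact Good.of_add h (IsCharOf.sum _ _ fun q _ => c2 q) g1
    (Good.sum _ _ (fun q _ => c2 q) fun q _ => g2 q)

/-- **Descent** along the two fields `K(ζ)` and `K(α)`. -/
theorem StarkFor.descent [IsAlgClosure ℚ Ω] {K : IntermediateField ℚ Ω} {ℓ : ℕ} [Fact ℓ.Prime]
    {ζ α : Ω} (hζ : IsPrimitiveRoot ζ ℓ) (hα : α ^ ℓ ∈ K) (hn : ∀ b ∈ K, b ^ ℓ ≠ α ^ ℓ)
    (h1 : N.StarkFor (K ⊔ ℚ⟮α⟯)) (h2 : N.StarkFor (K ⊔ ℚ⟮ζ⟯)) : N.StarkFor K := by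
  intro κ χ h σ
  have hp : ℓ ≠ 0 := (Fact.out : ℓ.Prime).ne_zero
  have h0 : α ≠ 0 := by
    rintro rfl
    exact hn 0 K.zero_mem rfl
  have hAlg := (inferInstance : IsAlgClosure ℚ Ω).isAlgebraic
  have i1 : FiniteDimensional ℚ ℚ⟮α⟯ :=
    adjoin.finiteDimensional (hAlg.isAlgebraic α).isIntegral
  have i2 : FiniteDimensional ℚ ℚ⟮ζ⟯ :=
    adjoin.finiteDimensional (hAlg.isAlgebraic ζ).isIntegral
  obtain ⟨κ', e1, e2, e3⟩ := exists_big κ (ℚ⟮α⟯ ⊔ ℚ⟮ζ⟯)
  have h' : IsCharOf χ (GG (N.top κ')) := h.mono (fixingSubgroup_le e1)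
  have hK : K ≤ N.top κ' := N.le_top κ'
  refine Good.change h h' ?_
  exact good_of_rel (aff hζ h0 hα hn) le_sup_left le_sup_left h1 h2 κ'
    (sup_le hK (le_sup_left.trans e2)) (sup_le hK (le_sup_right.trans e2)) e3 σ h'

/-- **Ascent**, the known direction. -/
theorem StarkFor.ascent [IsAlgClosure ℚ Ω] {K K' : IntermediateField ℚ Ω} (hle : K ≤ K')
    (hK : N.StarkFor K) : N.StarkFor K' := by
  intro κ χ h σ
  have := N.finite κ
  obtain ⟨L, e1, e2, e3⟩ := exists_normal (N.top κ)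
  obtain ⟨κ₀, e4⟩ := N.exists_choice K L ((hle.trans (N.le_top κ)).trans e1) e2 e3
  obtain ⟨κ', e5, e6⟩ := N.induced hle κ₀ (by rw [e4]; exact (N.le_top κ).trans e1)
  have h' : IsCharOf χ (GG (N.top κ')) := by
    rw [e5, e4]
    exact h.mono (fixingSubgroup_le e1)
  have h'' : IsCharOf χ (GG (N.top κ₀)) := by
    rw [← e5]
    exact h'
  have hΩ : Normal ℚ Ω := by
    have := (inferInstance : IsAlgClosure ℚ Ω).isAlgClosed
    have := (inferInstance : IsAlgClosure ℚ Ω).isAlgebraic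
    exact IsAlgClosure.normal ℚ Ω
  have : IsGalois ℚ Ω := ⟨⟩
  have : IsGalois ℚ L := ⟨⟩
  have hn : (GG (N.top κ₀)).Normal := by
    rw [e4]
    exact IsGalois.fixingSubgroup_normal_of_isGalois L
  refine Good.change h h' ?_
  unfold Good
  rw [← e6 χ h'', ← e6 _ (h''.tw σ), ← tw_ind]
  refine hK κ₀ _ ?_ σ
  have hfin : Finite (GG K ⧸ (GG K').subgroupOf (GG K)) := by
    have i3 : FiniteDimensional ℚ K' := FiniteDimensional.of_injective
      (inclusion (N.le_top κ)).toLinearMap (inclusion_injective (N.le_top κ))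
    have i4 : (GG K').FiniteIndex := ⟨by
      rw [← IntermediateField.finrank_eq_fixingSubgroup_index]
      exact Module.finrank_pos.ne'⟩
    infer_instance
  exact h''.induced (fixingSubgroup_le hle) hn (by
    rw [e4]; exact fixingSubgroup_le ((N.le_top κ).trans e1))

end StarkNumbers

end Pool.Agent.Q317.ST
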