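import Pool.Agent.Q317.ST.AS

/-!
# Cyclic extensions of totally complex fields
-/

set_option autoImplicit false

namespace Pool.Agent.Q317.ST

open scoped Classical
open IntermediateField Polynomial

attribute [-instance] DivisionRing.toRatAlgebra

section groups

variable {Γ : Type} [Group Γ]

theorem IsCharOf.per {G U : Subgroup Γ} {χ : G → ℂ} (h : IsCharOf χ U) {g g' : G}
    (hg : ((g⁻¹ * g' : G) : Γ) ∈ U) : χ g = χ g' := by
  obtain ⟨n, ρ, h1, h2⟩ := h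
  have h3 : ρ g' = ρ g := by
    have h4 : g' = g * (g⁻¹ * g') := by group
    rw [h4, map_mul, h1 _ hg, mul_one]
  rw [h2, h2, h3]

/-- the value of a character at an involution is a difference of natural numbers -/
theorem IsCharOf.invol {G U : Subgroup Γ} {χ : G → ℂ} (h : IsCharOf χ U) {c : G}
    (hc : c * c = 1) : ∃ a b : ℕ, χ c = a - b := by
  obtain ⟨n, ρ, h1, h2⟩ := h
  have h3 : ρ c * ρ c = 1 := by rw [← map_mul, hc, map_one]
  let P : Matrix (Fin n) (Fin n) ℂ := (1 / 2 : ℂ) • (1 + ρ c)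
  have hP : P * P = P := by
    have h5 : (1 + ρ c) * (1 + ρ c) = (2 : ℂ) • (1 + ρ c) := by
      rw [mul_add, mul_one, add_mul, one_mul, h3, two_smul]
      abel
    simp only [P, Matrix.smul_mul, Matrix.mul_smul, smul_smul, h5]
    norm_num
  have h4 : IsIdempotentElem (Matrix.toLin' P) := by
    rw [IsIdempotentElem, Module.End.mul_eq_comp, ← Matrix.toLin'_mul, hP]
  have h5 := (LinearMap.IsIdempotentElem.isProj_range _ h4).trace
  rw [Matrix.trace_toLin'_eq] at h5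
  refine ⟨2 * Module.finrank ℂ (LinearMap.range (Matrix.toLin' P)), n, ?_⟩
  rw [h2]
  have h6 : P.trace = (1 / 2 : ℂ) * (n + (ρ c).trace) := by
    simp [P, Matrix.trace_smul, Matrix.trace_add]
    ring
  rw [h6] at h5
  push_cast
  linear_combination 2 * h5

/-- multiples -/
def nm {G : Subgroup Γ} (n : ℕ) (χ : G → ℂ) : G → ℂ := fun g => (n : ℂ) * χ g

theorem IsCharOf.nm {G U : Subgroup Γ} {χ : G → ℂ} (n : ℕ) (h : IsCharOf χ U) :
    IsCharOf (nm n χ) U := (IsCharOf.const n).mul h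

theorem nm_succ {G : Subgroup Γ} (n : ℕ) (χ : G → ℂ) : nm (n + 1) χ = nm n χ + χ := by
  funext g
  unfold nm
  simp only [Pi.add_apply]
  push_cast
  ring

theorem nm_zero {G : Subgroup Γ} (χ : G → ℂ) : nm 0 χ = 0 := by
  funext g
  unfold nm
  simp

theorem tw_nm {G : Subgroup Γ} (σ : ℂ ≃+* ℂ) (n : ℕ) (χ : G → ℂ) :
    tw σ (nm n χ) = nm n (tw σ χ) := by
  funext g
  unfold tw nm
  simp

end groups

variable {Ω : Type} [Field Ω] [Algebra ℚ Ω]

namespace StarkNumbers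

variable {N : StarkNumbers Ω}

theorem A_zero {K : IntermediateField ℚ Ω} (κ : N.Choice K) : N.A κ (0 : GG K → ℂ) = 1 := by
  have h1 := N.add κ 0 0 IsCharOf.zero IsCharOf.zero
  rw [add_zero] at h1
  exact left_eq_mul.1 h1

theorem A_nm {K : IntermediateField ℚ Ω} (κ : N.Choice K) {χ : GG K → ℂ}
    (h : IsCharOf χ (GG (N.top κ))) (n : ℕ) : N.A κ (nm n χ) = N.A κ χ ^ n := by
  induction n with
  | zero => rw [nm_zero, A_zero, pow_zero]
  | succ n ih => rw [nm_succ, N.add κ _ _ (h.nm n) h, ih, pow_succ]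

theorem Good.nm {K : IntermediateField ℚ Ω} {κ : N.Choice K} {σ : ℂ ≃+* ℂ} {χ : GG K → ℂ}
    (h : IsCharOf χ (GG (N.top κ))) (g : Good κ σ χ) (n : ℕ) :
    Good κ σ (Pool.Agent.Q317.ST.nm n χ) := by
  unfold Good at *
  rw [tw_nm, A_nm κ h, A_nm κ (h.tw σ), Units.val_pow_eq_pow_val, Units.val_pow_eq_pow_val,
    map_pow, g]

theorem Good.pow {K : IntermediateField ℚ Ω} {κ : N.Choice K} {σ : ℂ ≃+* ℂ} {χ : GG K → ℂ}
    (h : IsCharOf χ (GG (N.top κ))) {n : ℕ} (g : Good κ σ (Pool.Agent.Q317.ST.nm n χ)) :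
    σ (N.A κ χ) ^ n = (N.A κ (tw σ χ) : ℂ) ^ n := by
  unfold Good at *
  rw [tw_nm, A_nm κ h, A_nm κ (h.tw σ), Units.val_pow_eq_pow_val, Units.val_pow_eq_pow_val,
    map_pow] at g
  exact g

variable (N)

/-- Stark's conjecture for the cyclic extensions of `K`. -/
def StarkForCyclic (K : IntermediateField ℚ Ω) : Prop :=
  ∀ κ : N.Choice K, (∃ g, cyc (GG (N.top κ)) g = GG K) →
    ∀ χ : GG K → ℂ, IsCharOf χ (GG (N.top κ)) → ∀ σ : ℂ ≃+* ℂ, σ (N.A κ χ) = N.A κ (tw σ χ)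

/-- Stark's conjecture up to roots of unity -/
def StarkTorsion (K : IntermediateField ℚ Ω) : Prop :=
  ∀ (κ : N.Choice K) (χ : GG K → ℂ), IsCharOf χ (GG (N.top κ)) → ∃ m : ℕ, 0 < m ∧
    ∀ σ : ℂ ≃+* ℂ, σ (N.A κ χ) ^ m = (N.A κ (tw σ χ) : ℂ) ^ m

variable {N}

theorem torsion_change {K : IntermediateField ℚ Ω} {κ κ' : N.Choice K} {χ : GG K → ℂ}
    (h : IsCharOf χ (GG (N.top κ))) (h' : IsCharOf χ (GG (N.top κ'))) {m : ℕ} {σ : ℂ ≃+* ℂ}
    (g : σ (N.A κ' χ) ^ m = (N.A κ' (tw σ χ) : ℂ) ^ m) :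
    σ (N.A κ χ) ^ m = (N.A κ (tw σ χ) : ℂ) ^ m := by
  have h1 := congrArg (fun z => z ^ m) (N.indep κ κ' χ σ h h')
  simp only [div_pow] at h1
  rw [g, div_self (pow_ne_zero _ (Units.ne_zero _)),
    div_eq_one_iff_eq (pow_ne_zero _ (Units.ne_zero _))] at h1
  exact h1

/-- the known direction, up to roots of unity -/
theorem StarkTorsion.ascent [IsAlgClosure ℚ Ω] {K K' : IntermediateField ℚ Ω} (hle : K ≤ K')
    (hK : N.StarkTorsion K) : N.StarkTorsion K' := by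
  intro κ χ h
  have := N.finite κ
  obtain ⟨L, e1, e2, e3⟩ := exists_normal (N.top κ)
  obtain ⟨κ₀, e4⟩ := N.exists_choice K L ((hle.trans (N.le_top κ)).trans e1) e2 e3
  obtain ⟨κ', e5, e6⟩ := N.induced hle κ₀ (by rw [e4]; exact (N.le_top κ).trans e1)
  have h' : IsCharOf χ (GG (N.top κ')) := by
    rw [e5, e4]
    exact h.mono (fixingSubgroup_le e1)
  have h'' : IsCharOf χ (GG (N.top κ₀)) := by
    rw [← e5]
    exact h'
  have hΩ : Normal ℚ Ω := normalΩ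
  have : IsGalois ℚ Ω := ⟨⟩
  have : IsGalois ℚ L := ⟨⟩
  have hn : (GG (N.top κ₀)).Normal := by
    rw [e4]
    exact IsGalois.fixingSubgroup_normal_of_isGalois L
  have hfin : Finite (GG K ⧸ (GG K').subgroupOf (GG K)) := by
    have i3 : FiniteDimensional ℚ K' := FiniteDimensional.of_injective
      (inclusion (N.le_top κ)).toLinearMap (inclusion_injective (N.le_top κ))
    have i4 : (GG K').FiniteIndex := ⟨by
      rw [← IntermediateField.finrank_eq_fixingSubgroup_index]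
      exact Module.finrank_pos.ne'⟩
    infer_instance
  obtain ⟨m, hm, h7⟩ := hK κ₀ _ (h''.induced (fixingSubgroup_le hle) hn (by
    rw [e4]; exact fixingSubgroup_le ((N.le_top κ).trans e1)))
  refine ⟨m, hm, fun σ => torsion_change h h' ?_⟩
  rw [← e6 χ h'', ← e6 _ (h''.tw σ), ← tw_ind]
  exact h7 σ

theorem conj_cyc {ι : Ω →+* ℂ} {c : Ω ≃ₐ[ℚ] Ω} [IsAlgClosure ℚ Ω]
    (hc : ∀ x, ι (c x) = starRingEnd ℂ (ι x)) {U H : Subgroup (Ω ≃ₐ[ℚ] Ω)} [hU : U.Normal]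
    {F : IntermediateField ℚ Ω} (hF : GG F = H) (τ : F →+* ℝ) : ∃ s : Ω ≃ₐ[ℚ] Ω,
    ∀ y : Ω ≃ₐ[ℚ] Ω, cyc U y = H → ∃ (k : ℤ) (u : Ω ≃ₐ[ℚ] Ω), u ∈ U ∧
      (s * y * s⁻¹) ^ k * u = c := by
  obtain ⟨s, hs⟩ := exists_ext ι F τ
  refine ⟨s, fun y hy => ?_⟩
  have h1 : s⁻¹ * c * s ∈ GG F := by
    rw [IntermediateField.mem_fixingSubgroup_iff]
    intro x hx
    have h2 : c (s x) = s x := (real_iff hc (s x)).2 ⟨τ ⟨x, hx⟩, hs x hx⟩
    rw [AlgEquiv.mul_apply, AlgEquiv.mul_apply, h2, ← AlgEquiv.mul_apply, inv_mul_cancel]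
    rfl
  rw [hF, ← hy] at h1
  obtain ⟨k, u, hu, h2⟩ := mem_cyc_iff.1 h1
  refine ⟨k, s * u * s⁻¹, hU.conj_mem u hu s, ?_⟩
  rw [conj_zpow]
  have h3 : c = s * (y ^ k * u) * s⁻¹ := by
    rw [h2]; group
  rw [h3]
  group

/-- a fixed square root -/
theorem fixed_root {L' : IntermediateField ℚ Ω} {a b : ℚ} {x z : Ω} (hx : x ∈ L') (hz : z ∈ L')
    (hx2 : x ^ 2 = algebraMap ℚ Ω a) (hz2 : z ^ 2 = algebraMap ℚ Ω b) (h : Ω ≃ₐ[ℚ] Ω) :
    ∃ w ∈ L', h w = w ∧ (w ^ 2 = algebraMap ℚ Ω a ∨ w ^ 2 = algebraMap ℚ Ω b ∨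
      w ^ 2 = algebraMap ℚ Ω (a * b)) := by
  have key : ∀ (x : Ω) (a : ℚ), x ^ 2 = algebraMap ℚ Ω a → h x = x ∨ h x = -x := by
    intro x a hx
    have h1 : (h x - x) * (h x + x) = 0 := by
      have h2 : (h x) ^ 2 = x ^ 2 := by
        rw [← map_pow, hx, AlgEquiv.commutes]
      linear_combination h2
    rcases mul_eq_zero.1 h1 with h3 | h3
    · exact Or.inl (sub_eq_zero.1 h3)
    · exact Or.inr (eq_neg_of_add_eq_zero_left h3)
  rcases key x a hx2 with h1 | h1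
  · exact ⟨x, hx, h1, Or.inl hx2⟩
  · rcases key z b hz2 with h2 | h2
    · exact ⟨z, hz, h2, Or.inr (Or.inl hz2)⟩
    · refine ⟨x * z, L'.mul_mem hx hz, by rw [map_mul, h1, h2, neg_mul_neg], Or.inr (Or.inr ?_)⟩
      rw [mul_pow, hx2, hz2, map_mul]

/-- the rational numbers `a`, `b`, `ab` are not squares in `E` -/
def NonSq (E : Type) [Field E] : Prop := ∃ a b : ℚ, (∀ x : E, x ^ 2 ≠ (a : E)) ∧
  (∀ x : E, x ^ 2 ≠ (b : E)) ∧ ∀ x : E, x ^ 2 ≠ ((a * b : ℚ) : E)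

/-- **Main theorem** over `ℚ`. -/
theorem torsion_bot [hΩ : IsAlgClosure ℚ Ω] {J : Type} [Finite J] (E : J → Type)
    [∀ j, Field (E j)] (hE : ∀ j, CharZero (E j)) (hnE : ∀ j, NonSq (E j))
    (hT : ∀ (κ : N.Choice ⊥) (σ : ℂ ≃+* ℂ), Good κ σ (fun _ => 1))
    (hC : ∀ F : IntermediateField ℚ Ω, FiniteDimensional ℚ F → IsEmpty (F →+* ℝ) →
      (∀ j, IsEmpty (F →+* E j)) → N.StarkForCyclic F) : N.StarkTorsion ⊥ := by
  intro κ χ h
  have hnΩ := normalΩ (Ω := Ω)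
  have hG : IsGalois ℚ Ω := ⟨⟩
  have hcl : IsAlgClosed Ω := hΩ.isAlgClosed
  have hAlg := hΩ.isAlgebraic
  obtain ⟨ι⟩ := exists_emb (Ω := Ω)
  obtain ⟨c, hc⟩ := exists_conj ι
  have := N.finite κ
  obtain ⟨L, eL, fL, nL⟩ := exists_normal (N.top κ)
  obtain ⟨M, fM, hLM, hM⟩ := pattern hc L
  -- square roots of rational numbers
  choose a b ha hb hab using hnE
  choose x hx using fun j => IsAlgClosed.exists_pow_nat_eq (algebraMap ℚ Ω (a j)) (n := 2)
    (by norm_num)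
  choose z hz using fun j => IsAlgClosed.exists_pow_nat_eq (algebraMap ℚ Ω (b j)) (n := 2)
    (by norm_num)
  have fR : FiniteDimensional ℚ (adjoin ℚ (Set.range (Sum.elim x z))) :=
    finiteDimensional_adjoin fun w _ => (hAlg.isAlgebraic w).isIntegral
  obtain ⟨κ', e1, e2, hU⟩ := exists_big κ (M ⊔ adjoin ℚ (Set.range (Sum.elim x z)))
  set L' := N.top κ' with hL'
  have fL' : FiniteDimensional ℚ L' := N.finite κ'
  have hML' : M ≤ L' := le_sup_left.trans e2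
  have hRL' : adjoin ℚ (Set.range (Sum.elim x z)) ≤ L' := le_sup_right.trans e2
  have hxL' : ∀ j, x j ∈ L' := fun j => hRL' (subset_adjoin ℚ _ ⟨Sum.inl j, rfl⟩)
  have hzL' : ∀ j, z j ∈ L' := fun j => hRL' (subset_adjoin ℚ _ ⟨Sum.inr j, rfl⟩)
  have nL' : Normal ℚ L' := by
    rw [IntermediateField.normal_iff_forall_map_le']
    rintro g _ ⟨w, hw, rfl⟩
    exact map_mem hU g hw
  have hpat := hM L' fL' nL' hML'
  set U := GG L' with hUdef
  have hGt : ∀ g : Ω ≃ₐ[ℚ] Ω, g ∈ GG (⊥ : IntermediateField ℚ Ω) := by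
    intro g
    rw [GG, IntermediateField.fixingSubgroup_bot]
    trivial
  have hUG : U ≤ GG (⊥ : IntermediateField ℚ Ω) := fun g _ => hGt g
  have hUfi : U.FiniteIndex := ⟨by
    rw [hUdef, ← IntermediateField.finrank_eq_fixingSubgroup_index]
    exact Module.finrank_pos.ne'⟩
  have : Finite (GG (⊥ : IntermediateField ℚ Ω) ⧸ U.subgroupOf (GG (⊥ : IntermediateField ℚ Ω))) := inferInstance
  have := Fintype.ofFinite (GG (⊥ : IntermediateField ℚ Ω) ⧸ U.subgroupOf (GG (⊥ : IntermediateField ℚ Ω)))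
  have h' : IsCharOf χ U := h.mono (fixingSubgroup_le e1)
  have hcc : (⟨c, hGt c⟩ : GG (⊥ : IntermediateField ℚ Ω)) * ⟨c, hGt c⟩ = 1 := by
    apply Subtype.ext
    apply AlgEquiv.ext
    intro w
    exact c_sq hc w
  obtain ⟨A, B, hAB⟩ := h'.invol hcc
  let f : GG (⊥ : IntermediateField ℚ Ω) → ℂ := fun g => χ g - (A - B)
  have hfv : IsVirt f U := by
    refine ⟨χ + fun _ => (B : ℂ), fun _ => (A : ℂ), h'.add (IsCharOf.const B),
      IsCharOf.const A, ?_⟩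
    funext g
    simp only [f, Pi.sub_apply, Pi.add_apply]
    ring
  -- each term
  have hterm : ∀ H ∈ cycs (GG (⊥ : IntermediateField ℚ Ω)) U, ∃ ψ₁ ψ₂ : GG (⊥ : IntermediateField ℚ Ω) → ℂ, IsCharOf ψ₁ U ∧ IsCharOf ψ₂ U ∧
      (∀ σ, Good κ' σ ψ₁) ∧ (∀ σ, Good κ' σ ψ₂) ∧
      Pool.Agent.Q317.ST.ind (GG (⊥ : IntermediateField ℚ Ω)) H (fun t => ext0 (GG (⊥ : IntermediateField ℚ Ω)) f t * thet U H t) = ψ₁ - ψ₂ := by
    intro H hH
    have hvirt := artin_virt hUG hfv hH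
    obtain ⟨y₀, hy₀, hyH⟩ := mem_cycs.1 hH
    have hUH : U ≤ H := by rw [← hyH]; exact le_cyc _ _
    have hHG : H ≤ GG (⊥ : IntermediateField ℚ Ω) := fun g _ => hGt g
    obtain ⟨i1, i2⟩ := finite_of_le (G := GG (⊥ : IntermediateField ℚ Ω)) hUH hHG
    -- the fixed field
    have hopen : IsOpen (H : Set (Ω ≃ₐ[ℚ] Ω)) :=
      Subgroup.isOpen_mono hUH (IntermediateField.fixingSubgroup_isOpen L')
    have hclosed : IsClosed (H : Set (Ω ≃ₐ[ℚ] Ω)) := Subgroup.isClosed_of_isOpen H hopen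
    set F := IntermediateField.fixedField H with hFdef
    have hGF : GG F = H := InfiniteGalois.fixingSubgroup_fixedField ⟨H, hclosed⟩
    have hFL' : F ≤ L' := by
      rw [← InfiniteGalois.fixedField_fixingSubgroup L']
      exact IntermediateField.fixedField_le hUH
    have fF : FiniteDimensional ℚ F := FiniteDimensional.of_injective
      (inclusion hFL').toLinearMap (inclusion_injective hFL')
    -- no embeddings in `E j`
    have hEj : ∀ j, IsEmpty (F →+* E j) := by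
      intro j
      refine ⟨fun τ => ?_⟩
      obtain ⟨w, hw1, hw2, hw3⟩ := fixed_root (hxL' j) (hzL' j) (hx j) (hz j) y₀
      have hwF : w ∈ F := by
        rw [hFdef, IntermediateField.mem_fixedField_iff]
        intro g hg
        rw [← hyH] at hg
        obtain ⟨k, u, hu, rfl⟩ := mem_cyc_iff.1 hg
        rw [AlgEquiv.mul_apply, (IntermediateField.mem_fixingSubgroup_iff _ _).1 hu w hw1]
        have h4 : y₀ ∈ MulAction.stabilizer (Ω ≃ₐ[ℚ] Ω) w := hw2
        exact Subgroup.zpow_mem _ h4 k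
      have := hE j
      have hq : ∀ (q : ℚ) (_ : w ^ 2 = algebraMap ℚ Ω q), (τ ⟨w, hwF⟩) ^ 2 = (q : E j) := by
        intro q hq
        rw [← map_pow]
        have h5 : (⟨w, hwF⟩ : F) ^ 2 = algebraMap ℚ F q := Subtype.ext hq
        rw [h5]
        exact congrArg (fun k : ℚ →+* E j => k q)
          (Subsingleton.elim (τ.comp (algebraMap ℚ F)) (Rat.castHom (E j)))
      rcases hw3 with h5 | h5 | h5
      · exact ha j _ (hq _ h5)
      · exact hb j _ (hq _ h5)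
      · exact hab j _ (hq _ h5)
    by_cases hreal : IsEmpty (F →+* ℝ)
    · obtain ⟨ψ₁, ψ₂, k1, k2, k3⟩ := hvirt
      have hgood : ∀ ψ : H → ℂ, IsCharOf ψ U → ∀ σ, Good κ' σ (Pool.Agent.Q317.ST.ind (GG (⊥ : IntermediateField ℚ Ω)) H ψ) := by
        have hS := hC F fF hreal hEj
        obtain ⟨κF, f1, f2⟩ := N.induced (bot_le : ⊥ ≤ F) κ' hFL'
        have hcyc : ∃ g, cyc (GG (N.top κF)) g = GG F := ⟨y₀, by
          rw [f1, hGF, ← hyH]⟩
        rw [← hGF]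
        intro ψ hψ σ
        unfold Good
        rw [tw_ind, f2 ψ hψ, f2 _ (hψ.tw σ)]
        exact hS κF hcyc ψ (by rw [f1]; exact hψ) σ
      refine ⟨_, _, k1.induced hHG hU hUH, k2.induced hHG hU hUH, hgood ψ₁ k1, hgood ψ₂ k2, ?_⟩
      rw [k3, ind_sub]
    · rw [not_isEmpty_iff] at hreal
      obtain ⟨τ⟩ := hreal
      obtain ⟨s, hs⟩ := conj_cyc (U := U) hc hGF τ
      refine ⟨0, 0, IsCharOf.zero, IsCharOf.zero, fun σ => Good.zero, fun σ => Good.zero, ?_⟩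
      have h0 : (fun t : H => ext0 (GG (⊥ : IntermediateField ℚ Ω)) f t * thet U H t) = 0 := by
        funext t
        by_cases ht : cyc U (t : Ω ≃ₐ[ℚ] Ω) = H
        · obtain ⟨k, u, hu, hk⟩ := hs t ht
          have h6 := hpat _ k u hu hk
          have h7 : χ (⟨t, hHG t.2⟩ : GG (⊥ : IntermediateField ℚ Ω)) = χ ⟨c, hGt c⟩ := by
            have h8 := h.isCl (⟨t, hHG t.2⟩ : GG (⊥ : IntermediateField ℚ Ω)) ⟨s, hGt s⟩
            rw [← h8]
            apply h.per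
            have h9 : (s * t * s⁻¹)⁻¹ * c ∈ GG L := by
              rw [IntermediateField.mem_fixingSubgroup_iff]
              intro w hw
              rw [AlgEquiv.mul_apply, ← h6 w hw, ← AlgEquiv.mul_apply, inv_mul_cancel]
              rfl
            exact fixingSubgroup_le eL h9
          have h10 : ext0 (GG (⊥ : IntermediateField ℚ Ω)) f t = 0 := by
            unfold ext0
            rw [dif_pos (hHG t.2)]
            simp only [f]
            rw [h7, hAB, sub_self]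
          simp only [h10, zero_mul]
          rfl
        · have h11 : thet U H t = 0 := if_neg ht
          simp only [h11, mul_zero]
          rfl
      rw [h0, ind_zero, sub_zero]
  choose! ψ₁ ψ₂ c1 c2 g1 g2 hind using hterm
  have hart := artin hUG hfv.isCl
  rw [Finset.sum_congr rfl hind, Finset.sum_sub_distrib] at hart
  have hchar1 : IsCharOf (∑ H ∈ cycs (GG (⊥ : IntermediateField ℚ Ω)) U, ψ₁ H) U := IsCharOf.sum _ _ c1
  have hchar2 : IsCharOf (∑ H ∈ cycs (GG (⊥ : IntermediateField ℚ Ω)) U, ψ₂ H) U := IsCharOf.sum _ _ c2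
  have hone : IsCharOf (fun _ : GG (⊥ : IntermediateField ℚ Ω) => (1 : ℂ)) U := by
    simpa using (IsCharOf.const 1 : IsCharOf (fun _ : GG (⊥ : IntermediateField ℚ Ω) => ((1 : ℕ) : ℂ)) U)
  refine ⟨U.relIndex (GG (⊥ : IntermediateField ℚ Ω)), Nat.pos_of_ne_zero relIndex_ne, fun σ => torsion_change h h' ?_⟩
  apply Good.pow h'
  have hid : Pool.Agent.Q317.ST.nm (U.relIndex (GG (⊥ : IntermediateField ℚ Ω))) χ +
      (Pool.Agent.Q317.ST.nm (U.relIndex (GG (⊥ : IntermediateField ℚ Ω)) * B) (fun _ => 1) + ∑ H ∈ cycs (GG (⊥ : IntermediateField ℚ Ω)) U, ψ₂ H) =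
      Pool.Agent.Q317.ST.nm (U.relIndex (GG (⊥ : IntermediateField ℚ Ω)) * A) (fun _ => 1) + ∑ H ∈ cycs (GG (⊥ : IntermediateField ℚ Ω)) U, ψ₁ H := by
    funext g
    have h12 := congrFun hart g
    simp only [Pi.add_apply, Pi.sub_apply, Pool.Agent.Q317.ST.nm, f] at h12 ⊢
    push_cast
    linear_combination -h12
  refine Good.of_add (χ₂ := Pool.Agent.Q317.ST.nm (U.relIndex (GG (⊥ : IntermediateField ℚ Ω)) * B) (fun _ => 1) +
    ∑ H ∈ cycs (GG (⊥ : IntermediateField ℚ Ω)) U, ψ₂ H) (h'.nm _) ((hone.nm _).add hchar2) ?_ ?_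
  · rw [hid]
    exact Good.add (hone.nm _) hchar1 (Good.nm hone (hT κ' σ) _)
      (Good.sum _ _ c1 fun H hH => g1 H hH σ)
  · exact Good.add (hone.nm _) hchar2 (Good.nm hone (hT κ' σ) _)
      (Good.sum _ _ c2 fun H hH => g2 H hH σ)

end StarkNumbers

end Pool.Agent.Q317.ST
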